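import Mathlib

open Filter Topology
open scoped ENNReal

namespace Pool.Agent.Lib.MP_355270_an

section Lift

variable {𝕜 : Type*} [RCLike 𝕜]
variable {F : ℕ → Type*} [∀ k, NormedAddCommGroup (F k)] [∀ k, NormedSpace 𝕜 (F k)]
variable {Y : Type*} [NormedAddCommGroup Y] [NormedSpace 𝕜 Y]

theorem hasSum_norm_one (t : lp F 1) : HasSum (fun k => ‖t k‖) ‖t‖ := by
  have h := lp.hasSum_norm (p := 1) (by simp) t
  simpa using h

theorem summable_norm_one (t : lp F 1) : Summable (fun k => ‖t k‖) :=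
  (hasSum_norm_one t).summable

theorem norm_one_eq (t : lp F 1) : ‖t‖ = ∑' k, ‖t k‖ := (hasSum_norm_one t).tsum_eq.symm

theorem summable_lift (φ : ∀ k, F k →L[𝕜] Y) {C : ℝ} (hC : ∀ k, ‖φ k‖ ≤ C) (t : lp F 1) :
    Summable (fun k => ‖φ k (t k)‖) := by
  refine Summable.of_nonneg_of_le (fun k => norm_nonneg _) (fun k => ?_)
    ((summable_norm_one t).mul_left C)
  exact (φ k).le_of_opNorm_le (hC k) _

/-- The operator on an `ℓ¹`-sum determined by a bounded family of operators on the blocks. -/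
noncomputable def lift [CompleteSpace Y] (φ : ∀ k, F k →L[𝕜] Y) (C : ℝ)
    (hC : ∀ k, ‖φ k‖ ≤ C) : lp F 1 →L[𝕜] Y :=
  LinearMap.mkContinuous
    { toFun := fun t => ∑' k, φ k (t k)
      map_add' := fun s t => by
        have h1 := (summable_lift φ hC s).of_norm
        have h2 := (summable_lift φ hC t).of_norm
        rw [← h1.tsum_add h2]
        congr 1
        ext k
        simp
      map_smul' := fun c t => by
        have h1 := (summable_lift φ hC t).of_norm
        simp only [RingHom.id_apply]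
        rw [← h1.tsum_const_smul c]
        congr 1
        ext k
        simp } C (fun t => by
      simp only [LinearMap.coe_mk, AddHom.coe_mk]
      have h1 := summable_lift φ hC t
      calc ‖∑' k, φ k (t k)‖ ≤ ∑' k, ‖φ k (t k)‖ := norm_tsum_le_tsum_norm h1
        _ ≤ ∑' k, C * ‖t k‖ := by
          refine h1.tsum_le_tsum (fun k => ?_) ((summable_norm_one t).mul_left C)
          exact (φ k).le_of_opNorm_le (hC k) _
        _ = C * ‖t‖ := by rw [tsum_mul_left, ← norm_one_eq])

theorem lift_apply [CompleteSpace Y] (φ : ∀ k, F k →L[𝕜] Y) (C : ℝ)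
    (hC : ∀ k, ‖φ k‖ ≤ C) (t : lp F 1) : lift φ C hC t = ∑' k, φ k (t k) := rfl

theorem lift_single [CompleteSpace Y] (φ : ∀ k, F k →L[𝕜] Y) (C : ℝ)
    (hC : ∀ k, ‖φ k‖ ≤ C) (k : ℕ) (a : F k) : lift φ C hC (lp.single 1 k a) = φ k a := by
  rw [lift_apply, tsum_eq_single k]
  · rw [lp.single_apply_self]
  · intro j hj
    rw [lp.single_apply_ne _ _ _ hj, map_zero]

theorem norm_lift_le [CompleteSpace Y] (φ : ∀ k, F k →L[𝕜] Y) (C : ℝ)
    (hC : ∀ k, ‖φ k‖ ≤ C) (t : lp F 1) : ‖lift φ C hC t‖ ≤ C * ‖t‖ := by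
  have hC0 : 0 ≤ C := (norm_nonneg _).trans (hC 0)
  exact LinearMap.mkContinuous_norm_le _ hC0 _ |> fun h => ContinuousLinearMap.le_of_opNorm_le _ h t

/-- Two continuous linear maps on an `ℓ¹`-sum agreeing on the blocks are equal. -/
theorem ext_single {f g : lp F 1 →L[𝕜] Y} (h : ∀ k a, f (lp.single 1 k a) = g (lp.single 1 k a)) :
    f = g := by
  refine lp.ext_continuousLinearMap (by simp) ?_
  intro k
  ext a
  simpa using h k a

theorem tendsto_sum_single (t : lp F 1) :
    Tendsto (fun n => ∑ k ∈ Finset.range n, lp.single 1 k (t k)) atTop (𝓝 t) := by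
  have h := lp.hasSum_single (p := 1) (by simp) t
  exact h.tendsto_sum_nat

end Lift

end Pool.Agent.Lib.MP_355270_an
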