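import Mathlib
import Pool.Agent.Lib.MP_355270_an.Lift

open Filter Topology
open scoped ENNReal

namespace Pool.Agent.Lib.MP_355270_an

universe u

/-- Injective choice from a sequence of infinite sets of natural numbers. -/
theorem exists_injective_choice (S : ℕ → Set ℕ) (hS : ∀ n, (S n).Infinite) :
    ∃ f : ℕ → ℕ, Function.Injective f ∧ ∀ n, f n ∈ S n := by
  have h := fun n a => (hS n).exists_gt a
  choose g hg1 hg2 using h
  let f : ℕ → ℕ := fun n => Nat.rec (g 0 0) (fun n prev => g (n + 1) prev) n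
  have hf : ∀ n, f (n + 1) = g (n + 1) (f n) := fun n => rfl
  refine ⟨f, ?_, ?_⟩
  · apply StrictMono.injective
    refine strictMono_nat_of_lt_succ (fun n => ?_)
    rw [hf]
    exact hg2 _ _
  · intro n
    cases n with
    | zero => exact hg1 0 0
    | succ n => rw [hf]; exact hg1 _ _

section Absorb

variable {𝕜 : Type*} [RCLike 𝕜]

/-- Two spaces are `C`-isomorphic (with a normalised isomorphism). -/
def Iso (𝕜 : Type*) [RCLike 𝕜] (C : ℝ) (A B : Type*) [NormedAddCommGroup A] [NormedSpace 𝕜 A]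
    [NormedAddCommGroup B] [NormedSpace 𝕜 B] : Prop :=
  ∃ T : A ≃L[𝕜] B, (∀ x, ‖T x‖ ≤ C * ‖x‖) ∧ (∀ y, ‖T.symm y‖ ≤ C * ‖y‖)

variable {F : ℕ → Type u} [∀ k, NormedAddCommGroup (F k)] [∀ k, NormedSpace 𝕜 (F k)]
variable {G : ℕ → Type u} [∀ k, NormedAddCommGroup (G k)] [∀ k, NormedSpace 𝕜 (G k)]

theorem memℓp_one_of_summable {ι : Type*} {B : ι → Type*} [∀ i, NormedAddCommGroup (B i)]
    {f : ∀ i, B i} (h : Summable (fun i => ‖f i‖)) : Memℓp f 1 := by
  refine memℓp_gen ?_
  simpa using h

/-- The ℓ¹-sums of two families are jointly isomorphic to the ℓ¹-sum of a third when the blocks can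
be matched bijectively with uniformly bounded distortion. -/
theorem absorb_of_bij [∀ k, CompleteSpace (F k)] [∀ k, CompleteSpace (G k)] (C : ℝ)
    (h : ℕ ⊕ ℕ → ℕ) (hb : Function.Bijective h)
    (T : ∀ n, F n ≃L[𝕜] G (h (Sum.inl n))) (T' : ∀ n, G n ≃L[𝕜] G (h (Sum.inr n)))
    (hT : ∀ n x, ‖T n x‖ ≤ C * ‖x‖) (hTs : ∀ n x, ‖(T n).symm x‖ ≤ C * ‖x‖)
    (hT' : ∀ n x, ‖T' n x‖ ≤ C * ‖x‖) (hTs' : ∀ n x, ‖(T' n).symm x‖ ≤ C * ‖x‖) :
    Nonempty ((lp F 1 × lp G 1) ≃L[𝕜] lp G 1) := by
  classical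
  set C' : ℝ := max C 0 with hC'
  have hC0 : 0 ≤ C' := le_max_right _ _
  have hCC : C ≤ C' := le_max_left _ _
  have hinl : Function.Injective (fun n => h (Sum.inl n)) := hb.1.comp Sum.inl_injective
  have hinr : Function.Injective (fun n => h (Sum.inr n)) := hb.1.comp Sum.inr_injective
  have hsumG : ∀ g : lp G 1, Summable (fun j => ‖g j‖) := summable_norm_one
  have hs1 : ∀ g : lp G 1, Summable (fun n => ‖(T n).symm (g (h (Sum.inl n)))‖) := by
    intro g
    refine Summable.of_nonneg_of_le (fun _ => norm_nonneg _) (fun n => (hTs n _).trans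
      (mul_le_mul_of_nonneg_right hCC (norm_nonneg _))) ?_
    exact ((hsumG g).comp_injective hinl).mul_left C'
  have hs2 : ∀ g : lp G 1, Summable (fun n => ‖(T' n).symm (g (h (Sum.inr n)))‖) := by
    intro g
    refine Summable.of_nonneg_of_le (fun _ => norm_nonneg _) (fun n => (hTs' n _).trans
      (mul_le_mul_of_nonneg_right hCC (norm_nonneg _))) ?_
    exact ((hsumG g).comp_injective hinr).mul_left C'
  let L : lp G 1 →ₗ[𝕜] lp F 1 × lp G 1 :=
    { toFun := fun g => (⟨fun n => (T n).symm (g (h (Sum.inl n))), memℓp_one_of_summable (hs1 g)⟩,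
        ⟨fun n => (T' n).symm (g (h (Sum.inr n))), memℓp_one_of_summable (hs2 g)⟩)
      map_add' := fun a b => by
        refine Prod.ext (lp.ext ?_) (lp.ext ?_)
        · funext n
          show (T n).symm (a (h (Sum.inl n)) + b (h (Sum.inl n))) = _
          rw [map_add]
          rfl
        · funext n
          show (T' n).symm (a (h (Sum.inr n)) + b (h (Sum.inr n))) = _
          rw [map_add]
          rfl
      map_smul' := fun c a => by
        refine Prod.ext (lp.ext ?_) (lp.ext ?_)
        · funext n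
          show (T n).symm (c • a (h (Sum.inl n))) = _
          rw [map_smul]
          rfl
        · funext n
          show (T' n).symm (c • a (h (Sum.inr n))) = _
          rw [map_smul]
          rfl }
  have hL1 : ∀ g n, (L g).1 n = (T n).symm (g (h (Sum.inl n))) := fun g n => rfl
  have hL2 : ∀ g n, (L g).2 n = (T' n).symm (g (h (Sum.inr n))) := fun g n => rfl
  have hLb : ∀ g, ‖L g‖ ≤ C' * ‖g‖ := by
    intro g
    rw [Prod.norm_def]
    refine max_le ?_ ?_
    · rw [norm_one_eq]
      calc ∑' n, ‖(L g).1 n‖ ≤ ∑' n, C' * ‖g (h (Sum.inl n))‖ := by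
            refine (hs1 g).tsum_le_tsum (fun n => (hTs n _).trans
              (mul_le_mul_of_nonneg_right hCC (norm_nonneg _))) ?_
            exact ((hsumG g).comp_injective hinl).mul_left C'
        _ = C' * ∑' n, ‖g (h (Sum.inl n))‖ := tsum_mul_left
        _ ≤ C' * ‖g‖ := by
          refine mul_le_mul_of_nonneg_left ?_ hC0
          rw [norm_one_eq g]
          exact tsum_comp_le_tsum_of_inj (hsumG g) (fun _ => norm_nonneg _) hinl
    · rw [norm_one_eq]
      calc ∑' n, ‖(L g).2 n‖ ≤ ∑' n, C' * ‖g (h (Sum.inr n))‖ := by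
            refine (hs2 g).tsum_le_tsum (fun n => (hTs' n _).trans
              (mul_le_mul_of_nonneg_right hCC (norm_nonneg _))) ?_
            exact ((hsumG g).comp_injective hinr).mul_left C'
        _ = C' * ∑' n, ‖g (h (Sum.inr n))‖ := tsum_mul_left
        _ ≤ C' * ‖g‖ := by
          refine mul_le_mul_of_nonneg_left ?_ hC0
          rw [norm_one_eq g]
          exact tsum_comp_le_tsum_of_inj (hsumG g) (fun _ => norm_nonneg _) hinr
  let Lc : lp G 1 →L[𝕜] lp F 1 × lp G 1 := L.mkContinuous C' hLb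
  have hLc : ∀ g, Lc g = L g := fun g => rfl
  have hinj : LinearMap.ker Lc.toLinearMap = ⊥ := by
    rw [LinearMap.ker_eq_bot']
    intro g hg
    have hg' : L g = 0 := hg
    refine lp.ext ?_
    funext j
    obtain ⟨i, rfl⟩ := hb.2 j
    show g (h i) = 0
    cases i with
    | inl n =>
      have : (T n).symm (g (h (Sum.inl n))) = 0 := by
        rw [← hL1, hg']
        rfl
      simpa using this
    | inr n =>
      have : (T' n).symm (g (h (Sum.inr n))) = 0 := by
        rw [← hL2, hg']
        rfl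
      simpa using this
  have hsurj : LinearMap.range Lc.toLinearMap = ⊤ := by
    rw [eq_top_iff]
    rintro ⟨f, g⟩ _
    let σ : ℕ ⊕ ℕ ≃ ℕ := Equiv.ofBijective h hb
    let k : ∀ i : ℕ ⊕ ℕ, G (σ i) := fun i => match i with
      | Sum.inl n => T n (f n)
      | Sum.inr n => T' n (g n)
    let q : ∀ j, G j := Equiv.piCongrLeft G σ k
    have hq : ∀ i, q (h i) = k i := fun i => Equiv.piCongrLeft_apply_apply G σ k i
    have hsum : Summable (fun j => ‖q j‖) := by
      rw [← σ.summable_iff]
      have : (fun j => ‖q j‖) ∘ σ = fun i => ‖k i‖ := by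
        funext i
        exact congrArg (fun v => ‖v‖) (hq i)
      rw [this]
      have h1 : Summable ((fun i => ‖k i‖) ∘ Sum.inl) := by
        refine Summable.of_nonneg_of_le (fun _ => norm_nonneg _) (fun n => (hT n (f n)).trans
          (mul_le_mul_of_nonneg_right hCC (norm_nonneg _))) ?_
        exact (summable_norm_one f).mul_left C'
      have h2 : Summable ((fun i => ‖k i‖) ∘ Sum.inr) := by
        refine Summable.of_nonneg_of_le (fun _ => norm_nonneg _) (fun n => (hT' n (g n)).trans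
          (mul_le_mul_of_nonneg_right hCC (norm_nonneg _))) ?_
        exact (summable_norm_one g).mul_left C'
      exact (h1.hasSum.sum h2.hasSum).summable
    refine ⟨⟨q, memℓp_one_of_summable hsum⟩, ?_⟩
    show L _ = _
    refine Prod.ext (lp.ext ?_) (lp.ext ?_)
    · funext n
      show (T n).symm (q (h (Sum.inl n))) = f n
      rw [hq]
      show (T n).symm (T n (f n)) = f n
      simp
    · funext n
      show (T' n).symm (q (h (Sum.inr n))) = g n
      rw [hq]
      show (T' n).symm (T' n (g n)) = g n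
      simp
  exact ⟨(ContinuousLinearEquiv.ofBijective Lc hinj hsurj).symm⟩

/-- Absorption. -/
theorem absorb [∀ k, CompleteSpace (F k)] [∀ k, CompleteSpace (G k)] (C : ℝ) (hC : 1 ≤ C)
    (hF : ∀ n, {j | Iso 𝕜 C (F n) (G j)}.Infinite)
    (hG : ∀ n, {j | Iso 𝕜 C (G n) (G j)}.Infinite) :
    Nonempty ((lp F 1 × lp G 1) ≃L[𝕜] lp G 1) := by
  classical
  -- an injection of the index set
  let e : ℕ ⊕ ℕ ≃ ℕ := Equiv.natSumNatEquivNat
  let Rel : ℕ ⊕ ℕ → ℕ → Prop := fun i j => match i with
    | Sum.inl n => Iso 𝕜 C (F n) (G j)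
    | Sum.inr n => Iso 𝕜 C (G n) (G j)
  have hinf : ∀ i : ℕ ⊕ ℕ, {j | Rel i j}.Infinite := by
    rintro (n | n)
    · exact hF n
    · exact hG n
  obtain ⟨f, hf1, hf2⟩ := exists_injective_choice (fun m => {j | Rel (e.symm m) j})
    (fun m => hinf (e.symm m))
  obtain ⟨h, hb, hR⟩ := Function.Embedding.schroeder_bernstein_of_rel
    (f := fun i => f (e i)) (g := fun j => (Sum.inr j : ℕ ⊕ ℕ))
    (hf1.comp e.injective) Sum.inr_injective Rel
    (fun i => by
      have := hf2 (e i)
      simp only [Equiv.symm_apply_apply] at this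
      exact this)
    (fun j => ⟨ContinuousLinearEquiv.refl 𝕜 (G j), fun x => by
        show ‖x‖ ≤ C * ‖x‖
        nlinarith [norm_nonneg x], fun x => by
        show ‖x‖ ≤ C * ‖x‖
        nlinarith [norm_nonneg x]⟩)
  have h1 : ∀ n, Iso 𝕜 C (F n) (G (h (Sum.inl n))) := fun n => hR (Sum.inl n)
  have h2 : ∀ n, Iso 𝕜 C (G n) (G (h (Sum.inr n))) := fun n => hR (Sum.inr n)
  choose T hT hTs using h1
  choose T' hT' hTs' using h2
  exact absorb_of_bij C h hb T T' hT hTs hT' hTs'

end Absorb

end Pool.Agent.Lib.MP_355270_an
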