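import Mathlib

open Filter Topology
open scoped ENNReal

namespace Pool.Agent.Lib.MP_355270_an

section Tail

variable (𝕜 : Type*) [RCLike 𝕜]
variable {G : ℕ → Type*} [∀ k, NormedAddCommGroup (G k)] [∀ k, NormedSpace 𝕜 (G k)]
variable (p : ℝ≥0∞) [Fact (1 ≤ p)]

/-- Truncation of an `ℓᵖ`-sum to its first `n` blocks. -/
noncomputable def tau (n : ℕ) : lp G p →L[𝕜] lp G p :=
  ∑ k ∈ Finset.range n, (lp.singleContinuousLinearMap 𝕜 G p k).comp (lp.evalCLM 𝕜 G p k)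

theorem tau_apply (n : ℕ) (r : lp G p) :
    tau 𝕜 p n r = ∑ k ∈ Finset.range n, lp.single p k (r k) := by
  unfold tau
  rw [_root_.sum_apply]
  rfl

theorem tau_zero : tau 𝕜 (G := G) p 0 = 0 := by
  unfold tau
  simp

theorem tau_coe (n : ℕ) (r : lp G p) (k : ℕ) : tau 𝕜 p n r k = if k < n then r k else 0 := by
  rw [tau_apply, lp.coeFn_sum, Finset.sum_apply]
  simp only [lp.coeFn_single]
  by_cases h : k < n
  · rw [if_pos h, Finset.sum_eq_single k]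
    · simp
    · intro b _ hb
      rw [Pi.single_eq_of_ne hb.symm]
    · intro hk
      exact absurd (Finset.mem_range.mpr h) hk
  · rw [if_neg h, Finset.sum_eq_zero]
    intro b hb
    rw [Pi.single_eq_of_ne]
    rintro rfl
    exact h (Finset.mem_range.mp hb)

theorem tau_comp (n m : ℕ) (r : lp G p) : tau 𝕜 p n (tau 𝕜 p m r) = tau 𝕜 p (min n m) r := by
  refine lp.ext ?_
  funext k
  rw [tau_coe, tau_coe, tau_coe]
  by_cases h1 : k < n <;> by_cases h2 : k < m <;> simp [h1, h2]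

variable {p}

theorem toReal_pos' (hp : p ≠ ∞) : 0 < p.toReal :=
  ENNReal.toReal_pos (zero_lt_one.trans_le (Fact.out : 1 ≤ p)).ne' hp

theorem norm_tau_rpow (hp : p ≠ ∞) (n : ℕ) (r : lp G p) :
    ‖tau 𝕜 p n r‖ ^ p.toReal = ∑ k ∈ Finset.range n, ‖r k‖ ^ p.toReal := by
  rw [tau_apply, lp.norm_sum_single (toReal_pos' hp)]

theorem norm_split (hp : p ≠ ∞) (n : ℕ) (r : lp G p) :
    ‖r‖ ^ p.toReal = ‖tau 𝕜 p n r‖ ^ p.toReal + ‖r - tau 𝕜 p n r‖ ^ p.toReal := by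
  rw [norm_tau_rpow 𝕜 hp, tau_apply, lp.norm_compl_sum_single (toReal_pos' hp)]
  ring

theorem norm_tau_le (hp : p ≠ ∞) (n : ℕ) (r : lp G p) : ‖tau 𝕜 p n r‖ ≤ ‖r‖ := by
  have h := norm_split 𝕜 hp n r
  have h2 : ‖tau 𝕜 p n r‖ ^ p.toReal ≤ ‖r‖ ^ p.toReal := by
    rw [h]
    have : 0 ≤ ‖r - tau 𝕜 p n r‖ ^ p.toReal := by positivity
    linarith
  exact (Real.rpow_le_rpow_iff (norm_nonneg _) (norm_nonneg _) (toReal_pos' hp)).mp h2

theorem norm_sub_tau_le (hp : p ≠ ∞) (n : ℕ) (r : lp G p) : ‖r - tau 𝕜 p n r‖ ≤ ‖r‖ := by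
  have h := norm_split 𝕜 hp n r
  have h2 : ‖r - tau 𝕜 p n r‖ ^ p.toReal ≤ ‖r‖ ^ p.toReal := by
    rw [h]
    have : 0 ≤ ‖tau 𝕜 p n r‖ ^ p.toReal := by positivity
    linarith
  exact (Real.rpow_le_rpow_iff (norm_nonneg _) (norm_nonneg _) (toReal_pos' hp)).mp h2

theorem tendsto_tau (hp : p ≠ ∞) (r : lp G p) :
    Tendsto (fun n => tau 𝕜 p n r) atTop (𝓝 r) := by
  have h := lp.hasSum_single hp r
  simp_rw [tau_apply]
  exact h.tendsto_sum_nat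

/-- Telescoping estimate. -/
theorem sum_norm_diff_le (hp : p ≠ ∞) (κ : ℕ → ℕ) (hκ : Monotone κ) (N : ℕ) (r : lp G p) :
    ∑ i ∈ Finset.range N, ‖tau 𝕜 p (κ (i + 1)) r - tau 𝕜 p (κ i) r‖ ^ p.toReal ≤
      ‖r‖ ^ p.toReal := by
  have h1 : ∀ i, ‖tau 𝕜 p (κ (i + 1)) r - tau 𝕜 p (κ i) r‖ ^ p.toReal =
      ‖tau 𝕜 p (κ (i + 1)) r‖ ^ p.toReal - ‖tau 𝕜 p (κ i) r‖ ^ p.toReal := by
    intro i
    have := norm_split 𝕜 hp (κ i) (tau 𝕜 p (κ (i + 1)) r)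
    rw [tau_comp, min_eq_left (hκ (Nat.le_succ i))] at this
    linarith
  simp_rw [h1]
  rw [Finset.sum_range_sub (fun i => ‖tau 𝕜 p (κ i) r‖ ^ p.toReal)]
  have h2 : ‖tau 𝕜 p (κ N) r‖ ^ p.toReal ≤ ‖r‖ ^ p.toReal :=
    Real.rpow_le_rpow (norm_nonneg _) (norm_tau_le 𝕜 hp _ _) (toReal_pos' hp).le
  have h3 : 0 ≤ ‖tau 𝕜 p (κ 0) r‖ ^ p.toReal := by positivity
  linarith

variable {𝕜}

theorem one_lt_toReal (hp : p ≠ ∞) (hp1 : 1 < p) : 1 < p.toReal := by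
  have := (ENNReal.toReal_lt_toReal ENNReal.one_ne_top hp).mpr hp1
  simpa using this

/-- `N ^ (-1/p) → 0`. -/
theorem exists_large (hp : p ≠ ∞) (C ε : ℝ) (hε : 0 < ε) :
    ∃ N : ℕ, 0 < N ∧ C * (N : ℝ) ^ (-(1 / p.toReal)) ≤ ε := by
  have h1 : 0 < 1 / p.toReal := one_div_pos.mpr (toReal_pos' hp)
  have h2 : Tendsto (fun N : ℕ => (N : ℝ) ^ (-(1 / p.toReal))) atTop (𝓝 0) :=
    (tendsto_rpow_neg_atTop h1).comp tendsto_natCast_atTop_atTop
  have h3 : Tendsto (fun N : ℕ => C * (N : ℝ) ^ (-(1 / p.toReal))) atTop (𝓝 0) := by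
    simpa using h2.const_mul C
  obtain ⟨N, hN1, hN2⟩ := ((eventually_gt_atTop 0).and
    (h3.eventually (ge_mem_nhds hε))).exists
  exact ⟨N, hN1, hN2⟩

/-- The tails of a functional on an `ℓᵖ`-sum, `1 < p < ∞`, tend to zero. -/
theorem tail_functional (hp : p ≠ ∞) (hp1 : 1 < p) (f : lp G p →L[𝕜] 𝕜) {δ : ℝ} (hδ : 0 < δ) :
    ∃ k : ℕ, ∀ l, k ≤ l → ∀ r, ‖f (r - tau 𝕜 p l r)‖ ≤ δ * ‖r‖ := by
  by_contra hcon
  push Not at hcon
  -- normalised far out vectors on which `f` is large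
  have step : ∀ k : ℕ, ∃ l, k ≤ l ∧ ∃ u : lp G p, tau 𝕜 p k u = 0 ∧ tau 𝕜 p l u = u ∧ ‖u‖ ≤ 1 ∧
      f u = ((‖f u‖ : ℝ) : 𝕜) ∧ δ / 2 ≤ ‖f u‖ := by
    intro k
    obtain ⟨l0, hl0, r, hr⟩ := hcon k
    have hr0 : r ≠ 0 := by
      rintro rfl
      simp at hr
    have hrpos : 0 < ‖r‖ := norm_pos_iff.mpr hr0
    -- cut off
    have hlim : Tendsto (fun l => ‖f (tau 𝕜 p l r - tau 𝕜 p l0 r)‖) atTop
        (𝓝 ‖f (r - tau 𝕜 p l0 r)‖) := by
      have := ((tendsto_tau 𝕜 hp r).sub_const (tau 𝕜 p l0 r))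
      exact ((f.continuous.tendsto _).comp this).norm
    have hlt : δ / 2 * ‖r‖ < ‖f (r - tau 𝕜 p l0 r)‖ := by nlinarith
    obtain ⟨l, hl1, hl2⟩ := ((eventually_ge_atTop l0).and
      (hlim.eventually (lt_mem_nhds hlt))).exists
    set v := tau 𝕜 p l r - tau 𝕜 p l0 r with hv
    have hvn : ‖v‖ ≤ ‖r‖ := by
      have h1 : v = tau 𝕜 p l r - tau 𝕜 p l0 (tau 𝕜 p l r) := by
        rw [tau_comp, min_eq_left hl1]
      rw [h1]
      exact (norm_sub_tau_le 𝕜 hp l0 _).trans (norm_tau_le 𝕜 hp l r)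
    have hfv : f v ≠ 0 := by
      intro h0
      rw [h0, norm_zero] at hl2
      have : 0 < δ / 2 * ‖r‖ := by positivity
      linarith
    have hfvpos : 0 < ‖f v‖ := norm_pos_iff.mpr hfv
    -- the phase
    set c : 𝕜 := ((‖f v‖ : ℝ) : 𝕜) * (f v)⁻¹ * ((‖r‖ : ℝ) : 𝕜)⁻¹ with hc
    have hrne : ((‖r‖ : ℝ) : 𝕜) ≠ 0 := by exact_mod_cast hrpos.ne'
    have hcn : ‖c‖ = ‖r‖⁻¹ := by
      rw [hc, norm_mul, norm_mul, norm_inv, norm_inv, RCLike.norm_ofReal, RCLike.norm_ofReal,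
        abs_norm, abs_norm, mul_inv_cancel₀ hfvpos.ne', one_mul]
    have hfc : f (c • v) = ((‖f v‖ * ‖r‖⁻¹ : ℝ) : 𝕜) := by
      rw [map_smul, smul_eq_mul, hc]
      push_cast
      field_simp
    have hfcn : ‖f (c • v)‖ = ‖f v‖ * ‖r‖⁻¹ := by
      rw [map_smul, norm_smul, hcn, mul_comm]
    refine ⟨l, hl0.trans hl1, c • v, ?_, ?_, ?_, ?_, ?_⟩
    · rw [map_smul, hv, map_sub, tau_comp, tau_comp, min_eq_left (hl0.trans hl1),
        min_eq_left hl0, sub_self, smul_zero]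
    · rw [map_smul, hv, map_sub, tau_comp, tau_comp, min_self, min_eq_right hl1]
    · rw [norm_smul, hcn, inv_mul_le_iff₀ hrpos, mul_one]
      exact hvn
    · rw [hfcn, hfc]
    · rw [hfcn, ← div_eq_mul_inv, le_div_iff₀ hrpos]
      exact hl2.le
  choose L hL U hU1 hU2 hU3 hU4 hU5 using step
  let κ : ℕ → ℕ := fun n => Nat.rec 0 (fun _ k => L k) n
  have hκ : ∀ n, κ (n + 1) = L (κ n) := fun n => rfl
  let x : ℕ → lp G p := fun N => ∑ i ∈ Finset.range N, U (κ i)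
  have hx1 : ∀ N, tau 𝕜 p (κ N) (x N) = x N := by
    intro N
    induction N with
    | zero => simp [x]
    | succ N ih =>
      have : x (N + 1) = x N + U (κ N) := Finset.sum_range_succ _ _
      rw [this, map_add, hκ, hU2]
      congr 1
      rw [← ih, tau_comp, min_eq_right (hL _)]
  have hx2 : ∀ N, ‖x N‖ ^ p.toReal ≤ N := by
    intro N
    induction N with
    | zero => simp [x, Real.zero_rpow (toReal_pos' hp).ne']
    | succ N ih =>
      have h1 : x (N + 1) = x N + U (κ N) := Finset.sum_range_succ _ _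
      have h2 := norm_split 𝕜 hp (κ N) (x (N + 1))
      have h3 : tau 𝕜 p (κ N) (x (N + 1)) = x N := by
        rw [h1, map_add, hU1, hx1, add_zero]
      rw [h3] at h2
      rw [h2, h1, add_sub_cancel_left]
      have h4 : ‖U (κ N)‖ ^ p.toReal ≤ 1 :=
        Real.rpow_le_one (norm_nonneg _) (hU3 _) (toReal_pos' hp).le
      push_cast
      linarith
  have hx3 : ∀ N : ℕ, (N : ℝ) * (δ / 2) ≤ ‖f (x N)‖ := by
    intro N
    have h1 : f (x N) = ((∑ i ∈ Finset.range N, ‖f (U (κ i))‖ : ℝ) : 𝕜) := by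
      simp only [x]
      rw [map_sum]
      push_cast
      refine Finset.sum_congr rfl (fun i _ => ?_)
      exact hU4 _
    rw [h1, RCLike.norm_ofReal, abs_of_nonneg (Finset.sum_nonneg (fun i _ => norm_nonneg _))]
    calc (N : ℝ) * (δ / 2) = ∑ i ∈ Finset.range N, δ / 2 := by simp
      _ ≤ _ := Finset.sum_le_sum (fun i _ => hU5 _)
  -- contradiction for large `N`
  have hP := one_lt_toReal hp hp1
  have hcon2 : ∀ N : ℕ, 0 < N → δ / 2 ≤ ‖f‖ * (N : ℝ) ^ (1 / p.toReal - 1) := by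
    intro N hN
    have hNpos : (0 : ℝ) < N := by exact_mod_cast hN
    have h1 : ‖x N‖ ≤ (N : ℝ) ^ (1 / p.toReal) := by
      rw [one_div, Real.le_rpow_inv_iff_of_pos (norm_nonneg _) hNpos.le (toReal_pos' hp)]
      exact hx2 N
    have h2 : (N : ℝ) * (δ / 2) ≤ ‖f‖ * (N : ℝ) ^ (1 / p.toReal) :=
      (hx3 N).trans ((f.le_opNorm _).trans (mul_le_mul_of_nonneg_left h1 (norm_nonneg _)))
    rw [Real.rpow_sub hNpos, Real.rpow_one]
    have h3 : ‖f‖ * ((N : ℝ) ^ (1 / p.toReal) / N) = (‖f‖ * (N : ℝ) ^ (1 / p.toReal)) / N := by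
      ring
    rw [h3, le_div_iff₀ hNpos]
    linarith
  have hneg : 0 < 1 - 1 / p.toReal := by
    have : 1 / p.toReal < 1 := by
      rw [div_lt_one (toReal_pos' hp)]
      exact hP
    linarith
  have hlim : Tendsto (fun N : ℕ => ‖f‖ * (N : ℝ) ^ (1 / p.toReal - 1)) atTop (𝓝 0) := by
    have h1 : Tendsto (fun N : ℕ => (N : ℝ) ^ (-(1 - 1 / p.toReal))) atTop (𝓝 0) :=
      (tendsto_rpow_neg_atTop hneg).comp tendsto_natCast_atTop_atTop
    have h2 := h1.const_mul ‖f‖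
    simp only [neg_sub, mul_zero] at h2
    exact h2
  obtain ⟨N, hN1, hN2⟩ := ((eventually_gt_atTop 0).and
    (hlim.eventually (gt_mem_nhds (half_pos hδ)))).exists
  have := hcon2 N hN1
  linarith

end Tail

end Pool.Agent.Lib.MP_355270_an
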