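import Mathlib
import Pool.Agent.Lib.MP_355270_an.Absorb
import Pool.Agent.Lib.MP_355270_an.Tail

open Filter Topology
open scoped ENNReal

namespace Pool.Agent.Lib.MP_355270_an

universe u

section AbsorbP

variable {𝕜 : Type*} [RCLike 𝕜]
variable {p : ℝ≥0∞} [Fact (1 ≤ p)]
variable {F : ℕ → Type u} [∀ k, NormedAddCommGroup (F k)] [∀ k, NormedSpace 𝕜 (F k)]
variable {G : ℕ → Type u} [∀ k, NormedAddCommGroup (G k)] [∀ k, NormedSpace 𝕜 (G k)]

theorem absorbP_of_bij [∀ k, CompleteSpace (F k)] [∀ k, CompleteSpace (G k)] (hp : p ≠ ∞) (C : ℝ)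
    (h : ℕ ⊕ ℕ → ℕ) (hb : Function.Bijective h)
    (T : ∀ n, F n ≃L[𝕜] G (h (Sum.inl n))) (T' : ∀ n, G n ≃L[𝕜] G (h (Sum.inr n)))
    (hT : ∀ n x, ‖T n x‖ ≤ C * ‖x‖) (hTs : ∀ n x, ‖(T n).symm x‖ ≤ C * ‖x‖)
    (hT' : ∀ n x, ‖T' n x‖ ≤ C * ‖x‖) (hTs' : ∀ n x, ‖(T' n).symm x‖ ≤ C * ‖x‖) :
    Nonempty ((lp F p × lp G p) ≃L[𝕜] lp G p) := by
  classical
  have hP := toReal_pos' hp
  set C' : ℝ := max C 0 with hC'
  have hC0 : 0 ≤ C' := le_max_right _ _
  have hCC : C ≤ C' := le_max_left _ _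
  have hinl : Function.Injective (fun n => h (Sum.inl n)) := hb.1.comp Sum.inl_injective
  have hinr : Function.Injective (fun n => h (Sum.inr n)) := hb.1.comp Sum.inr_injective
  have hsumG : ∀ g : lp G p, Summable (fun j => ‖g j‖ ^ p.toReal) := fun g =>
    (lp.memℓp g).summable hP
  have hsumF : ∀ g : lp F p, Summable (fun j => ‖g j‖ ^ p.toReal) := fun g =>
    (lp.memℓp g).summable hP
  have hpw : ∀ (a b : ℝ), 0 ≤ a → 0 ≤ b → a ≤ C * b →
      a ^ p.toReal ≤ C' ^ p.toReal * b ^ p.toReal := by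
    intro a b ha hb' hab
    rw [← Real.mul_rpow hC0 hb']
    exact Real.rpow_le_rpow ha (hab.trans (mul_le_mul_of_nonneg_right hCC hb')) hP.le
  have hs1 : ∀ g : lp G p,
      Summable (fun n => ‖(T n).symm (g (h (Sum.inl n)))‖ ^ p.toReal) := by
    intro g
    refine Summable.of_nonneg_of_le (fun _ => by positivity)
      (fun n => hpw _ _ (norm_nonneg _) (norm_nonneg _) (hTs n _)) ?_
    exact ((hsumG g).comp_injective hinl).mul_left (C' ^ p.toReal)
  have hs2 : ∀ g : lp G p,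
      Summable (fun n => ‖(T' n).symm (g (h (Sum.inr n)))‖ ^ p.toReal) := by
    intro g
    refine Summable.of_nonneg_of_le (fun _ => by positivity)
      (fun n => hpw _ _ (norm_nonneg _) (norm_nonneg _) (hTs' n _)) ?_
    exact ((hsumG g).comp_injective hinr).mul_left (C' ^ p.toReal)
  let L : lp G p →ₗ[𝕜] lp F p × lp G p :=
    { toFun := fun g => (⟨fun n => (T n).symm (g (h (Sum.inl n))), memℓp_gen (hs1 g)⟩,
        ⟨fun n => (T' n).symm (g (h (Sum.inr n))), memℓp_gen (hs2 g)⟩)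
      map_add' := fun a b => by
        refine Prod.ext (lp.ext ?_) (lp.ext ?_)
        · funext n
          show (T n).symm (a (h (Sum.inl n)) + b (h (Sum.inl n))) = _
          rw [map_add]
          rfl
        · funext n
          show (T' n).symm (a (h (Sum.inr n)) + b (h (Sum.inr n))) = _
          rw [map_add]
          rfl
      map_smul' := fun c a => by
        refine Prod.ext (lp.ext ?_) (lp.ext ?_)
        · funext n
          show (T n).symm (c • a (h (Sum.inl n))) = _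
          rw [map_smul]
          rfl
        · funext n
          show (T' n).symm (c • a (h (Sum.inr n))) = _
          rw [map_smul]
          rfl }
  have hL1 : ∀ g n, (L g).1 n = (T n).symm (g (h (Sum.inl n))) := fun g n => rfl
  have hL2 : ∀ g n, (L g).2 n = (T' n).symm (g (h (Sum.inr n))) := fun g n => rfl
  have hLb : ∀ g, ‖L g‖ ≤ C' * ‖g‖ := by
    intro g
    have key : ∀ (ι : ℕ → ℕ), Function.Injective ι →
        ∑' n, C' ^ p.toReal * ‖g (ι n)‖ ^ p.toReal ≤ (C' * ‖g‖) ^ p.toReal := by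
      intro ι hι
      rw [tsum_mul_left, Real.mul_rpow hC0 (norm_nonneg _), lp.norm_rpow_eq_tsum hP g]
      refine mul_le_mul_of_nonneg_left ?_ (by positivity)
      exact tsum_comp_le_tsum_of_inj (hsumG g) (fun _ => by positivity) hι
    rw [Prod.norm_def]
    refine max_le ?_ ?_
    · rw [← Real.rpow_le_rpow_iff (norm_nonneg _) (by positivity) hP, lp.norm_rpow_eq_tsum hP]
      refine le_trans ?_ (key _ hinl)
      refine (hs1 g).tsum_le_tsum (fun n => hpw _ _ (norm_nonneg _) (norm_nonneg _) (hTs n _)) ?_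
      exact ((hsumG g).comp_injective hinl).mul_left (C' ^ p.toReal)
    · rw [← Real.rpow_le_rpow_iff (norm_nonneg _) (by positivity) hP, lp.norm_rpow_eq_tsum hP]
      refine le_trans ?_ (key _ hinr)
      refine (hs2 g).tsum_le_tsum (fun n => hpw _ _ (norm_nonneg _) (norm_nonneg _) (hTs' n _)) ?_
      exact ((hsumG g).comp_injective hinr).mul_left (C' ^ p.toReal)
  let Lc : lp G p →L[𝕜] lp F p × lp G p := L.mkContinuous C' hLb
  have hinj : LinearMap.ker Lc.toLinearMap = ⊥ := by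
    rw [LinearMap.ker_eq_bot']
    intro g hg
    have hg' : L g = 0 := hg
    refine lp.ext ?_
    funext j
    obtain ⟨i, rfl⟩ := hb.2 j
    show g (h i) = 0
    cases i with
    | inl n =>
      have : (T n).symm (g (h (Sum.inl n))) = 0 := by
        rw [← hL1, hg']
        rfl
      simpa using this
    | inr n =>
      have : (T' n).symm (g (h (Sum.inr n))) = 0 := by
        rw [← hL2, hg']
        rfl
      simpa using this
  have hsurj : LinearMap.range Lc.toLinearMap = ⊤ := by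
    rw [eq_top_iff]
    rintro ⟨f, g⟩ _
    let σ : ℕ ⊕ ℕ ≃ ℕ := Equiv.ofBijective h hb
    let k : ∀ i : ℕ ⊕ ℕ, G (σ i) := fun i => match i with
      | Sum.inl n => T n (f n)
      | Sum.inr n => T' n (g n)
    let q : ∀ j, G j := Equiv.piCongrLeft G σ k
    have hq : ∀ i, q (h i) = k i := fun i => Equiv.piCongrLeft_apply_apply G σ k i
    have hsum : Summable (fun j => ‖q j‖ ^ p.toReal) := by
      rw [← σ.summable_iff]
      have : (fun j => ‖q j‖ ^ p.toReal) ∘ σ = fun i => ‖k i‖ ^ p.toReal := by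
        funext i
        exact congrArg (fun v => ‖v‖ ^ p.toReal) (hq i)
      rw [this]
      have h1 : Summable ((fun i => ‖k i‖ ^ p.toReal) ∘ Sum.inl) := by
        refine Summable.of_nonneg_of_le (fun _ => Real.rpow_nonneg (norm_nonneg _) _)
          (fun n => hpw _ _ (norm_nonneg _) (norm_nonneg _) (hT n (f n))) ?_
        exact (hsumF f).mul_left (C' ^ p.toReal)
      have h2 : Summable ((fun i => ‖k i‖ ^ p.toReal) ∘ Sum.inr) := by
        refine Summable.of_nonneg_of_le (fun _ => Real.rpow_nonneg (norm_nonneg _) _)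
          (fun n => hpw _ _ (norm_nonneg _) (norm_nonneg _) (hT' n (g n))) ?_
        exact (hsumG g).mul_left (C' ^ p.toReal)
      exact (h1.hasSum.sum h2.hasSum).summable
    refine ⟨⟨q, memℓp_gen hsum⟩, ?_⟩
    show L _ = _
    refine Prod.ext (lp.ext ?_) (lp.ext ?_)
    · funext n
      show (T n).symm (q (h (Sum.inl n))) = f n
      rw [hq]
      show (T n).symm (T n (f n)) = f n
      simp
    · funext n
      show (T' n).symm (q (h (Sum.inr n))) = g n
      rw [hq]
      show (T' n).symm (T' n (g n)) = g n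
      simp
  exact ⟨(ContinuousLinearEquiv.ofBijective Lc hinj hsurj).symm⟩

/-- Matching of blocks. -/
theorem exists_matching (𝕜 : Type*) [RCLike 𝕜]
    {F : ℕ → Type u} [∀ k, NormedAddCommGroup (F k)] [∀ k, NormedSpace 𝕜 (F k)]
    {G : ℕ → Type u} [∀ k, NormedAddCommGroup (G k)] [∀ k, NormedSpace 𝕜 (G k)]
    (C : ℝ) (hC : 1 ≤ C)
    (hF : ∀ n, {j | Iso 𝕜 C (F n) (G j)}.Infinite)
    (hG : ∀ n, {j | Iso 𝕜 C (G n) (G j)}.Infinite) :
    ∃ h : ℕ ⊕ ℕ → ℕ, Function.Bijective h ∧ (∀ n, Iso 𝕜 C (F n) (G (h (Sum.inl n)))) ∧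
      (∀ n, Iso 𝕜 C (G n) (G (h (Sum.inr n)))) := by
  classical
  let e : ℕ ⊕ ℕ ≃ ℕ := Equiv.natSumNatEquivNat
  let Rel : ℕ ⊕ ℕ → ℕ → Prop := fun i j => match i with
    | Sum.inl n => Iso 𝕜 C (F n) (G j)
    | Sum.inr n => Iso 𝕜 C (G n) (G j)
  have hinf : ∀ i : ℕ ⊕ ℕ, {j | Rel i j}.Infinite := by
    rintro (n | n)
    · exact hF n
    · exact hG n
  obtain ⟨f, hf1, hf2⟩ := exists_injective_choice (fun m => {j | Rel (e.symm m) j})
    (fun m => hinf (e.symm m))
  obtain ⟨h, hb, hR⟩ := Function.Embedding.schroeder_bernstein_of_rel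
    (f := fun i => f (e i)) (g := fun j => (Sum.inr j : ℕ ⊕ ℕ))
    (hf1.comp e.injective) Sum.inr_injective Rel
    (fun i => by
      have := hf2 (e i)
      simp only [Equiv.symm_apply_apply] at this
      exact this)
    (fun j => ⟨ContinuousLinearEquiv.refl 𝕜 (G j), fun x => by
        show ‖x‖ ≤ C * ‖x‖
        nlinarith [norm_nonneg x], fun x => by
        show ‖x‖ ≤ C * ‖x‖
        nlinarith [norm_nonneg x]⟩)
  exact ⟨h, hb, fun n => hR (Sum.inl n), fun n => hR (Sum.inr n)⟩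

/-- Absorption for `ℓᵖ`-sums. -/
theorem absorbP [∀ k, CompleteSpace (F k)] [∀ k, CompleteSpace (G k)] (hp : p ≠ ∞)
    (C : ℝ) (hC : 1 ≤ C)
    (hF : ∀ n, {j | Iso 𝕜 C (F n) (G j)}.Infinite)
    (hG : ∀ n, {j | Iso 𝕜 C (G n) (G j)}.Infinite) :
    Nonempty ((lp F p × lp G p) ≃L[𝕜] lp G p) := by
  obtain ⟨h, hb, h1, h2⟩ := exists_matching 𝕜 C hC hF hG
  choose T hT hTs using h1
  choose T' hT' hTs' using h2
  exact absorbP_of_bij hp C h hb T T' hT hTs hT' hTs'

end AbsorbP

end Pool.Agent.Lib.MP_355270_an
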