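import Mathlib
import Pool.Agent.Lib.MP_355270_an.Tail

open Filter Topology
open scoped ENNReal

namespace Pool.Agent.Lib.MP_355270_an

section Average

variable {𝕜 : Type*} [RCLike 𝕜]
variable {Y : Type*} [NormedAddCommGroup Y] [NormedSpace 𝕜 Y]

/-- Pointwise convergence to zero is norm convergence on a finite-dimensional space. -/
theorem tendsto_norm_of_finite {V : Type*} [NormedAddCommGroup V] [NormedSpace 𝕜 V]
    [FiniteDimensional 𝕜 V] (f : ℕ → V →L[𝕜] Y)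
    (h : ∀ v, Tendsto (fun m => f m v) atTop (𝓝 0)) :
    Tendsto (fun m => ‖f m‖) atTop (𝓝 0) := by
  classical
  set b := Module.finBasis 𝕜 V with hb
  set c : Fin (Module.finrank 𝕜 V) → V →L[𝕜] 𝕜 := fun i =>
    LinearMap.toContinuousLinearMap (b.coord i) with hc
  have hlim : Tendsto (fun m => ∑ i, ‖c i‖ * ‖f m (b i)‖) atTop (𝓝 0) := by
    have : Tendsto (fun m => ∑ i, ‖c i‖ * ‖f m (b i)‖) atTop
        (𝓝 (∑ i : Fin (Module.finrank 𝕜 V), ‖c i‖ * ‖(0 : Y)‖)) :=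
      tendsto_finsetSum _ (fun i _ => ((h (b i)).norm).const_mul _)
    simpa using this
  refine squeeze_zero (fun m => norm_nonneg _) (fun m => ?_) hlim
  refine ContinuousLinearMap.opNorm_le_bound _ (Finset.sum_nonneg (fun i _ => by positivity))
    (fun v => ?_)
  have hv : v = ∑ i, c i v • b i := (b.sum_repr v).symm
  calc ‖f m v‖ = ‖∑ i, c i v • f m (b i)‖ := by
        conv_lhs => rw [hv]
        rw [map_sum]
        simp_rw [map_smul]
    _ ≤ ∑ i, ‖c i v • f m (b i)‖ := norm_sum_le _ _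
    _ ≤ ∑ i, (‖c i‖ * ‖f m (b i)‖) * ‖v‖ := by
      refine Finset.sum_le_sum (fun i _ => ?_)
      rw [norm_smul]
      calc ‖c i v‖ * ‖f m (b i)‖ ≤ (‖c i‖ * ‖v‖) * ‖f m (b i)‖ :=
            mul_le_mul_of_nonneg_right ((c i).le_opNorm v) (norm_nonneg _)
        _ = _ := by ring
    _ = _ := by rw [Finset.sum_mul]

variable {G : ℕ → Type*} [∀ k, NormedAddCommGroup (G k)] [∀ k, NormedSpace 𝕜 (G k)]
variable {p : ℝ≥0∞} [Fact (1 ≤ p)]

/-- The tails of a finite-rank operator on an `ℓᵖ`-sum, `1 < p < ∞`, tend to zero. -/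
theorem tail_finite_rank (hp : p ≠ ∞) (hp1 : 1 < p) (b : lp G p →L[𝕜] Y)
    (hb : FiniteDimensional 𝕜 b.toLinearMap.range) {δ : ℝ} (hδ : 0 < δ) :
    ∃ k : ℕ, ∀ l, k ≤ l → ‖b - b.comp (tau 𝕜 p l)‖ ≤ δ := by
  classical
  set W := b.toLinearMap.range with hW
  set w := Module.finBasis 𝕜 W with hw
  set br : lp G p →L[𝕜] W := b.codRestrict W (fun x => ⟨x, rfl⟩) with hbr
  set f : Fin (Module.finrank 𝕜 W) → lp G p →L[𝕜] 𝕜 := fun i =>
    (LinearMap.toContinuousLinearMap (w.coord i)).comp br with hf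
  have hsum : ∀ r, b r = ∑ i, f i r • ((w i : W) : Y) := by
    intro r
    have h1 := w.sum_repr (br r)
    have h2 := congrArg (fun v : W => (v : Y)) h1
    simp only [Submodule.coe_sum, Submodule.coe_smul] at h2
    exact h2.symm
  set S : ℝ := ∑ i, ‖((w i : W) : Y)‖ with hS
  have hS0 : 0 ≤ S := Finset.sum_nonneg (fun i _ => norm_nonneg _)
  have hδ' : 0 < δ / (S + 1) := div_pos hδ (by linarith)
  choose k hk using fun i => tail_functional hp hp1 (f i) hδ'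
  refine ⟨Finset.univ.sup k, fun l hl => ?_⟩
  refine ContinuousLinearMap.opNorm_le_bound _ hδ.le (fun r => ?_)
  have h1 : (b - b.comp (tau 𝕜 p l)) r = b (r - tau 𝕜 p l r) := by
    rw [map_sub]; rfl
  rw [h1, hsum]
  calc ‖∑ i, f i (r - tau 𝕜 p l r) • ((w i : W) : Y)‖
      ≤ ∑ i, ‖f i (r - tau 𝕜 p l r) • ((w i : W) : Y)‖ := norm_sum_le _ _
    _ ≤ ∑ i, (δ / (S + 1) * ‖r‖) * ‖((w i : W) : Y)‖ := by
      refine Finset.sum_le_sum (fun i _ => ?_)
      rw [norm_smul]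
      refine mul_le_mul_of_nonneg_right ?_ (norm_nonneg _)
      exact hk i l ((Finset.le_sup (Finset.mem_univ i)).trans hl) r
    _ = (δ / (S + 1) * S) * ‖r‖ := by
      rw [← Finset.mul_sum]
      ring
    _ ≤ δ * ‖r‖ := by
      refine mul_le_mul_of_nonneg_right ?_ (norm_nonneg _)
      rw [div_mul_eq_mul_div, div_le_iff₀ (by linarith)]
      nlinarith

/-- Averages of a strongly null sequence of finite-rank operators on an `ℓᵖ`-sum of
finite-dimensional spaces, `1 < p < ∞`, are small in norm. -/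
theorem small_average [∀ k, FiniteDimensional 𝕜 (G k)] (hp : p ≠ ∞) (hp1 : 1 < p)
    (b : ℕ → lp G p →L[𝕜] Y) (K : ℝ) (hK : ∀ m, ‖b m‖ ≤ K)
    (hb : ∀ m, FiniteDimensional 𝕜 (b m).toLinearMap.range)
    (hlim : ∀ r, Tendsto (fun m => b m r) atTop (𝓝 0)) (m0 : ℕ) {ε : ℝ} (hε : 0 < ε) :
    ∃ S : Finset ℕ, S.Nonempty ∧ (∀ m ∈ S, m0 ≤ m) ∧ ‖∑ m ∈ S, b m‖ ≤ ε * S.card := by
  classical
  have hK0 : 0 ≤ K := (norm_nonneg _).trans (hK 0)
  -- `b m` restricted to the first `k` blocks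
  have h1 : ∀ k, Tendsto (fun m => ‖(b m).comp (tau 𝕜 p k)‖) atTop (𝓝 0) := by
    intro k
    have e1 : ∀ i, Tendsto (fun m => ‖(b m).comp (lp.singleContinuousLinearMap 𝕜 G p i)‖) atTop
        (𝓝 0) := by
      intro i
      refine tendsto_norm_of_finite _ (fun v => ?_)
      exact hlim (lp.single p i v)
    have e2 : Tendsto (fun m => ∑ i ∈ Finset.range k,
        ‖(b m).comp (lp.singleContinuousLinearMap 𝕜 G p i)‖ * ‖lp.evalCLM 𝕜 G p i‖) atTop
        (𝓝 0) := by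
      have : Tendsto (fun m => ∑ i ∈ Finset.range k,
        ‖(b m).comp (lp.singleContinuousLinearMap 𝕜 G p i)‖ * ‖lp.evalCLM 𝕜 G p i‖) atTop
        (𝓝 (∑ i ∈ Finset.range k, 0 * ‖lp.evalCLM 𝕜 G p i‖)) :=
        tendsto_finsetSum _ (fun i _ => (e1 i).mul_const _)
      simpa using this
    refine squeeze_zero (fun m => norm_nonneg _) (fun m => ?_) e2
    have e3 : (b m).comp (tau 𝕜 p k) = ∑ i ∈ Finset.range k,
        ((b m).comp (lp.singleContinuousLinearMap 𝕜 G p i)).comp (lp.evalCLM 𝕜 G p i) := by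
      refine ContinuousLinearMap.ext (fun r => ?_)
      rw [ContinuousLinearMap.comp_apply, tau_apply, map_sum, _root_.sum_apply]
      rfl
    rw [e3]
    refine (norm_sum_le _ _).trans (Finset.sum_le_sum (fun i _ => ?_))
    exact ContinuousLinearMap.opNorm_comp_le _ _
  -- parameters
  set δ : ℝ := ε / 4 with hδ
  have hδ0 : 0 < δ := by positivity
  obtain ⟨N, hN0, hN⟩ := exists_large hp (K) (ε / 2) (by positivity)
  have hNpos : (0 : ℝ) < N := by exact_mod_cast hN0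
  have step : ∀ s : ℕ × ℕ, ∃ t : ℕ × ℕ, s.1 < t.1 ∧ s.2 ≤ t.2 ∧
      ‖(b t.1).comp (tau 𝕜 p s.2)‖ ≤ δ ∧ ‖b t.1 - (b t.1).comp (tau 𝕜 p t.2)‖ ≤ δ := by
    rintro ⟨m, k⟩
    obtain ⟨m', hm1, hm2⟩ := ((eventually_gt_atTop m).and
      ((h1 k).eventually (ge_mem_nhds hδ0))).exists
    obtain ⟨k', hk'⟩ := tail_finite_rank hp hp1 (b m') (hb m') hδ0
    exact ⟨(m', max k k'), hm1, le_max_left _ _, hm2, hk' _ (le_max_right _ _)⟩
  choose t ht1 ht2 ht3 ht4 using step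
  let s : ℕ → ℕ × ℕ := fun n => Nat.rec (m0, 0) (fun _ s => t s) n
  have hs : ∀ n, s (n + 1) = t (s n) := fun n => rfl
  let μ : ℕ → ℕ := fun i => (s (i + 1)).1
  let κ : ℕ → ℕ := fun i => (s i).2
  have hfst : StrictMono (fun i => (s i).1) :=
    strictMono_nat_of_lt_succ (fun n => by
      show (s n).1 < (s (n + 1)).1
      rw [hs]; exact ht1 _)
  have hμ : StrictMono μ := fun i j hij => hfst (Nat.succ_lt_succ hij)
  have hκ : Monotone κ := monotone_nat_of_le_succ (fun n => by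
      show (s n).2 ≤ (s (n + 1)).2
      rw [hs]; exact ht2 _)
  have hμ0 : ∀ i, m0 ≤ μ i := by
    intro i
    exact hfst.monotone (Nat.zero_le (i + 1))
  have hb1 : ∀ i, ‖(b (μ i)).comp (tau 𝕜 p (κ i))‖ ≤ δ := fun i => by
    show ‖(b (s (i + 1)).1).comp (tau 𝕜 p (s i).2)‖ ≤ δ
    rw [hs]; exact ht3 _
  have hb2 : ∀ i, ‖b (μ i) - (b (μ i)).comp (tau 𝕜 p (κ (i + 1)))‖ ≤ δ := fun i => by
    show ‖b (s (i + 1)).1 - (b (s (i + 1)).1).comp (tau 𝕜 p (s (i + 1)).2)‖ ≤ δ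
    rw [hs]; exact ht4 _
  refine ⟨(Finset.range N).image μ, ?_, ?_, ?_⟩
  · exact (Finset.nonempty_range_iff.mpr hN0.ne').image _
  · intro m hm
    obtain ⟨i, _, rfl⟩ := Finset.mem_image.mp hm
    exact hμ0 i
  · rw [Finset.card_image_of_injective _ hμ.injective, Finset.card_range,
      Finset.sum_image (fun i _ j _ hij => hμ.injective hij)]
    refine ContinuousLinearMap.opNorm_le_bound _ (by positivity) (fun r => ?_)
    have hx : ∀ i, ‖b (μ i) r‖ ≤ 2 * δ * ‖r‖ +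
        K * ‖tau 𝕜 p (κ (i + 1)) r - tau 𝕜 p (κ i) r‖ := by
      intro i
      have e1 : b (μ i) r = (b (μ i)).comp (tau 𝕜 p (κ i)) r +
          b (μ i) (tau 𝕜 p (κ (i + 1)) r - tau 𝕜 p (κ i) r) +
          (b (μ i) - (b (μ i)).comp (tau 𝕜 p (κ (i + 1)))) r := by
        rw [map_sub]
        simp only [ContinuousLinearMap.comp_apply, _root_.sub_apply]
        abel
      rw [e1]
      refine (norm_add₃_le).trans ?_
      have a1 := ((b (μ i)).comp (tau 𝕜 p (κ i))).le_of_opNorm_le (hb1 i) r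
      have a2 := (b (μ i)).le_of_opNorm_le (hK (μ i))
        (tau 𝕜 p (κ (i + 1)) r - tau 𝕜 p (κ i) r)
      have a3 := (b (μ i) - (b (μ i)).comp (tau 𝕜 p (κ (i + 1)))).le_of_opNorm_le (hb2 i) r
      linarith
    have hP := one_lt_toReal hp hp1
    have hPpos := toReal_pos' hp
    -- Hölder
    have hH : ∑ i ∈ Finset.range N, ‖tau 𝕜 p (κ (i + 1)) r - tau 𝕜 p (κ i) r‖ ≤
        (N : ℝ) * (N : ℝ) ^ (-(1 / p.toReal)) * ‖r‖ := by
      have a1 := Real.rpow_sum_le_const_mul_sum_rpow_of_nonneg (s := Finset.range N)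
        (f := fun i => ‖tau 𝕜 p (κ (i + 1)) r - tau 𝕜 p (κ i) r‖) hP.le
        (fun i _ => norm_nonneg _)
      rw [Finset.card_range] at a1
      have a2 := sum_norm_diff_le 𝕜 hp κ hκ N r
      have a3 : (∑ i ∈ Finset.range N, ‖tau 𝕜 p (κ (i + 1)) r - tau 𝕜 p (κ i) r‖) ^ p.toReal ≤
          (N : ℝ) ^ (p.toReal - 1) * ‖r‖ ^ p.toReal :=
        a1.trans (mul_le_mul_of_nonneg_left a2 (by positivity))
      have a4 : (N : ℝ) ^ (p.toReal - 1) * ‖r‖ ^ p.toReal =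
          ((N : ℝ) * (N : ℝ) ^ (-(1 / p.toReal)) * ‖r‖) ^ p.toReal := by
        rw [Real.mul_rpow (by positivity) (norm_nonneg _),
          Real.mul_rpow hNpos.le (by positivity), ← Real.rpow_mul hNpos.le]
        congr 1
        rw [Real.rpow_sub hNpos, Real.rpow_one, neg_mul, one_div, inv_mul_cancel₀ hPpos.ne',
          Real.rpow_neg_one, div_eq_mul_inv]
      rw [a4] at a3
      exact (Real.rpow_le_rpow_iff (Finset.sum_nonneg (fun i _ => norm_nonneg _))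
        (by positivity) hPpos).mp a3
    rw [_root_.sum_apply]
    calc ‖∑ i ∈ Finset.range N, b (μ i) r‖ ≤ ∑ i ∈ Finset.range N, ‖b (μ i) r‖ :=
          norm_sum_le _ _
      _ ≤ ∑ i ∈ Finset.range N, (2 * δ * ‖r‖ +
        K * ‖tau 𝕜 p (κ (i + 1)) r - tau 𝕜 p (κ i) r‖) := Finset.sum_le_sum (fun i _ => hx i)
      _ = (N : ℝ) * (2 * δ * ‖r‖) +
        K * ∑ i ∈ Finset.range N, ‖tau 𝕜 p (κ (i + 1)) r - tau 𝕜 p (κ i) r‖ := by
        rw [Finset.sum_add_distrib, Finset.sum_const, Finset.card_range, nsmul_eq_mul,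
          Finset.mul_sum]
      _ ≤ (N : ℝ) * (2 * δ * ‖r‖) + K * ((N : ℝ) * (N : ℝ) ^ (-(1 / p.toReal)) * ‖r‖) := by
        have := mul_le_mul_of_nonneg_left hH hK0
        linarith
      _ = (N : ℝ) * ‖r‖ * (ε / 2 + K * (N : ℝ) ^ (-(1 / p.toReal))) := by
        rw [hδ]; ring
      _ ≤ (N : ℝ) * ‖r‖ * (ε / 2 + ε / 2) := by
        refine mul_le_mul_of_nonneg_left ?_ (by positivity)
        linarith
      _ = ε * N * ‖r‖ := by ring

end Average

end Pool.Agent.Lib.MP_355270_an
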