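import Mathlib

open Filter Topology

namespace Pool.Agent.Lib.MP_355270_an

section StepA

variable {𝕜 : Type*} [RCLike 𝕜]
variable {E : Type*} [NormedAddCommGroup E] [NormedSpace 𝕜 E]

/-- Perturb an approximating operator so that it fixes a given finite-dimensional subspace. -/
theorem perturb (u : ℕ → E →L[𝕜] E) (hfin : ∀ n, FiniteDimensional 𝕜 (u n).toLinearMap.range)
    (ht : ∀ x, Tendsto (fun n => u n x) atTop (𝓝 x)) (V : Submodule 𝕜 E)
    [FiniteDimensional 𝕜 V] (m : ℕ) {δ : ℝ} (hδ : 0 < δ) :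
    ∃ w : E →L[𝕜] E, FiniteDimensional 𝕜 w.toLinearMap.range ∧ (∀ y ∈ V, w y = y) ∧
      ∃ N, m ≤ N ∧ ‖w - u N‖ ≤ δ := by
  classical
  obtain ⟨π, hπ⟩ := Submodule.ClosedComplemented.of_finiteDimensional V (𝕜 := 𝕜)
  set b := Module.finBasis 𝕜 V with hb
  -- the coordinates
  set c : ∀ _ : Fin (Module.finrank 𝕜 V), E →L[𝕜] 𝕜 := fun i =>
    (LinearMap.toContinuousLinearMap (b.coord i)).comp π with hc
  have hπsum : ∀ x, ((π x : V) : E) = ∑ i, c i x • ((b i : V) : E) := by
    intro x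
    have := b.sum_repr (π x)
    have h2 := congrArg (fun v : V => (v : E)) this
    simp only [Submodule.coe_sum, Submodule.coe_smul] at h2
    rw [← h2]
    rfl
  have hlim : Tendsto (fun N => ∑ i, ‖c i‖ * ‖((b i : V) : E) - u N (b i)‖) atTop (𝓝 0) := by
    have : Tendsto (fun N => ∑ i, ‖c i‖ * ‖((b i : V) : E) - u N (b i)‖) atTop
        (𝓝 (∑ i : Fin (Module.finrank 𝕜 V), ‖c i‖ * ‖((b i : V) : E) - (b i : V)‖)) := by
      refine tendsto_finsetSum _ (fun i _ => ?_)
      exact ((tendsto_const_nhds.sub (ht _)).norm).const_mul _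
    simpa using this
  obtain ⟨N, hNm, hN⟩ := ((eventually_ge_atTop m).and (hlim.eventually (gt_mem_nhds hδ))).exists
  set W : E →L[𝕜] E := V.subtypeL.comp π with hW
  have hWapp : ∀ x, W x = ((π x : V) : E) := fun x => rfl
  refine ⟨u N + (W - (u N).comp W), ?_, ?_, N, hNm, ?_⟩
  · have := hfin N
    have hle : (u N + (W - (u N).comp W)).toLinearMap.range ≤ (u N).toLinearMap.range ⊔ V := by
      rintro _ ⟨x, rfl⟩
      show u N x + (W x - u N (W x)) ∈ _
      refine Submodule.add_mem _ (Submodule.mem_sup_left ⟨x, rfl⟩) ?_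
      exact Submodule.sub_mem _ (Submodule.mem_sup_right (π x).2)
        (Submodule.mem_sup_left ⟨W x, rfl⟩)
    exact Submodule.finiteDimensional_of_le hle
  · intro y hy
    show u N y + (W y - u N (W y)) = y
    have : W y = y := by
      rw [hWapp, hπ ⟨y, hy⟩]
    rw [this]
    abel
  · rw [add_sub_cancel_left]
    refine ContinuousLinearMap.opNorm_le_bound _ hδ.le (fun x => ?_)
    show ‖W x - u N (W x)‖ ≤ δ * ‖x‖
    have : W x - u N (W x) = ∑ i, c i x • (((b i : V) : E) - u N (b i)) := by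
      rw [hWapp, hπsum, map_sum, ← Finset.sum_sub_distrib]
      refine Finset.sum_congr rfl (fun i _ => ?_)
      rw [map_smul, smul_sub]
    rw [this]
    calc ‖∑ i, c i x • (((b i : V) : E) - u N (b i))‖
        ≤ ∑ i, ‖c i x • (((b i : V) : E) - u N (b i))‖ := norm_sum_le _ _
      _ ≤ ∑ i, (‖c i‖ * ‖((b i : V) : E) - u N (b i)‖) * ‖x‖ := by
        refine Finset.sum_le_sum (fun i _ => ?_)
        rw [norm_smul]
        calc ‖c i x‖ * ‖((b i : V) : E) - u N (b i)‖
            ≤ (‖c i‖ * ‖x‖) * ‖((b i : V) : E) - u N (b i)‖ :=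
              mul_le_mul_of_nonneg_right ((c i).le_opNorm x) (norm_nonneg _)
          _ = _ := by ring
      _ = (∑ i, ‖c i‖ * ‖((b i : V) : E) - u N (b i)‖) * ‖x‖ := by rw [Finset.sum_mul]
      _ ≤ δ * ‖x‖ := mul_le_mul_of_nonneg_right hN.le (norm_nonneg _)

/-- Normalisation of an approximative basis. -/
theorem normalize [CompleteSpace E] (u : ℕ → E →L[𝕜] E)
    (hfin : ∀ n, FiniteDimensional 𝕜 (u n).toLinearMap.range)
    (ht : ∀ x, Tendsto (fun n => u n x) atTop (𝓝 x)) :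
    ∃ (V : ℕ → Submodule 𝕜 E) (w : ℕ → E →L[𝕜] E) (K : ℝ),
      (∀ n, FiniteDimensional 𝕜 (V n)) ∧ Monotone V ∧ (∀ n x, w n x ∈ V n) ∧
      (∀ n, ∀ y ∈ V n, w (n + 1) y = y) ∧ (∀ n, ‖w n‖ ≤ K) ∧
      (∀ x, Tendsto (fun n => w n x) atTop (𝓝 x)) := by
  classical
  obtain ⟨K, hK⟩ : ∃ K : ℝ, ∀ n, ‖u n‖ ≤ K := by
    apply banach_steinhaus
    intro x
    obtain ⟨M, hM⟩ := isBounded_iff_forall_norm_le.mp
      (Metric.isBounded_range_of_tendsto (fun n => u n x) (ht x))
    exact ⟨M, Set.forall_mem_range.mp hM⟩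
  have key : ∀ (V : {V : Submodule 𝕜 E // FiniteDimensional 𝕜 V}) (m : ℕ),
      ∃ w : E →L[𝕜] E, FiniteDimensional 𝕜 w.toLinearMap.range ∧ (∀ y ∈ V.1, w y = y) ∧
        ∃ N, m ≤ N ∧ ‖w - u N‖ ≤ 1 / ((m : ℝ) + 1) := by
    intro V m
    have := V.2
    exact perturb u hfin ht V.1 m (by positivity)
  choose W hW1 hW2 hW3 using key
  choose N hN1 hN2 using hW3
  let seq : ℕ → {V : Submodule 𝕜 E // FiniteDimensional 𝕜 V} := fun n =>
    Nat.rec ⟨(u 0).toLinearMap.range, hfin 0⟩ (fun m V =>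
      ⟨V.1 ⊔ (W V m).toLinearMap.range, by
        have := V.2
        have := hW1 V m
        infer_instance⟩) n
  have hseq : ∀ n, (seq (n + 1)).1 = (seq n).1 ⊔ (W (seq n) n).toLinearMap.range := fun n => rfl
  let w : ℕ → E →L[𝕜] E := fun n => match n with
    | 0 => u 0
    | m + 1 => W (seq m) m
  have hw : ∀ n, w (n + 1) = W (seq n) n := fun n => rfl
  refine ⟨fun n => (seq n).1, w, K + 1, fun n => (seq n).2, ?_, ?_, ?_, ?_, ?_⟩
  · refine monotone_nat_of_le_succ (fun n => ?_)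
    show (seq n).1 ≤ (seq (n + 1)).1
    rw [hseq]
    exact le_sup_left
  · intro n x
    cases n with
    | zero => exact ⟨x, rfl⟩
    | succ n =>
      show w (n + 1) x ∈ (seq (n + 1)).1
      rw [hw, hseq]
      exact Submodule.mem_sup_right ⟨x, rfl⟩
  · intro n y hy
    rw [hw]
    exact hW2 (seq n) n y hy
  · intro n
    cases n with
    | zero =>
      show ‖u 0‖ ≤ K + 1
      have := hK 0
      linarith
    | succ n =>
      rw [hw]
      have h1 := hN2 (seq n) n
      have h2 : (1 : ℝ) / ((n : ℝ) + 1) ≤ 1 := by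
        rw [div_le_one (by positivity)]
        have : (0 : ℝ) ≤ n := Nat.cast_nonneg n
        linarith
      have h3 := hK (N (seq n) n)
      calc ‖W (seq n) n‖ = ‖u (N (seq n) n) + (W (seq n) n - u (N (seq n) n))‖ := by
            congr 1; abel
        _ ≤ _ := norm_add_le _ _
        _ ≤ K + 1 := by linarith
  · intro x
    rw [← tendsto_add_atTop_iff_nat 1]
    have h1 : Tendsto (fun n => N (seq n) n) atTop atTop :=
      tendsto_atTop_mono (fun n => hN1 (seq n) n) tendsto_id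
    have h2 : Tendsto (fun n => u (N (seq n) n) x) atTop (𝓝 x) := (ht x).comp h1
    have h3 : Tendsto (fun n => w (n + 1) x - u (N (seq n) n) x) atTop (𝓝 0) := by
      have h4 : Tendsto (fun n : ℕ => 1 / ((n : ℝ) + 1) * ‖x‖) atTop (𝓝 0) := by
        have := tendsto_one_div_add_atTop_nhds_zero_nat (𝕜 := ℝ)
        simpa using this.mul_const ‖x‖
      refine squeeze_zero_norm (fun n => ?_) h4
      have h5 := hN2 (seq n) n
      rw [hw]
      calc ‖W (seq n) n x - u (N (seq n) n) x‖ = ‖(W (seq n) n - u (N (seq n) n)) x‖ := rfl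
        _ ≤ _ := ContinuousLinearMap.le_of_opNorm_le _ h5 x
    have := h3.add h2
    simpa using this

end StepA

end Pool.Agent.Lib.MP_355270_an
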