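import Mathlib
import Pool.Agent.Lib.MP_355270_an.Lift

open Filter Topology
open scoped ENNReal

namespace Pool.Agent.Lib.MP_355270_an

section Trunc

variable (𝕜 : Type*) [RCLike 𝕜]
variable (F : ℕ → Type*) [∀ k, NormedAddCommGroup (F k)] [∀ k, NormedSpace 𝕜 (F k)]

/-- The inclusion of the `k`-th block. -/
noncomputable abbrev sg (k : ℕ) : F k →L[𝕜] lp F 1 := lp.singleContinuousLinearMap 𝕜 F 1 k

/-- The projection to the `k`-th block. -/
noncomputable abbrev ev (k : ℕ) : lp F 1 →L[𝕜] F k := lp.evalCLM 𝕜 F 1 k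

variable {F}

theorem sg_apply (k : ℕ) (a : F k) : sg 𝕜 F k a = lp.single 1 k a := rfl

theorem ev_apply (k : ℕ) (t : lp F 1) : ev 𝕜 F k t = t k := rfl

theorem norm_sg_le (k : ℕ) (a : F k) : ‖sg 𝕜 F k a‖ ≤ ‖a‖ := by
  rw [sg_apply, lp.norm_single (by norm_num)]

theorem norm_ev_le (k : ℕ) (t : lp F 1) : ‖ev 𝕜 F k t‖ ≤ ‖t‖ :=
  lp.norm_apply_le_norm (by norm_num) t k

variable (F)

variable [∀ k, CompleteSpace (F k)]

theorem trunc_bound (n k : ℕ) : ‖(if k < n then sg 𝕜 F k else 0 : F k →L[𝕜] lp F 1)‖ ≤ 1 := by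
  split_ifs
  · exact ContinuousLinearMap.opNorm_le_bound _ (by norm_num) (fun a => by
      rw [one_mul]; exact norm_sg_le 𝕜 k a)
  · simp

/-- Truncation of an `ℓ¹`-sum to its first `n` blocks. -/
noncomputable def trunc (n : ℕ) : lp F 1 →L[𝕜] lp F 1 :=
  lift (fun k => if k < n then sg 𝕜 F k else 0) 1 (trunc_bound 𝕜 F n)

variable {F}

theorem trunc_single (n k : ℕ) (a : F k) :
    trunc 𝕜 F n (lp.single 1 k a) = if k < n then lp.single 1 k a else 0 := by
  unfold trunc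
  rw [lift_single]
  split_ifs <;> simp [sg_apply]

theorem norm_trunc_le (n : ℕ) (t : lp F 1) : ‖trunc 𝕜 F n t‖ ≤ ‖t‖ := by
  have := norm_lift_le (fun k => if k < n then sg 𝕜 F k else 0) 1 (trunc_bound 𝕜 F n) t
  rw [one_mul] at this
  exact this

theorem trunc_eq_sum (n : ℕ) (t : lp F 1) :
    trunc 𝕜 F n t = ∑ k ∈ Finset.range n, lp.single 1 k (t k) := by
  unfold trunc
  rw [lift_apply, tsum_eq_sum (s := Finset.range n)]
  · refine Finset.sum_congr rfl (fun k hk => ?_)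
    rw [if_pos (Finset.mem_range.mp hk)]
    rfl
  · intro k hk
    rw [if_neg (by simpa using hk)]
    simp

theorem tendsto_trunc (t : lp F 1) : Tendsto (fun n => trunc 𝕜 F n t) atTop (𝓝 t) := by
  simp_rw [trunc_eq_sum]
  exact tendsto_sum_single t

theorem trunc_zero : trunc 𝕜 F 0 = 0 := by
  refine ContinuousLinearMap.ext (fun t => ?_)
  rw [trunc_eq_sum]
  simp

theorem trunc_comp (n m : ℕ) (t : lp F 1) :
    trunc 𝕜 F n (trunc 𝕜 F m t) = trunc 𝕜 F (min n m) t := by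
  have : (trunc 𝕜 F n).comp (trunc 𝕜 F m) = trunc 𝕜 F (min n m) := by
    refine ext_single (fun k a => ?_)
    rw [ContinuousLinearMap.comp_apply, trunc_single, trunc_single]
    by_cases h1 : k < m
    · rw [if_pos h1, trunc_single]
      by_cases h2 : k < n
      · rw [if_pos h2, if_pos (lt_min h2 h1)]
      · rw [if_neg h2, if_neg (fun h => h2 (lt_min_iff.mp h).1)]
    · rw [if_neg h1, if_neg (fun h => h1 (lt_min_iff.mp h).2), map_zero]
  exact congrArg (fun f => f t) this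

theorem ev_trunc (n : ℕ) (t : lp F 1) : ev 𝕜 F n (trunc 𝕜 F n t) = 0 := by
  have : (ev 𝕜 F n).comp (trunc 𝕜 F n) = 0 := by
    refine ext_single (fun k a => ?_)
    rw [ContinuousLinearMap.comp_apply, trunc_single]
    split_ifs with h
    · rw [ev_apply, lp.single_apply_ne _ _ _ (by omega)]
      simp
    · simp
  exact congrArg (fun f => f t) this

theorem trunc_sg (n : ℕ) (a : F n) : trunc 𝕜 F n (sg 𝕜 F n a) = 0 := by
  rw [sg_apply, trunc_single, if_neg (lt_irrefl _)]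

theorem ev_sg (n : ℕ) (a : F n) : ev 𝕜 F n (sg 𝕜 F n a) = a := by
  rw [sg_apply, ev_apply, lp.single_apply_self]

theorem trunc_succ (n : ℕ) (t : lp F 1) :
    trunc 𝕜 F (n + 1) t = trunc 𝕜 F n t + sg 𝕜 F n (ev 𝕜 F n t) := by
  rw [trunc_eq_sum, trunc_eq_sum, Finset.sum_range_succ]
  rfl

theorem trunc_finite [∀ k, FiniteDimensional 𝕜 (F k)] (n : ℕ) :
    FiniteDimensional 𝕜 (trunc 𝕜 F n).toLinearMap.range := by
  induction n with
  | zero =>
    rw [trunc_zero]
    have : (0 : lp F 1 →L[𝕜] lp F 1).toLinearMap.range = ⊥ := by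
      ext x; simp
    rw [this]
    infer_instance
  | succ n ih =>
    have hle : (trunc 𝕜 F (n + 1)).toLinearMap.range ≤
        (trunc 𝕜 F n).toLinearMap.range ⊔ (sg 𝕜 F n).toLinearMap.range := by
      rintro _ ⟨x, rfl⟩
      show trunc 𝕜 F (n + 1) x ∈ _
      rw [trunc_succ]
      exact Submodule.add_mem_sup ⟨x, rfl⟩ ⟨ev 𝕜 F n x, rfl⟩
    exact Submodule.finiteDimensional_of_le hle

end Trunc

end Pool.Agent.Lib.MP_355270_an
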