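import Mathlib
import Pool.Agent.Lib.MP_355270_an.Trunc
import Pool.Agent.Lib.MP_355270_an.StepA

open Filter Topology
open scoped ENNReal

namespace Pool.Agent.Lib.MP_355270_an

universe u

section StepB

variable {𝕜 : Type*} [RCLike 𝕜]
variable {E : Type u} [NormedAddCommGroup E] [NormedSpace 𝕜 E]

/-- The blocks. -/
abbrev Blk (V : ℕ → Submodule 𝕜 E) (k : ℕ) : Type u := ∀ j : Fin (k + 1), V j

variable (V : ℕ → Submodule 𝕜 E)

/-- The coordinate `n` of block `k` (zero if `k < n`). -/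
noncomputable def cf (n k : ℕ) : Blk V k →L[𝕜] V n :=
  if h : n < k + 1 then ContinuousLinearMap.proj (R := 𝕜) (φ := fun j : Fin (k + 1) => V j) ⟨n, h⟩
  else 0

theorem cf_apply (n k : ℕ) (h : n < k + 1) (t : Blk V k) : cf V n k t = t ⟨n, h⟩ := by
  unfold cf
  rw [dif_pos h]
  rfl

theorem cf_zero (n k : ℕ) (h : ¬ n < k + 1) (t : Blk V k) : cf V n k t = 0 := by
  unfold cf
  rw [dif_neg h]
  rfl

theorem norm_cf_le (n k : ℕ) (t : Blk V k) : ‖cf V n k t‖ ≤ ‖t‖ := by
  by_cases h : n < k + 1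
  · rw [cf_apply V n k h]
    exact norm_le_pi_norm t _
  · rw [cf_zero V n k h]
    simp

/-- Restriction of block `k` to block `n` (zero if `k < n`). -/
noncomputable def rf (n k : ℕ) : Blk V k →L[𝕜] Blk V n :=
  if n ≤ k then ContinuousLinearMap.pi (fun j : Fin (n + 1) => cf V j k) else 0

theorem rf_apply (n k : ℕ) (h : n ≤ k) (t : Blk V k) (j : Fin (n + 1)) :
    rf V n k t j = cf V j k t := by
  unfold rf
  rw [if_pos h]
  rfl

theorem rf_zero (n k : ℕ) (h : ¬ n ≤ k) (t : Blk V k) : rf V n k t = 0 := by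
  unfold rf
  rw [if_neg h]
  rfl

theorem norm_rf_le (n k : ℕ) (t : Blk V k) : ‖rf V n k t‖ ≤ ‖t‖ := by
  by_cases h : n ≤ k
  · refine (pi_norm_le_iff_of_nonneg (norm_nonneg t)).mpr (fun j => ?_)
    rw [rf_apply V n k h]
    exact norm_cf_le V j k t
  · rw [rf_zero V n k h]
    simp

variable [∀ k, FiniteDimensional 𝕜 (V k)]

instance instCompleteV (k : ℕ) : CompleteSpace (V k) := FiniteDimensional.complete 𝕜 (V k)

theorem cf_bound (n k : ℕ) : ‖cf V n k‖ ≤ 1 :=
  ContinuousLinearMap.opNorm_le_bound _ (by norm_num) (fun t => by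
    rw [one_mul]; exact norm_cf_le V n k t)

theorem rf_bound (n k : ℕ) : ‖rf V n k‖ ≤ 1 :=
  ContinuousLinearMap.opNorm_le_bound _ (by norm_num) (fun t => by
    rw [one_mul]; exact norm_rf_le V n k t)

/-- The sum of the `n`-th coordinates. -/
noncomputable def aa (n : ℕ) : lp (Blk V) 1 →L[𝕜] V n := lift (fun k => cf V n k) 1 (cf_bound V n)

/-- The sum of the restrictions to block `n`. -/
noncomputable def rr (n : ℕ) : lp (Blk V) 1 →L[𝕜] Blk V n :=
  lift (fun k => rf V n k) 1 (rf_bound V n)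

theorem aa_single (n k : ℕ) (t : Blk V k) : aa V n (lp.single 1 k t) = cf V n k t := by
  unfold aa
  rw [lift_single]

theorem rr_single (n k : ℕ) (t : Blk V k) : rr V n (lp.single 1 k t) = rf V n k t := by
  unfold rr
  rw [lift_single]

theorem norm_aa_le (n : ℕ) (t : lp (Blk V) 1) : ‖aa V n t‖ ≤ ‖t‖ := by
  have := norm_lift_le (fun k => cf V n k) 1 (cf_bound V n) t
  rwa [one_mul] at this

theorem norm_rr_le (n : ℕ) (t : lp (Blk V) 1) : ‖rr V n t‖ ≤ ‖t‖ := by
  have := norm_lift_le (fun k => rf V n k) 1 (rf_bound V n) t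
  rwa [one_mul] at this

/-- `aa m t = aa m (trunc n t) + (rr n t) m` for `m ≤ n`. -/
theorem aa_decomp (m n : ℕ) (h : m ≤ n) (t : lp (Blk V) 1) :
    aa V m t = aa V m (trunc 𝕜 (Blk V) n t) + cf V m n (rr V n t) := by
  have : aa V m = (aa V m).comp (trunc 𝕜 (Blk V) n) + (cf V m n).comp (rr V n) := by
    refine ext_single (fun k a => ?_)
    rw [_root_.add_apply, ContinuousLinearMap.comp_apply, ContinuousLinearMap.comp_apply,
      trunc_single, rr_single, aa_single]
    by_cases hk : k < n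
    · rw [if_pos hk, aa_single, rf_zero V n k (by omega), map_zero, add_zero]
    · rw [if_neg hk, map_zero, zero_add, cf_apply V m n (by omega), rf_apply V n k (by omega)]
  exact congrArg (fun f => f t) this

/-- `rr m t = rr m (trunc n t) + rf m n (rr n t)` for `m ≤ n`. -/
theorem rr_decomp (m n : ℕ) (h : m ≤ n) (t : lp (Blk V) 1) :
    rr V m t = rr V m (trunc 𝕜 (Blk V) n t) + rf V m n (rr V n t) := by
  have : rr V m = (rr V m).comp (trunc 𝕜 (Blk V) n) + (rf V m n).comp (rr V n) := by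
    refine ext_single (fun k a => ?_)
    rw [_root_.add_apply, ContinuousLinearMap.comp_apply, ContinuousLinearMap.comp_apply,
      trunc_single, rr_single, rr_single]
    by_cases hk : k < n
    · rw [if_pos hk, rr_single, rf_zero V n k (by omega), map_zero, add_zero]
    · rw [if_neg hk, map_zero, zero_add]
      funext j
      rw [rf_apply V m k (by omega), rf_apply V m n h, cf_apply V j n (by omega),
        rf_apply V n k (by omega)]
  exact congrArg (fun f => f t) this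

theorem aa_trunc_zero (m n : ℕ) (h : m ≤ n) (t : lp (Blk V) 1) :
    aa V n (trunc 𝕜 (Blk V) m t) = 0 := by
  have : (aa V n).comp (trunc 𝕜 (Blk V) m) = 0 := by
    refine ext_single (fun k a => ?_)
    rw [ContinuousLinearMap.comp_apply, trunc_single]
    by_cases hk : k < m
    · rw [if_pos hk, aa_single, cf_zero V n k (by omega)]
      simp
    · rw [if_neg hk, map_zero]
      simp
  exact congrArg (fun f => f t) this

theorem rr_trunc_zero (m n : ℕ) (h : m ≤ n) (t : lp (Blk V) 1) :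
    rr V n (trunc 𝕜 (Blk V) m t) = 0 := by
  have : (rr V n).comp (trunc 𝕜 (Blk V) m) = 0 := by
    refine ext_single (fun k a => ?_)
    rw [ContinuousLinearMap.comp_apply, trunc_single]
    by_cases hk : k < m
    · rw [if_pos hk, rr_single, rf_zero V n k (by omega)]
      simp
    · rw [if_neg hk, map_zero]
      simp
  exact congrArg (fun f => f t) this

/-- The operators `x ↦ (w j x)_{j ≤ n}`. -/
noncomputable def bb (w : ℕ → E →L[𝕜] E) (hw : ∀ n x, w n x ∈ V n) (n : ℕ) : E →L[𝕜] Blk V n :=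
  ContinuousLinearMap.pi (fun j : Fin (n + 1) => (w j).codRestrict (V j) (hw j))

/-- The projections of the decomposition. -/
noncomputable def pp (w : ℕ → E →L[𝕜] E) (hw : ∀ n x, w n x ∈ V n) (n : ℕ) :
    E × lp (Blk V) 1 →L[𝕜] E × lp (Blk V) 1 :=
  let y : E × lp (Blk V) 1 →L[𝕜] E :=
    (w n).comp (ContinuousLinearMap.fst 𝕜 E (lp (Blk V) 1)) +
      ((V n).subtypeL.comp (aa V n)).comp (ContinuousLinearMap.snd 𝕜 E (lp (Blk V) 1))
  y.prod ((trunc 𝕜 (Blk V) n).comp (ContinuousLinearMap.snd 𝕜 E (lp (Blk V) 1)) +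
    (sg 𝕜 (Blk V) n).comp ((rr V n).comp (ContinuousLinearMap.snd 𝕜 E (lp (Blk V) 1)) +
      (bb V w hw n).comp (ContinuousLinearMap.fst 𝕜 E (lp (Blk V) 1) - y)))

variable (w : ℕ → E →L[𝕜] E) (hw : ∀ n x, w n x ∈ V n)

theorem pp_fst (n : ℕ) (z : E × lp (Blk V) 1) :
    (pp V w hw n z).1 = w n z.1 + (aa V n z.2 : V n) := rfl

theorem pp_snd (n : ℕ) (z : E × lp (Blk V) 1) :
    (pp V w hw n z).2 = trunc 𝕜 (Blk V) n z.2 +
      sg 𝕜 (Blk V) n (rr V n z.2 + bb V w hw n (z.1 - (pp V w hw n z).1)) := rfl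

theorem bb_apply (n : ℕ) (x : E) (j : Fin (n + 1)) : ((bb V w hw n x j : V j) : E) = w j x := rfl

theorem cf_bb (m n : ℕ) (h : m ≤ n) (x : E) : ((cf V m n (bb V w hw n x) : V m) : E) = w m x := by
  rw [cf_apply V m n (by omega)]
  rfl

theorem rf_bb (m n : ℕ) (h : m ≤ n) (x : E) : rf V m n (bb V w hw n x) = bb V w hw m x := by
  funext j
  rw [rf_apply V m n h]
  apply Subtype.ext
  rw [cf_bb V w hw j n (by omega)]
  rfl

theorem aa_sg (m n : ℕ) (a : Blk V n) : aa V m (sg 𝕜 (Blk V) n a) = cf V m n a :=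
  aa_single V m n a

theorem rr_sg (m n : ℕ) (a : Blk V n) : rr V m (sg 𝕜 (Blk V) n a) = rf V m n a :=
  rr_single V m n a

theorem trunc_sg' (m n : ℕ) (a : Blk V n) :
    trunc 𝕜 (Blk V) m (sg 𝕜 (Blk V) n a) = if n < m then sg 𝕜 (Blk V) n a else 0 :=
  trunc_single 𝕜 m n a

/-- `P_m P_n = P_m` for `m ≤ n`. -/
theorem pp_comp_le (m n : ℕ) (h : m ≤ n) (z : E × lp (Blk V) 1) :
    pp V w hw m (pp V w hw n z) = pp V w hw m z := by
  have h1 : (pp V w hw m (pp V w hw n z)).1 = (pp V w hw m z).1 := by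
    rw [pp_fst V w hw m (pp V w hw n z), pp_snd, map_add, aa_sg, map_add, pp_fst V w hw m z,
      aa_decomp V m n h z.2]
    rw [Submodule.coe_add, Submodule.coe_add, cf_bb V w hw m n h, Submodule.coe_add, map_sub]
    abel
  refine Prod.ext h1 ?_
  rw [pp_snd V w hw m (pp V w hw n z), h1, pp_snd V w hw m z, pp_snd V w hw n z]
  rw [map_add (trunc 𝕜 (Blk V) m), trunc_comp, min_eq_left h, trunc_sg', if_neg (by omega), add_zero]
  congr 2
  rw [map_add (rr V m), rr_sg, map_add (rf V m n), rf_bb V w hw m n h, rr_decomp V m n h z.2,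
    map_sub, map_sub, map_sub]
  abel

/-- `P_n P_m = P_m` for `m < n`. -/
theorem pp_comp_lt (hmono : Monotone V) (hfix : ∀ n, ∀ y ∈ V n, w (n + 1) y = y)
    (m n : ℕ) (h : m < n) (z : E × lp (Blk V) 1) :
    pp V w hw n (pp V w hw m z) = pp V w hw m z := by
  have hmem : (pp V w hw m z).1 ∈ V m := by
    rw [pp_fst]
    exact Submodule.add_mem _ (hw m _) (aa V m z.2).2
  have hfix' : w n (pp V w hw m z).1 = (pp V w hw m z).1 := by
    obtain ⟨l, rfl⟩ : ∃ l, n = l + 1 := ⟨n - 1, by omega⟩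
    exact hfix l _ (hmono (by omega : m ≤ l) hmem)
  have haa : aa V n (pp V w hw m z).2 = 0 := by
    rw [pp_snd, map_add, aa_trunc_zero V m n h.le, aa_sg, cf_zero V n m (by omega), add_zero]
  have hrr : rr V n (pp V w hw m z).2 = 0 := by
    rw [pp_snd, map_add, rr_trunc_zero V m n h.le, rr_sg, rf_zero V n m (by omega), add_zero]
  have h1 : (pp V w hw n (pp V w hw m z)).1 = (pp V w hw m z).1 := by
    rw [pp_fst V w hw n (pp V w hw m z), haa, hfix']
    simp
  refine Prod.ext h1 ?_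
  rw [pp_snd V w hw n (pp V w hw m z), h1, hrr, sub_self, map_zero, add_zero, map_zero, add_zero]
  rw [pp_snd V w hw m z, map_add, trunc_comp, min_eq_right h.le, trunc_sg', if_pos h]

theorem pp_comp (hmono : Monotone V) (hfix : ∀ n, ∀ y ∈ V n, w (n + 1) y = y)
    (n m : ℕ) (z : E × lp (Blk V) 1) :
    pp V w hw n (pp V w hw m z) = pp V w hw (min n m) z := by
  rcases Nat.lt_or_ge m n with h | h
  · rw [min_eq_right h.le, pp_comp_lt V w hw hmono hfix m n h]
  · rw [min_eq_left h, pp_comp_le V w hw n m h]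

theorem pp_finite (n : ℕ) : FiniteDimensional 𝕜 (pp V w hw n).toLinearMap.range := by
  have h1 : FiniteDimensional 𝕜 (trunc 𝕜 (Blk V) n).toLinearMap.range :=
    trunc_finite (F := Blk V) 𝕜 n
  have hle : (pp V w hw n).toLinearMap.range ≤
      (V n).map (LinearMap.inl 𝕜 E (lp (Blk V) 1)) ⊔
      ((trunc 𝕜 (Blk V) n).toLinearMap.range ⊔ (sg 𝕜 (Blk V) n).toLinearMap.range).map
        (LinearMap.inr 𝕜 E (lp (Blk V) 1)) := by
    rintro _ ⟨z, rfl⟩
    have hz : (pp V w hw n).toLinearMap z =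
        LinearMap.inl 𝕜 E (lp (Blk V) 1) (pp V w hw n z).1 +
        LinearMap.inr 𝕜 E (lp (Blk V) 1) (pp V w hw n z).2 := by
      refine Prod.ext ?_ ?_ <;> simp
    rw [hz]
    refine Submodule.add_mem_sup (Submodule.mem_map_of_mem ?_) (Submodule.mem_map_of_mem ?_)
    · rw [pp_fst]
      exact Submodule.add_mem _ (hw n _) (aa V n z.2).2
    · rw [pp_snd]
      exact Submodule.add_mem_sup ⟨_, rfl⟩ ⟨_, rfl⟩
  exact Submodule.finiteDimensional_of_le hle

theorem pp_tendsto {K : ℝ} (hK : ∀ n, ‖w n‖ ≤ K)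
    (ht : ∀ x, Tendsto (fun n => w n x) atTop (𝓝 x)) (z : E × lp (Blk V) 1) :
    Tendsto (fun n => pp V w hw n z) atTop (𝓝 z) := by
  have hK0 : 0 ≤ K := (norm_nonneg _).trans (hK 0)
  have htr : Tendsto (fun n => trunc 𝕜 (Blk V) n z.2) atTop (𝓝 z.2) := tendsto_trunc 𝕜 z.2
  have hdiff : Tendsto (fun n => ‖z.2 - trunc 𝕜 (Blk V) n z.2‖) atTop (𝓝 0) := by
    have : Tendsto (fun n => z.2 - trunc 𝕜 (Blk V) n z.2) atTop (𝓝 (z.2 - z.2)) :=
      tendsto_const_nhds.sub htr
    rw [sub_self] at this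
    simpa using this.norm
  have haa : Tendsto (fun n => ((aa V n z.2 : V n) : E)) atTop (𝓝 0) := by
    refine squeeze_zero_norm (fun n => ?_) hdiff
    have : aa V n z.2 = aa V n (z.2 - trunc 𝕜 (Blk V) n z.2) := by
      rw [map_sub, aa_trunc_zero V n n le_rfl, sub_zero]
    calc ‖((aa V n z.2 : V n) : E)‖ = ‖aa V n z.2‖ := rfl
      _ = ‖aa V n (z.2 - trunc 𝕜 (Blk V) n z.2)‖ := by rw [← this]
      _ ≤ _ := norm_aa_le V n _
  have hrr : Tendsto (fun n => ‖rr V n z.2‖) atTop (𝓝 0) := by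
    refine squeeze_zero (fun n => norm_nonneg _) (fun n => ?_) hdiff
    have : rr V n z.2 = rr V n (z.2 - trunc 𝕜 (Blk V) n z.2) := by
      rw [map_sub, rr_trunc_zero V n n le_rfl, sub_zero]
    rw [this]
    exact norm_rr_le V n _
  have hfst : Tendsto (fun n => (pp V w hw n z).1) atTop (𝓝 z.1) := by
    have := (ht z.1).add haa
    rw [add_zero] at this
    exact this
  have hbb : ∀ n x, ‖bb V w hw n x‖ ≤ K * ‖x‖ := by
    intro n x
    refine (pi_norm_le_iff_of_nonneg (by positivity)).mpr (fun j => ?_)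
    exact (w j).le_of_opNorm_le (hK j) x
  have hdf : Tendsto (fun n => K * ‖z.1 - (pp V w hw n z).1‖) atTop (𝓝 0) := by
    have : Tendsto (fun n => z.1 - (pp V w hw n z).1) atTop (𝓝 (z.1 - z.1)) :=
      tendsto_const_nhds.sub hfst
    rw [sub_self] at this
    simpa using this.norm.const_mul K
  have hsg : Tendsto (fun n => sg 𝕜 (Blk V) n (rr V n z.2 +
      bb V w hw n (z.1 - (pp V w hw n z).1))) atTop (𝓝 0) := by
    have h0 := hrr.add hdf
    rw [add_zero] at h0
    refine squeeze_zero_norm (fun n => ?_) h0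
    calc ‖sg 𝕜 (Blk V) n (rr V n z.2 + bb V w hw n (z.1 - (pp V w hw n z).1))‖
        ≤ ‖rr V n z.2 + bb V w hw n (z.1 - (pp V w hw n z).1)‖ := norm_sg_le 𝕜 n _
      _ ≤ ‖rr V n z.2‖ + ‖bb V w hw n (z.1 - (pp V w hw n z).1)‖ := norm_add_le _ _
      _ ≤ _ := add_le_add le_rfl (hbb n _)
  have hsnd : Tendsto (fun n => (pp V w hw n z).2) atTop (𝓝 z.2) := by
    have := htr.add hsg
    rw [add_zero] at this
    exact this
  exact hfst.prodMk_nhds hsnd

end StepB

end Pool.Agent.Lib.MP_355270_an
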