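import Mathlib

open Filter Topology

namespace Pool.Agent.Lib.MP_355270_an

section Local

variable {𝕜 : Type*} [RCLike 𝕜]
variable {V : Type*} [NormedAddCommGroup V] [NormedSpace 𝕜 V]

/-- On a finite-dimensional space the identity is a finite sum of operators of rank one with all
partial sums of norm at most two. -/
theorem exists_local [FiniteDimensional 𝕜 V] :
    ∃ (N : ℕ) (A : ℕ → V →L[𝕜] V) (v : ℕ → V), 1 ≤ N ∧ A 0 = 0 ∧
      (∀ k, N ≤ k → ∀ x, A k x = x) ∧ (∀ k x, ‖A k x‖ ≤ 2 * ‖x‖) ∧
      (∀ k, ∀ x, ∃ c : 𝕜, A (k + 1) x - A k x = c • v k) := by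
  classical
  set d := Module.finrank 𝕜 V with hd
  rcases Nat.eq_zero_or_pos d with h0 | hpos
  · have : Subsingleton V := Module.finrank_zero_iff.mp (hd ▸ h0)
    refine ⟨1, fun _ => 0, fun _ => 0, le_rfl, rfl, ?_, ?_, ?_⟩
    · intro k _ x
      exact Subsingleton.elim _ _
    · intro k x
      simp
    · intro k x
      exact ⟨0, by simp⟩
  · set b := Module.finBasis 𝕜 V with hb
    set f : Fin d → (V →L[𝕜] V) := fun i =>
      (LinearMap.toContinuousLinearMap (b.coord i)).smulRight (b i) with hf
    have hsum : ∀ x, ∑ i, f i x = x := by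
      intro x
      simp only [hf, ContinuousLinearMap.smulRight_apply, LinearMap.coe_toContinuousLinearMap',
        Module.Basis.coord_apply]
      exact b.sum_repr x
    set C : ℝ := ∑ i, ‖f i‖ with hC
    have hC0 : 0 ≤ C := Finset.sum_nonneg (fun i _ => norm_nonneg _)
    obtain ⟨m, hm⟩ := exists_nat_ge (max C 1)
    have hm1 : (1 : ℝ) ≤ m := (le_max_right _ _).trans hm
    have hmC : C ≤ m := (le_max_left _ _).trans hm
    have hmpos : (0 : ℝ) < m := lt_of_lt_of_le one_pos hm1
    have hmnat : 1 ≤ m := by exact_mod_cast hm1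
    set g : ℕ → (V →L[𝕜] V) := fun j => ((m : 𝕜)⁻¹) • f ⟨j % d, Nat.mod_lt _ hpos⟩ with hg
    set S : ℕ → (V →L[𝕜] V) := fun k => ∑ j ∈ Finset.range k, g j with hS
    have hmne : (m : 𝕜) ≠ 0 := by
      exact_mod_cast (by omega : m ≠ 0)
    have hnm : ‖((m : 𝕜)⁻¹)‖ = (m : ℝ)⁻¹ := by
      rw [norm_inv, RCLike.norm_natCast]
    have hcyc : ∀ q i, i < d → g (q * d + i) = g i := by
      intro q i hi
      simp only [hg]
      congr 2
      apply Fin.ext
      show (q * d + i) % d = i % d
      rw [Nat.add_comm, Nat.add_mul_mod_self_right]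
    have hone : ∀ x, ∑ i ∈ Finset.range d, g i x = (m : 𝕜)⁻¹ • x := by
      intro x
      rw [Finset.sum_range]
      have : ∀ i : Fin d, g (i : ℕ) x = (m : 𝕜)⁻¹ • f i x := by
        intro i
        simp only [hg]
        have : (⟨(i : ℕ) % d, Nat.mod_lt _ hpos⟩ : Fin d) = i := by
          apply Fin.ext
          exact Nat.mod_eq_of_lt i.2
        rw [this]
        rfl
      simp_rw [this]
      rw [← Finset.smul_sum, hsum]
    have hS1 : ∀ q x, S (q * d) x = ((q : 𝕜) * (m : 𝕜)⁻¹) • x := by
      intro q x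
      induction q with
      | zero => simp [hS]
      | succ q ih =>
        have : S ((q + 1) * d) x = S (q * d) x + ∑ i ∈ Finset.range d, g i x := by
          simp only [hS]
          rw [Nat.add_mul, Nat.one_mul, Finset.sum_range_add, _root_.add_apply]
          congr 1
          rw [_root_.sum_apply]
          refine Finset.sum_congr rfl (fun i hi => ?_)
          rw [hcyc q i (Finset.mem_range.mp hi)]
        rw [this, ih, hone, ← add_smul]
        congr 1
        push_cast
        ring
    have hS2 : ∀ q r, q ≤ m → r ≤ d → ∀ x, ‖S (q * d + r) x‖ ≤ 2 * ‖x‖ := by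
      intro q r hq hr x
      have : S (q * d + r) x = S (q * d) x + ∑ i ∈ Finset.range r, g i x := by
        simp only [hS]
        rw [Finset.sum_range_add, _root_.add_apply]
        congr 1
        rw [_root_.sum_apply]
        refine Finset.sum_congr rfl (fun i hi => ?_)
        rw [hcyc q i (lt_of_lt_of_le (Finset.mem_range.mp hi) hr)]
      rw [this, hS1]
      have e1 : ‖((q : 𝕜) * (m : 𝕜)⁻¹) • x‖ ≤ 1 * ‖x‖ := by
        rw [norm_smul, norm_mul, hnm, RCLike.norm_natCast]
        refine mul_le_mul_of_nonneg_right ?_ (norm_nonneg _)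
        rw [← div_eq_mul_inv, div_le_one hmpos]
        exact_mod_cast hq
      have e2 : ‖∑ i ∈ Finset.range r, g i x‖ ≤ 1 * ‖x‖ := by
        have h1 : ∀ i : Fin d, ‖g (i : ℕ) x‖ ≤ (m : ℝ)⁻¹ * (‖f i‖ * ‖x‖) := by
          intro i
          have : (⟨(i : ℕ) % d, Nat.mod_lt _ hpos⟩ : Fin d) = i := by
            apply Fin.ext
            exact Nat.mod_eq_of_lt i.2
          simp only [hg]
          rw [this]
          show ‖(m : 𝕜)⁻¹ • f i x‖ ≤ _
          rw [norm_smul, hnm]
          exact mul_le_mul_of_nonneg_left ((f i).le_opNorm x) (inv_nonneg.mpr hmpos.le)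
        calc ‖∑ i ∈ Finset.range r, g i x‖ ≤ ∑ i ∈ Finset.range r, ‖g i x‖ := norm_sum_le _ _
          _ ≤ ∑ i ∈ Finset.range d, ‖g i x‖ := by
            refine Finset.sum_le_sum_of_subset_of_nonneg (Finset.range_mono hr) ?_
            intro i _ _
            exact norm_nonneg _
          _ = ∑ i : Fin d, ‖g (i : ℕ) x‖ := Finset.sum_range _
          _ ≤ ∑ i : Fin d, (m : ℝ)⁻¹ * (‖f i‖ * ‖x‖) := Finset.sum_le_sum (fun i _ => h1 i)
          _ = (m : ℝ)⁻¹ * C * ‖x‖ := by
            rw [← Finset.mul_sum, ← Finset.sum_mul, mul_assoc]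
          _ ≤ 1 * ‖x‖ := by
            refine mul_le_mul_of_nonneg_right ?_ (norm_nonneg _)
            rw [inv_mul_le_iff₀ hmpos, mul_one]
            exact hmC
      calc _ ≤ _ := norm_add_le _ _
        _ ≤ 1 * ‖x‖ + 1 * ‖x‖ := add_le_add e1 e2
        _ = 2 * ‖x‖ := by ring
    refine ⟨m * d, fun k => S (min k (m * d)), fun k => b ⟨k % d, Nat.mod_lt _ hpos⟩,
      Nat.mul_pos (by omega) hpos, ?_, ?_, ?_, ?_⟩
    · simp [hS]
    · intro k hk x
      simp only
      rw [min_eq_right hk, hS1, mul_inv_cancel₀ hmne, one_smul]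
    · intro k x
      simp only
      set j := min k (m * d) with hj
      have hj1 : j ≤ m * d := min_le_right _ _
      have hdec : j = (j / d) * d + j % d := by
        have := Nat.div_add_mod j d
        rw [Nat.mul_comm] at this
        exact this.symm
      rw [hdec]
      refine hS2 _ _ ?_ (Nat.mod_lt _ hpos).le x
      exact Nat.div_le_of_le_mul (by rw [Nat.mul_comm]; exact hj1)
    · intro k x
      simp only
      rcases Nat.lt_or_ge k (m * d) with hk | hk
      · rw [min_eq_left (by omega), min_eq_left (by omega)]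
        simp only [hS]
        rw [Finset.sum_range_succ, _root_.add_apply, add_sub_cancel_left]
        simp only [hg, hf]
        refine ⟨(m : 𝕜)⁻¹ * b.coord ⟨k % d, Nat.mod_lt _ hpos⟩ x, ?_⟩
        rw [← smul_smul]
        rfl
      · rw [min_eq_right (by omega), min_eq_right (by omega)]
        exact ⟨0, by simp⟩

end Local

end Pool.Agent.Lib.MP_355270_an
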