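import Mathlib
import Pool.Agent.Lib.MP_355270_an.Local

open Filter Topology

namespace Pool.Agent.Lib.MP_355270_an

section Dilate

variable {𝕜 : Type*} [RCLike 𝕜]
variable {V : Type*} [NormedAddCommGroup V] [NormedSpace 𝕜 V]

/-- Extension by zero of a finite sequence. -/
def extz {N : ℕ} (h : Fin (N + 1) → V) (j : ℕ) : V := if hj : j < N + 1 then h ⟨j, hj⟩ else 0

theorem extz_add {N : ℕ} (h g : Fin (N + 1) → V) (j : ℕ) :
    extz (h + g) j = extz h j + extz g j := by
  unfold extz
  split_ifs <;> simp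

theorem extz_smul {N : ℕ} (c : 𝕜) (h : Fin (N + 1) → V) (j : ℕ) :
    extz (c • h) j = c • extz h j := by
  unfold extz
  split_ifs <;> simp

theorem extz_zero {N : ℕ} (j : ℕ) : extz (0 : Fin (N + 1) → V) j = 0 := by
  unfold extz
  split_ifs <;> simp

theorem norm_extz_le {N : ℕ} (h : Fin (N + 1) → V) (j : ℕ) : ‖extz h j‖ ≤ ‖h‖ := by
  unfold extz
  split_ifs with hj
  · exact norm_le_pi_norm h _
  · simp

theorem extz_restrict {N : ℕ} (f : ℕ → V) (hf : ∀ j, N < j → f j = 0) (j : ℕ) :
    extz (fun i : Fin (N + 1) => f i) j = f j := by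
  unfold extz
  split_ifs with hj
  · rfl
  · exact (hf j (by omega)).symm

theorem eq_of_extz {N : ℕ} (h g : Fin (N + 1) → V) (hg : ∀ j, extz h j = extz g j) : h = g := by
  funext i
  have := hg i
  unfold extz at this
  rw [dif_pos i.2, dif_pos i.2] at this
  exact this

/-- The finite-dimensional space of sequences used to complement `V`. -/
def Hsub (𝕜 : Type*) [RCLike 𝕜] {V : Type*} [NormedAddCommGroup V] [NormedSpace 𝕜 V]
    (N : ℕ) (v : ℕ → V) : Submodule 𝕜 (Fin (N + 1) → V) where
  carrier := {h | extz h 0 = 0 ∧ extz h N = 0 ∧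
    ∀ j, ∃ c : 𝕜, extz h (j + 1) - extz h j = c • v j}
  zero_mem' := by
    refine ⟨extz_zero 0, extz_zero N, fun j => ⟨0, ?_⟩⟩
    rw [extz_zero, extz_zero]
    simp
  add_mem' := by
    rintro a b ⟨a1, a2, a3⟩ ⟨b1, b2, b3⟩
    refine ⟨?_, ?_, ?_⟩
    · rw [extz_add, a1, b1, add_zero]
    · rw [extz_add, a2, b2, add_zero]
    · intro j
      obtain ⟨c, hc⟩ := a3 j
      obtain ⟨d, hd⟩ := b3 j
      refine ⟨c + d, ?_⟩
      rw [extz_add, extz_add, add_smul, ← hc, ← hd]
      abel
  smul_mem' := by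
    rintro r a ⟨a1, a2, a3⟩
    refine ⟨?_, ?_, ?_⟩
    · rw [extz_smul, a1, smul_zero]
    · rw [extz_smul, a2, smul_zero]
    · intro j
      obtain ⟨c, hc⟩ := a3 j
      refine ⟨r * c, ?_⟩
      rw [extz_smul, extz_smul, ← smul_sub, hc, smul_smul]

theorem exists_dil (𝕜 : Type*) [RCLike 𝕜] (V : Type*) [NormedAddCommGroup V] [NormedSpace 𝕜 V]
    [FiniteDimensional 𝕜 V] :
    ∃ (N : ℕ) (H : Submodule 𝕜 (Fin (N + 1) → V)) (R : ℕ → (V × H →L[𝕜] V × H)),
      1 ≤ N ∧ R 0 = 0 ∧ (∀ z, R N z = z) ∧ (∀ k l z, R k (R l z) = R (min k l) z) ∧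
      (∀ k z, ‖R k z‖ ≤ 9 * ‖z‖) ∧
      (∀ k, ∃ w : V × H, ∀ z, ∃ c : 𝕜, R (k + 1) z - R k z = c • w) := by
  obtain ⟨N, A, v, hN, hA0, hAN, hA2, hAv⟩ := exists_local (𝕜 := 𝕜) (V := V)
  set H := Hsub 𝕜 N v with hH
  -- the sequence attached to a pair
  let β : V × H → ℕ → V := fun z j => A j z.1 + extz (z.2 : Fin (N + 1) → V) j
  have hβadd : ∀ z w j, β (z + w) j = β z j + β w j := by
    intro z w j
    show A j (z + w).1 + extz (((z + w).2 : H) : Fin (N + 1) → V) j = _
    have : (((z + w).2 : H) : Fin (N + 1) → V) = (z.2 : Fin (N + 1) → V) + (w.2 : Fin (N + 1) → V) :=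
      rfl
    rw [this, extz_add, Prod.fst_add, map_add]
    show _ = (A j z.1 + extz (z.2 : Fin (N + 1) → V) j) +
      (A j w.1 + extz (w.2 : Fin (N + 1) → V) j)
    abel
  have hβsmul : ∀ (c : 𝕜) z j, β (c • z) j = c • β z j := by
    intro c z j
    show A j (c • z).1 + extz (((c • z).2 : H) : Fin (N + 1) → V) j = _
    have : (((c • z).2 : H) : Fin (N + 1) → V) = c • (z.2 : Fin (N + 1) → V) := rfl
    rw [this, extz_smul, Prod.smul_fst, map_smul, ← smul_add]
  have hβ0 : ∀ z, β z 0 = 0 := by
    intro z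
    show A 0 z.1 + extz (z.2 : Fin (N + 1) → V) 0 = 0
    rw [hA0, z.2.2.1]
    simp
  have hβN : ∀ z j, N ≤ j → β z j = z.1 := by
    intro z j hj
    show A j z.1 + extz (z.2 : Fin (N + 1) → V) j = z.1
    rw [hAN j hj]
    rcases hj.eq_or_lt with rfl | hlt
    · rw [z.2.2.2.1, add_zero]
    · have : extz (z.2 : Fin (N + 1) → V) j = 0 := by
        unfold extz
        rw [dif_neg (by omega)]
      rw [this, add_zero]
  have hβv : ∀ z j, ∃ c : 𝕜, β z (j + 1) - β z j = c • v j := by
    intro z j
    obtain ⟨c, hc⟩ := hAv j z.1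
    obtain ⟨d, hd⟩ := z.2.2.2.2 j
    refine ⟨c + d, ?_⟩
    rw [add_smul, ← hc, ← hd]
    show (A (j + 1) z.1 + extz (z.2 : Fin (N + 1) → V) (j + 1)) -
      (A j z.1 + extz (z.2 : Fin (N + 1) → V) j) = _
    abel
  have hβnorm : ∀ z j, ‖β z j‖ ≤ 3 * ‖z‖ := by
    intro z j
    calc ‖β z j‖ ≤ ‖A j z.1‖ + ‖extz (z.2 : Fin (N + 1) → V) j‖ := norm_add_le _ _
      _ ≤ 2 * ‖z.1‖ + ‖(z.2 : Fin (N + 1) → V)‖ := add_le_add (hA2 j _) (norm_extz_le _ _)
      _ ≤ 2 * ‖z‖ + ‖z‖ := by
        refine add_le_add (mul_le_mul_of_nonneg_left (norm_fst_le z) (by norm_num)) ?_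
        exact norm_snd_le z
      _ = 3 * ‖z‖ := by ring
  -- the second component
  let γ : ℕ → V × H → ℕ → V := fun k z j => β z (min j k) - A j (β z k)
  have hγ0 : ∀ k z, γ k z 0 = 0 := by
    intro k z
    show β z (min 0 k) - A 0 (β z k) = 0
    rw [Nat.zero_min, hβ0, hA0]
    simp
  have hγbig : ∀ k z j, N ≤ j → γ k z j = 0 := by
    intro k z j hj
    show β z (min j k) - A j (β z k) = 0
    rw [hAN j hj]
    rcases le_total k j with h | h
    · rw [min_eq_right h, sub_self]
    · rw [min_eq_left h, hβN z j hj, hβN z k (hj.trans h), sub_self]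
  have hγext : ∀ k z j, extz (fun i : Fin (N + 1) => γ k z i) j = γ k z j := fun k z j =>
    extz_restrict (γ k z) (fun j hj => hγbig k z j hj.le) j
  have hγmem : ∀ k z, (fun i : Fin (N + 1) => γ k z i) ∈ H := by
    intro k z
    refine ⟨?_, ?_, ?_⟩
    · rw [hγext, hγ0]
    · rw [hγext, hγbig k z N le_rfl]
    · intro j
      rw [hγext, hγext]
      obtain ⟨c, hc⟩ := hβv z j
      obtain ⟨d, hd⟩ := hAv j (β z k)
      rcases Nat.lt_or_ge j k with hjk | hjk
      · refine ⟨c - d, ?_⟩
        rw [sub_smul, ← hc, ← hd]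
        show (β z (min (j + 1) k) - A (j + 1) (β z k)) - (β z (min j k) - A j (β z k)) = _
        rw [min_eq_left (by omega : j + 1 ≤ k), min_eq_left hjk.le]
        abel
      · refine ⟨-d, ?_⟩
        rw [neg_smul, ← hd]
        show (β z (min (j + 1) k) - A (j + 1) (β z k)) - (β z (min j k) - A j (β z k)) = _
        rw [min_eq_right (by omega : k ≤ j + 1), min_eq_right hjk]
        abel
  have hγadd : ∀ k z w j, γ k (z + w) j = γ k z j + γ k w j := by
    intro k z w j
    show β (z + w) (min j k) - A j (β (z + w) k) = _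
    rw [hβadd, hβadd, map_add]
    show _ = (β z (min j k) - A j (β z k)) + (β w (min j k) - A j (β w k))
    abel
  have hγsmul : ∀ k (c : 𝕜) z j, γ k (c • z) j = c • γ k z j := by
    intro k c z j
    show β (c • z) (min j k) - A j (β (c • z) k) = _
    rw [hβsmul, hβsmul, map_smul, ← smul_sub]
  let L : ℕ → (V × H →ₗ[𝕜] V × H) := fun k =>
    { toFun := fun z => (β z k, ⟨fun i : Fin (N + 1) => γ k z i, hγmem k z⟩)
      map_add' := fun z w => by
        refine Prod.ext (hβadd z w k) (Subtype.ext ?_)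
        funext i
        exact hγadd k z w i
      map_smul' := fun c z => by
        refine Prod.ext (hβsmul c z k) (Subtype.ext ?_)
        funext i
        exact hγsmul k c z i }
  let R : ℕ → (V × H →L[𝕜] V × H) := fun k => LinearMap.toContinuousLinearMap (L k)
  have hRfst : ∀ k z, (R k z).1 = β z k := fun k z => rfl
  have hRβ : ∀ k z j, β (R k z) j = β z (min j k) := by
    intro k z j
    show A j (β z k) + extz (fun i : Fin (N + 1) => γ k z i) j = _
    rw [hγext]
    show A j (β z k) + (β z (min j k) - A j (β z k)) = _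
    abel
  have hinj : ∀ z w : V × H, (∀ j, β z j = β w j) → z = w := by
    intro z w h
    have h1 : z.1 = w.1 := by
      rw [← hβN z N le_rfl, ← hβN w N le_rfl]
      exact h N
    refine Prod.ext h1 (Subtype.ext (eq_of_extz _ _ (fun j => ?_)))
    have := h j
    have h2 : A j z.1 + extz (z.2 : Fin (N + 1) → V) j =
      A j w.1 + extz (w.2 : Fin (N + 1) → V) j := this
    rw [h1] at h2
    exact add_left_cancel h2
  refine ⟨N, H, R, hN, ?_, ?_, ?_, ?_, ?_⟩
  · refine ContinuousLinearMap.ext (fun z => ?_)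
    refine hinj _ _ (fun j => ?_)
    rw [hRβ, Nat.min_zero, hβ0]
    show 0 = A j ((0 : V × H)).1 + extz (((0 : V × H).2 : H) : Fin (N + 1) → V) j
    have : (((0 : V × H).2 : H) : Fin (N + 1) → V) = 0 := rfl
    rw [this, extz_zero]
    simp
  · intro z
    refine hinj _ _ (fun j => ?_)
    rw [hRβ]
    rcases le_total j N with h | h
    · rw [min_eq_left h]
    · rw [min_eq_right h, hβN z N le_rfl, hβN z j h]
  · intro k l z
    refine hinj _ _ (fun j => ?_)
    rw [hRβ, hRβ, hRβ, min_assoc]
  · intro k z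
    rw [Prod.norm_def]
    refine max_le ?_ ?_
    · rw [hRfst]
      refine (hβnorm z k).trans ?_
      have := norm_nonneg z
      linarith
    · show ‖(fun i : Fin (N + 1) => γ k z i)‖ ≤ _
      refine (pi_norm_le_iff_of_nonneg (by positivity)).mpr (fun i => ?_)
      calc ‖γ k z i‖ ≤ ‖β z (min i k)‖ + ‖A i (β z k)‖ := norm_sub_le _ _
        _ ≤ 3 * ‖z‖ + 2 * (3 * ‖z‖) := by
          refine add_le_add (hβnorm z _) ((hA2 _ _).trans ?_)
          exact mul_le_mul_of_nonneg_left (hβnorm z k) (by norm_num)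
        _ = 9 * ‖z‖ := by ring
  · intro k
    rcases Nat.lt_or_ge k N with hk | hk
    · -- the direction vector
      let g : ℕ → V := fun j => (if k < j then v k else 0) - A j (v k)
      have hgbig : ∀ j, N ≤ j → g j = 0 := by
        intro j hj
        show (if k < j then v k else 0) - A j (v k) = 0
        rw [if_pos (by omega), hAN j hj, sub_self]
      have hgext : ∀ j, extz (fun i : Fin (N + 1) => g i) j = g j := fun j =>
        extz_restrict g (fun j hj => hgbig j hj.le) j
      have hgmem : (fun i : Fin (N + 1) => g i) ∈ H := by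
        refine ⟨?_, ?_, ?_⟩
        · rw [hgext]
          show (if k < 0 then v k else 0) - A 0 (v k) = 0
          rw [hA0]
          simp
        · rw [hgext, hgbig N le_rfl]
        · intro j
          rw [hgext, hgext]
          obtain ⟨d, hd⟩ := hAv j (v k)
          show ∃ c : 𝕜, ((if k < j + 1 then v k else 0) - A (j + 1) (v k)) -
            ((if k < j then v k else 0) - A j (v k)) = c • v j
          rcases lt_trichotomy k j with h | h | h
          · rw [if_pos (by omega), if_pos h]
            refine ⟨-d, ?_⟩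
            rw [neg_smul, ← hd]
            abel
          · subst h
            rw [if_pos (by omega), if_neg (by omega)]
            refine ⟨1 - d, ?_⟩
            rw [sub_smul, ← hd, one_smul]
            abel
          · rw [if_neg (by omega), if_neg (by omega)]
            refine ⟨-d, ?_⟩
            rw [neg_smul, ← hd]
            abel
      refine ⟨(v k, ⟨fun i : Fin (N + 1) => g i, hgmem⟩), fun z => ?_⟩
      obtain ⟨c, hc⟩ := hβv z k
      refine ⟨c, Prod.ext ?_ (Subtype.ext ?_)⟩
      · show β z (k + 1) - β z k = c • v k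
        exact hc
      · funext i
        show γ (k + 1) z i - γ k z i = c • g i
        show (β z (min i (k + 1)) - A i (β z (k + 1))) - (β z (min i k) - A i (β z k)) =
          c • ((if k < (i : ℕ) then v k else 0) - A i (v k))
        have h1 : A i (β z (k + 1)) - A i (β z k) = c • A i (v k) := by
          rw [← map_sub, hc, map_smul]
        rw [smul_sub, ← h1]
        by_cases hik : k < (i : ℕ)
        · rw [if_pos hik, min_eq_right (by omega : k + 1 ≤ (i : ℕ)), min_eq_right hik.le, ← hc]
          abel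
        · rw [if_neg hik, min_eq_left (by omega : (i : ℕ) ≤ k + 1), min_eq_left (by omega : (i : ℕ) ≤ k),
            smul_zero]
          abel
    · refine ⟨0, fun z => ⟨0, ?_⟩⟩
      have : R (k + 1) z = R k z := by
        refine hinj _ _ (fun j => ?_)
        rw [hRβ, hRβ]
        rcases le_total j k with h | h
        · rw [min_eq_left h, min_eq_left (by omega)]
        · rw [min_eq_right h, hβN z k hk]
          rw [hβN z _ (by omega)]
      rw [this, sub_self, zero_smul]

end Dilate

end Pool.Agent.Lib.MP_355270_an
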