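import Mathlib

open Filter Topology

namespace Pool.Agent.Lib.MP_355270_an

section Chain

variable {𝕜 : Type*} [RCLike 𝕜]
variable {X : Type*} [NormedAddCommGroup X] [NormedSpace 𝕜 X]

theorem chain_finite (T : ℕ → X →L[𝕜] X) (h0 : T 0 = 0)
    (hr : ∀ m, ∃ v : X, ∀ x, ∃ c : 𝕜, T (m + 1) x - T m x = c • v) (m : ℕ) :
    FiniteDimensional 𝕜 (T m).toLinearMap.range := by
  induction m with
  | zero =>
    rw [h0]
    have : (0 : X →L[𝕜] X).toLinearMap.range = ⊥ := by
      ext x; simp
    rw [this]
    infer_instance
  | succ m ih =>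
    obtain ⟨v, hv⟩ := hr m
    have hle : (T (m + 1)).toLinearMap.range ≤ (T m).toLinearMap.range ⊔ Submodule.span 𝕜 {v} := by
      rintro _ ⟨x, rfl⟩
      obtain ⟨c, hc⟩ := hv x
      have : (T (m + 1)).toLinearMap x = T m x + c • v := by
        rw [← hc]; simp
      rw [this]
      exact Submodule.add_mem_sup ⟨x, rfl⟩
        (Submodule.smul_mem _ _ (Submodule.mem_span_singleton_self v))
    exact Submodule.finiteDimensional_of_le hle

theorem chain_comp (T : ℕ → X →L[𝕜] X)
    (h1 : ∀ m x, T m (T (m + 1) x) = T m x) (h2 : ∀ m x, T (m + 1) (T m x) = T m x)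
    (h3 : ∀ m x, T m (T m x) = T m x) {m l : ℕ} (hml : m ≤ l) :
    (∀ x, T m (T l x) = T m x) ∧ (∀ x, T l (T m x) = T m x) := by
  induction l, hml using Nat.le_induction with
  | base => exact ⟨h3 m, h3 m⟩
  | succ l hml ih =>
    constructor
    · intro x
      rw [← ih.1 (T (l + 1) x), h1, ih.1]
    · intro x
      rw [← ih.2 x, h2]

theorem chain_comp_min (T : ℕ → X →L[𝕜] X)
    (h1 : ∀ m x, T m (T (m + 1) x) = T m x) (h2 : ∀ m x, T (m + 1) (T m x) = T m x)
    (h3 : ∀ m x, T m (T m x) = T m x) (n m : ℕ) (x : X) : T n (T m x) = T (min n m) x := by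
  rcases le_total n m with h | h
  · rw [min_eq_left h]; exact (chain_comp T h1 h2 h3 h).1 x
  · rw [min_eq_right h]; exact (chain_comp T h1 h2 h3 h).2 x

/-- A Schauder basis from a chain of commuting projections with increments of rank at most one. -/
theorem basis_of_chain (T : ℕ → X →L[𝕜] X) (h0 : T 0 = 0)
    (h1 : ∀ m x, T m (T (m + 1) x) = T m x) (h2 : ∀ m x, T (m + 1) (T m x) = T m x)
    (h3 : ∀ m x, T m (T m x) = T m x)
    (hr : ∀ m, ∃ v : X, ∀ x, ∃ c : 𝕜, T (m + 1) x - T m x = c • v)
    (ht : ∀ x, Tendsto (fun m => T m x) atTop (𝓝 x))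
    (hinf : ¬ FiniteDimensional 𝕜 X) : Nonempty (SchauderBasis 𝕜 X) := by
  classical
  set p : ℕ → Prop := fun m => T (m + 1) ≠ T m with hp
  have hcomp := chain_comp_min T h1 h2 h3
  have hpinf : (setOf p).Infinite := by
    intro hfin
    apply hinf
    obtain ⟨M, hM⟩ := hfin.bddAbove
    have hconst : ∀ m, M + 1 ≤ m → T m = T (M + 1) := by
      intro m hm
      induction m, hm using Nat.le_induction with
      | base => rfl
      | succ m hm ih =>
        rw [← ih]
        by_contra hne
        have : m ∈ setOf p := hne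
        have := hM this
        omega
    have hid : ∀ x, T (M + 1) x = x := by
      intro x
      refine tendsto_nhds_unique (f := fun m => T m x) (l := atTop) ?_ (ht x)
      refine tendsto_const_nhds.congr' ?_
      filter_upwards [eventually_ge_atTop (M + 1)] with m hm
      rw [hconst m hm]
    have hfd := chain_finite T h0 hr (M + 1)
    have htop : (T (M + 1)).toLinearMap.range = ⊤ := by
      rw [eq_top_iff]
      intro x _
      exact ⟨x, hid x⟩
    rw [htop] at hfd
    exact Module.Finite.equiv (Submodule.topEquiv (R := 𝕜) (M := X))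
  set ν : ℕ → ℕ := Nat.nth p with hν
  have hmono : StrictMono ν := Nat.nth_strictMono hpinf
  have hpν : ∀ n, p (ν n) := fun n => Nat.nth_mem_of_infinite hpinf n
  have hsurj : ∀ j, p j → ∃ i, ν i = j := by
    intro j hj
    have : j ∈ Set.range (Nat.nth p) := by
      rw [Nat.range_nth_of_infinite hpinf]
      exact hj
    exact this
  have hnot : ∀ n j, ν n < j → j < ν (n + 1) → T (j + 1) = T j := by
    intro n j hj1 hj2
    by_contra hne
    obtain ⟨i, hi⟩ := hsurj j hne
    rw [← hi] at hj1 hj2
    have a := hmono.lt_iff_lt.mp hj1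
    have b := hmono.lt_iff_lt.mp hj2
    omega
  have hconst : ∀ n m, ν n + 1 ≤ m → m ≤ ν (n + 1) → T m = T (ν n + 1) := by
    intro n m hm
    induction m, hm using Nat.le_induction with
    | base => intro _; rfl
    | succ m hm ih =>
      intro hm2
      rw [← ih (by omega)]
      exact hnot n m (by omega) (by omega)
  have hsucc : ∀ n, T (ν (n + 1)) = T (ν n + 1) := fun n =>
    hconst n _ (hmono (Nat.lt_succ_self n)) le_rfl
  have hzero : ∀ m, m ≤ ν 0 → T m = 0 := by
    intro m
    induction m with
    | zero => intro _; exact h0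
    | succ m ih =>
      intro hm
      rw [← ih (by omega)]
      by_contra hne
      obtain ⟨i, hi⟩ := hsurj m hne
      have := hmono.monotone (Nat.zero_le i)
      omega
  -- the vectors
  have hex : ∀ n, ∃ x, T (ν n + 1) x - T (ν n) x ≠ 0 := by
    intro n
    by_contra hcon
    push Not at hcon
    apply hpν n
    ext x
    exact sub_eq_zero.mp (hcon x)
  choose w hw using hex
  set P : ℕ → X →L[𝕜] X := fun n => T (ν n) with hP
  have hPcomp : ∀ n m x, P n (P m x) = P (min n m) x := by
    intro n m x
    simp only [hP]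
    rw [hcomp, hmono.monotone.map_min]
  set e : ℕ → X := fun n => T (ν n + 1) (w n) - T (ν n) (w n) with he
  have hdiff : ∀ n x, ∃ c : 𝕜, P (n + 1) x - P n x = c • e n := by
    intro n x
    obtain ⟨v, hv⟩ := hr (ν n)
    obtain ⟨c, hc⟩ := hv x
    obtain ⟨d, hd⟩ := hv (w n)
    have hd0 : d ≠ 0 := by
      rintro rfl
      apply hw n
      rw [hd, zero_smul]
    refine ⟨c * d⁻¹, ?_⟩
    simp only [hP, he]
    rw [hsucc, hc, hd, smul_smul, mul_assoc, inv_mul_cancel₀ hd0, mul_one]
  have hrank : ∀ n, Module.finrank 𝕜 (P n).toLinearMap.range = n := by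
    intro n
    induction n with
    | zero =>
      have : P 0 = 0 := hzero _ le_rfl
      rw [this]
      have : (0 : X →L[𝕜] X).toLinearMap.range = ⊥ := by
        ext x; simp
      rw [this]
      simp
    | succ n ih =>
      have hfd1 : FiniteDimensional 𝕜 (P n).toLinearMap.range := chain_finite T h0 hr (ν n)
      have hen : e n = P (n + 1) (w n) - P n (w n) := by
        simp only [he, hP]; rw [hsucc]
      have hW : (P (n + 1)).toLinearMap.range =
          (P n).toLinearMap.range ⊔ Submodule.span 𝕜 {e n} := by
        apply le_antisymm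
        · rintro _ ⟨x, rfl⟩
          obtain ⟨c, hc⟩ := hdiff n x
          have : (P (n + 1)).toLinearMap x = P n x + c • e n := by
            rw [← hc]; simp
          rw [this]
          exact Submodule.add_mem_sup ⟨x, rfl⟩
            (Submodule.smul_mem _ _ (Submodule.mem_span_singleton_self _))
        · apply sup_le
          · rintro _ ⟨x, rfl⟩
            refine ⟨P n x, ?_⟩
            simp only [ContinuousLinearMap.coe_coe]
            rw [hPcomp]
            congr 2
            simp
          · rw [Submodule.span_singleton_le_iff_mem]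
            refine ⟨e n, ?_⟩
            simp only [ContinuousLinearMap.coe_coe]
            rw [hen, map_sub, hPcomp, hPcomp]
            simp
      have hdisj : (P n).toLinearMap.range ⊓ Submodule.span 𝕜 {e n} = ⊥ := by
        rw [eq_bot_iff]
        rintro x ⟨⟨y, hy⟩, hx2⟩
        obtain ⟨c, rfl⟩ := Submodule.mem_span_singleton.mp hx2
        have hPe : P n (e n) = 0 := by
          rw [hen, map_sub, hPcomp, hPcomp]
          simp
        have hy' : P n y = c • e n := hy
        have : c • e n = 0 := by
          calc c • e n = P n y := hy'.symm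
            _ = P n (P n y) := by rw [hPcomp]; simp
            _ = P n (c • e n) := by rw [hy']
            _ = 0 := by rw [map_smul, hPe, smul_zero]
        simp [this]
      have := Submodule.finrank_sup_add_finrank_inf_eq (P n).toLinearMap.range
        (Submodule.span 𝕜 {e n})
      rw [hdisj, finrank_bot, add_zero, ← hW, ih, finrank_span_singleton (hw n)] at this
      exact this
  let D : SchauderBasis.RankOneDecomposition 𝕜 X :=
    { P := P
      e := e
      proj_zero := hzero _ le_rfl
      finrank_range := hrank
      proj_comp := hPcomp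
      proj_tendsto := fun x => (ht x).comp hmono.tendsto_atTop
      e_mem_range := fun n => ⟨w n, by
        simp only [SchauderBasis.succSub, he, hP, ContinuousLinearMap.coe_coe]
        simp [hsucc]⟩
      e_ne_zero := hw }
  exact ⟨D.basis⟩

end Chain

end Pool.Agent.Lib.MP_355270_an
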