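import Mathlib
import Pool.Agent.Lib.MP_355270_an.Chain

open Filter Topology

namespace Pool.Agent.Lib.MP_355270_an

section Flatten

/-- Walk through the pairs `(n, k)`, `k < N n`, in lexicographic order. -/
def walk (N : ℕ → ℕ) : ℕ → ℕ × ℕ
  | 0 => (0, 0)
  | m + 1 => if (walk N m).2 + 1 < N (walk N m).1 then ((walk N m).1, (walk N m).2 + 1)
      else ((walk N m).1 + 1, 0)

theorem walk_lt (N : ℕ → ℕ) (hN : ∀ n, 1 ≤ N n) (m : ℕ) : (walk N m).2 < N (walk N m).1 := by
  cases m with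
  | zero =>
    have := hN 0
    simp only [walk]
    omega
  | succ m =>
    simp only [walk]
    split_ifs with h
    · exact h
    · exact hN _

theorem walk_mono (N : ℕ → ℕ) : Monotone (fun m => (walk N m).1) := by
  refine monotone_nat_of_le_succ (fun m => ?_)
  simp only [walk]
  split_ifs with h
  · exact le_rfl
  · exact Nat.le_succ _

theorem walk_reach_aux (N : ℕ → ℕ) (n m : ℕ) (h : walk N m = (n, 0)) (k : ℕ) (hk : k < N n) :
    walk N (m + k) = (n, k) := by
  induction k with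
  | zero => exact h
  | succ k ih =>
    have := ih (by omega)
    rw [← Nat.add_assoc]
    simp only [walk, this]
    rw [if_pos hk]

theorem walk_reach (N : ℕ → ℕ) (hN : ∀ n, 1 ≤ N n) (n : ℕ) : ∃ m, walk N m = (n, 0) := by
  induction n with
  | zero => exact ⟨0, rfl⟩
  | succ n ih =>
    obtain ⟨m, hm⟩ := ih
    have h1 := walk_reach_aux N n m hm (N n - 1) (by have := hN n; omega)
    refine ⟨m + (N n - 1) + 1, ?_⟩
    simp only [walk, h1]
    rw [if_neg (by have := hN n; omega)]

theorem walk_tendsto (N : ℕ → ℕ) (hN : ∀ n, 1 ≤ N n) :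
    Tendsto (fun m => (walk N m).1) atTop atTop := by
  refine tendsto_atTop_atTop_of_monotone (walk_mono N) (fun n => ?_)
  obtain ⟨m, hm⟩ := walk_reach N hN n
  exact ⟨m, by simp [hm]⟩

variable {𝕜 : Type*} [RCLike 𝕜]
variable {X : Type*} [NormedAddCommGroup X] [NormedSpace 𝕜 X]

/-- A Schauder basis from commuting projections `P n` and uniformly bounded finite chains joining
`P n` to `P (n+1)`. -/
theorem basis_of_chains (P : ℕ → X →L[𝕜] X) (N : ℕ → ℕ) (hN : ∀ n, 1 ≤ N n)
    (Q : ℕ → ℕ → X →L[𝕜] X) (K : ℝ)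
    (hP0 : P 0 = 0) (hPt : ∀ x, Tendsto (fun n => P n x) atTop (𝓝 x))
    (hQ0 : ∀ n, Q n 0 = P n) (hQN : ∀ n, Q n (N n) = P (n + 1))
    (h1 : ∀ n k, k < N n → ∀ x, Q n k (Q n (k + 1) x) = Q n k x)
    (h2 : ∀ n k, k < N n → ∀ x, Q n (k + 1) (Q n k x) = Q n k x)
    (h3 : ∀ n k, k ≤ N n → ∀ x, Q n k (Q n k x) = Q n k x)
    (h4 : ∀ n k, k ≤ N n → ∀ x, Q n k (P n x) = P n x)
    (hr : ∀ n k, k < N n → ∃ v : X, ∀ x, ∃ c : 𝕜, Q n (k + 1) x - Q n k x = c • v)
    (hK : ∀ n k, k ≤ N n → ∀ x, ‖Q n k x‖ ≤ K * ‖x‖)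
    (hinf : ¬ FiniteDimensional 𝕜 X) : Nonempty (SchauderBasis 𝕜 X) := by
  set T : ℕ → X →L[𝕜] X := fun m => Q (walk N m).1 (walk N m).2 with hT
  have hlt := walk_lt N hN
  have hsucc : ∀ m, T (m + 1) = Q (walk N m).1 ((walk N m).2 + 1) := by
    intro m
    simp only [hT, walk]
    split_ifs with h
    · rfl
    · have h' : (walk N m).2 + 1 = N (walk N m).1 := by have := hlt m; omega
      rw [h', hQN]
      exact hQ0 _
  refine basis_of_chain T ?_ ?_ ?_ ?_ ?_ ?_ hinf
  · simp only [hT, walk]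
    rw [hQ0, hP0]
  · intro m x
    rw [hsucc]
    exact h1 _ _ (hlt m) x
  · intro m x
    rw [hsucc]
    exact h2 _ _ (hlt m) x
  · intro m x
    exact h3 _ _ (hlt m).le x
  · intro m
    rw [hsucc]
    exact hr _ _ (hlt m)
  · intro x
    have hw := walk_tendsto N hN
    have hx : Tendsto (fun m => P (walk N m).1 x) atTop (𝓝 x) := (hPt x).comp hw
    have hd : Tendsto (fun m => T m x - P (walk N m).1 x) atTop (𝓝 0) := by
      have hb : Tendsto (fun m => K * ‖x - P (walk N m).1 x‖) atTop (𝓝 0) := by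
        have : Tendsto (fun m => x - P (walk N m).1 x) atTop (𝓝 (x - x)) :=
          tendsto_const_nhds.sub hx
        rw [sub_self] at this
        have := this.norm.const_mul K
        simpa using this
      refine squeeze_zero_norm (fun m => ?_) hb
      have : T m x - P (walk N m).1 x = Q (walk N m).1 (walk N m).2 (x - P (walk N m).1 x) := by
        rw [map_sub, h4 _ _ (hlt m).le]
      rw [this]
      exact hK _ _ (hlt m).le _
    have := hd.add hx
    simpa using this

end Flatten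

end Pool.Agent.Lib.MP_355270_an
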