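import Mathlib
import Pool.Agent.Lib.MP_355270_an.Trunc
import Pool.Agent.Lib.MP_355270_an.Flatten
import Pool.Agent.Lib.MP_355270_an.Dilate

open Filter Topology
open scoped ENNReal

namespace Pool.Agent.Lib.MP_355270_an

universe u

section Aux

variable {𝕜 : Type*} [RCLike 𝕜] {X : Type*} [NormedAddCommGroup X] [NormedSpace 𝕜 X]
    [CompleteSpace X]

theorem basis_of_fdd_aux (P : ℕ → X →L[𝕜] X) (hP0 : P 0 = 0)
    (hcomp : ∀ n m x, P n (P m x) = P (min n m) x)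
    (ht : ∀ x, Tendsto (fun n => P n x) atTop (𝓝 x))
    (hinf : ¬ FiniteDimensional 𝕜 X)
    (V : ℕ → Submodule 𝕜 X) (hV1 : ∀ n x, P (n + 1) x - P n x ∈ V n)
    (hV2 : ∀ n, ∀ v ∈ V n, P (n + 1) v = v) (hV3 : ∀ n, ∀ v ∈ V n, P n v = 0)
    (H : ℕ → Type*) [∀ n, NormedAddCommGroup (H n)] [∀ n, NormedSpace 𝕜 (H n)]
    [∀ n, CompleteSpace (H n)]
    (N : ℕ → ℕ) (R : ∀ n, ℕ → (V n × H n →L[𝕜] V n × H n)) (hN : ∀ n, 1 ≤ N n)
    (hR0 : ∀ n, R n 0 = 0) (hRN : ∀ n z, R n (N n) z = z)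
    (hRR : ∀ n k l z, R n k (R n l z) = R n (min k l) z)
    (hR9 : ∀ n k z, ‖R n k z‖ ≤ 9 * ‖z‖)
    (hRw : ∀ n k, ∃ w : V n × H n, ∀ z, ∃ c : 𝕜, R n (k + 1) z - R n k z = c • w) :
    Nonempty (SchauderBasis 𝕜 (X × lp H 1)) := by
  -- uniform bound
  obtain ⟨K, hK⟩ : ∃ K : ℝ, ∀ n, ‖P n‖ ≤ K := by
    apply banach_steinhaus
    intro x
    obtain ⟨M, hM⟩ := isBounded_iff_forall_norm_le.mp
      (Metric.isBounded_range_of_tendsto (fun n => P n x) (ht x))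
    exact ⟨M, Set.forall_mem_range.mp hM⟩
  have hK0 : 0 ≤ K := (norm_nonneg _).trans (hK 0)
  -- the operators
  set Dr : ∀ n, X →L[𝕜] V n := fun n => (P (n + 1) - P n).codRestrict (V n) (hV1 n) with hDr
  have hDrapp : ∀ n x, ((Dr n x : V n) : X) = P (n + 1) x - P n x := fun n x => rfl
  set Pt : ℕ → (X × lp H 1 →L[𝕜] X × lp H 1) := fun n =>
    (P n).prodMap (trunc 𝕜 H n) with hPtdef
  set J : ∀ n, (V n × H n →L[𝕜] X × lp H 1) := fun n =>
    (V n).subtypeL.prodMap (sg 𝕜 H n) with hJdef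
  set Xi : ∀ n, (X × lp H 1 →L[𝕜] V n × H n) := fun n =>
    (Dr n).prodMap (ev 𝕜 H n) with hXidef
  set Q : ℕ → ℕ → (X × lp H 1 →L[𝕜] X × lp H 1) := fun n k =>
    Pt n + (J n).comp ((R n k).comp (Xi n)) with hQdef
  have hPt : ∀ n z, Pt n z = (P n z.1, trunc 𝕜 H n z.2) := fun n z => rfl
  have hJ : ∀ n z, J n z = ((z.1 : X), sg 𝕜 H n z.2) := fun n z => rfl
  have hXi : ∀ n z, Xi n z = (Dr n z.1, ev 𝕜 H n z.2) := fun n z => rfl
  have hQ : ∀ n k z, Q n k z = Pt n z + J n (R n k (Xi n z)) := fun n k z => rfl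
  clear_value Q
  have hXiJ : ∀ n z, Xi n (J n z) = z := by
    intro n z
    rw [hXi, hJ]
    refine Prod.ext (Subtype.ext ?_) ?_
    · simp only []
      rw [hDrapp, hV2 n _ z.1.2, hV3 n _ z.1.2, sub_zero]
    · exact ev_sg 𝕜 n z.2
  have hXiP : ∀ n z, Xi n (Pt n z) = 0 := by
    intro n z
    rw [hXi, hPt]
    refine Prod.ext (Subtype.ext ?_) ?_
    · simp only []
      rw [hDrapp, hcomp, hcomp]
      simp
    · exact ev_trunc 𝕜 n z.2
  have hPtJ : ∀ n z, Pt n (J n z) = 0 := by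
    intro n z
    rw [hPt, hJ]
    refine Prod.ext ?_ ?_
    · exact hV3 n _ z.1.2
    · exact trunc_sg 𝕜 n z.2
  have hPtPt : ∀ n z, Pt n (Pt n z) = Pt n z := by
    intro n z
    rw [hPt, hPt]
    refine Prod.ext ?_ ?_
    · show P n (P n z.1) = P n z.1
      rw [hcomp, min_self]
    · show trunc 𝕜 _ n (trunc 𝕜 _ n z.2) = trunc 𝕜 _ n z.2
      rw [trunc_comp, min_self]
  have hPtsucc : ∀ n z, Pt (n + 1) z = Pt n z + J n (Xi n z) := by
    intro n z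
    rw [hPt, hPt, hJ, hXi]
    refine Prod.ext ?_ ?_
    · show P (n + 1) z.1 = P n z.1 + (P (n + 1) z.1 - P n z.1)
      abel
    · exact trunc_succ 𝕜 n z.2
  clear_value Pt J Xi Dr
  have hQQ : ∀ n k l z, Q n k (Q n l z) = Q n (min k l) z := by
    intro n k l z
    rw [hQ n k (Q n l z), hQ n l z, map_add, map_add, hPtPt, hPtJ, add_zero, hXiP, zero_add, hXiJ,
      hRR, hQ]
  have hnormJ : ∀ n z, ‖J n z‖ ≤ ‖z‖ := by
    intro n z
    rw [hJ, Prod.norm_def, Prod.norm_def]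
    exact max_le_max le_rfl (norm_sg_le 𝕜 n z.2)
  have hnormXi : ∀ n z, ‖Xi n z‖ ≤ (2 * K + 1) * ‖z‖ := by
    intro n z
    rw [hXi]
    refine (Prod.norm_def _).trans_le (max_le ?_ ?_)
    · show ‖((Dr n z.1 : V n) : X)‖ ≤ _
      rw [hDrapp]
      calc ‖P (n + 1) z.1 - P n z.1‖ 
          ≤ ‖P (n + 1) z.1‖ + ‖P n z.1‖ := norm_sub_le _ _
        _ ≤ K * ‖z.1‖ + K * ‖z.1‖ :=
          add_le_add ((P _).le_of_opNorm_le (hK _) _) ((P _).le_of_opNorm_le (hK _) _)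
        _ = 2 * K * ‖z.1‖ := by ring
        _ ≤ (2 * K + 1) * ‖z‖ := by
          refine mul_le_mul (by linarith) (norm_fst_le z) (norm_nonneg _) (by linarith)
    · calc ‖ev 𝕜 H n z.2‖ ≤ ‖z.2‖ := norm_ev_le 𝕜 n z.2
        _ ≤ ‖z‖ := norm_snd_le z
        _ ≤ (2 * K + 1) * ‖z‖ := by
          have := norm_nonneg z
          nlinarith
  have hnormPt : ∀ n z, ‖Pt n z‖ ≤ (K + 1) * ‖z‖ := by
    intro n z
    rw [hPt]
    refine (Prod.norm_def _).trans_le (max_le ?_ ?_)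
    · calc ‖P n z.1‖ ≤ K * ‖z.1‖ := (P _).le_of_opNorm_le (hK _) _
        _ ≤ (K + 1) * ‖z‖ := mul_le_mul (by linarith) (norm_fst_le z) (norm_nonneg _) (by linarith)
    · calc ‖trunc 𝕜 H n z.2‖ ≤ ‖z.2‖ := norm_trunc_le 𝕜 n z.2
        _ ≤ ‖z‖ := norm_snd_le z
        _ ≤ (K + 1) * ‖z‖ := by
          have := norm_nonneg z
          nlinarith
  refine basis_of_chains Pt N hN Q ((K + 1) + 9 * (2 * K + 1)) ?_ ?_ ?_ ?_ ?_ ?_ ?_ ?_ ?_ ?_ ?_
  · refine ContinuousLinearMap.ext (fun z => ?_)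
    rw [hPt, hP0, trunc_zero]
    rfl
  · intro z
    have h1 : Tendsto (fun n => (P n z.1, trunc 𝕜 H n z.2)) atTop (𝓝 (z.1, z.2)) :=
      (ht z.1).prodMk_nhds (tendsto_trunc 𝕜 z.2)
    simp_rw [hPt]
    exact h1
  · intro n
    refine ContinuousLinearMap.ext (fun z => ?_)
    rw [hQ, hR0]
    simp
  · intro n
    refine ContinuousLinearMap.ext (fun z => ?_)
    rw [hQ, hRN, hPtsucc]
  · intro n k _ z
    rw [hQQ]
    simp
  · intro n k _ z
    rw [hQQ]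
    simp
  · intro n k _ z
    rw [hQQ]
    simp
  · intro n k _ z
    rw [hQ, hPtPt, hXiP]
    simp
  · intro n k _
    obtain ⟨w, hw⟩ := hRw n k
    refine ⟨J n w, fun z => ?_⟩
    obtain ⟨c, hc⟩ := hw (Xi n z)
    refine ⟨c, ?_⟩
    rw [hQ, hQ, ← map_smul, ← hc, map_sub]
    abel
  · intro n k _ z
    rw [hQ]
    calc ‖Pt n z + J n (R n k (Xi n z))‖ ≤ ‖Pt n z‖ + ‖J n (R n k (Xi n z))‖ := norm_add_le _ _
      _ ≤ (K + 1) * ‖z‖ + 9 * ((2 * K + 1) * ‖z‖) := by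
        refine add_le_add (hnormPt n z) ((hnormJ n _).trans ((hR9 n k _).trans ?_))
        exact mul_le_mul_of_nonneg_left (hnormXi n z) (by norm_num)
      _ = _ := by ring
  · intro hcon
    apply hinf
    exact FiniteDimensional.of_injective
      (LinearMap.inl 𝕜 X (lp H 1)) LinearMap.inl_injective

end Aux

/-- A space with a finite-dimensional decomposition has a Schauder basis after adding a suitable
`ℓ¹`-sum of finite-dimensional spaces. -/
theorem basis_of_fdd {𝕜 : Type*} [RCLike 𝕜] {X : Type u} [NormedAddCommGroup X] [NormedSpace 𝕜 X]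
    [CompleteSpace X] (P : ℕ → X →L[𝕜] X) (hP0 : P 0 = 0)
    (hcomp : ∀ n m x, P n (P m x) = P (min n m) x)
    (hfin : ∀ n, FiniteDimensional 𝕜 (P n).toLinearMap.range)
    (ht : ∀ x, Tendsto (fun n => P n x) atTop (𝓝 x))
    (hinf : ¬ FiniteDimensional 𝕜 X) :
    ∃ (H : ℕ → Type u) (_ : ∀ n, NormedAddCommGroup (H n)) (_ : ∀ n, NormedSpace 𝕜 (H n))
      (_ : ∀ n, FiniteDimensional 𝕜 (H n)), Nonempty (SchauderBasis 𝕜 (X × lp H 1)) := by
  set D : ℕ → X →L[𝕜] X := fun n => P (n + 1) - P n with hD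
  have hDapp : ∀ n x, D n x = P (n + 1) x - P n x := fun n x => rfl
  set V : ℕ → Submodule 𝕜 X := fun n => (D n).toLinearMap.range with hV
  have hVfin : ∀ n, FiniteDimensional 𝕜 (V n) := by
    intro n
    have := hfin n
    have := hfin (n + 1)
    have hle : V n ≤ (P (n + 1)).toLinearMap.range ⊔ (P n).toLinearMap.range := by
      rintro _ ⟨x, rfl⟩
      show P (n + 1) x - P n x ∈ _
      exact Submodule.sub_mem _ (Submodule.mem_sup_left ⟨x, rfl⟩) (Submodule.mem_sup_right ⟨x, rfl⟩)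
    exact Submodule.finiteDimensional_of_le hle
  have hex := fun n => exists_dil 𝕜 (V n)
  choose N H R hN hR0 hRN hRR hR9 hRw using hex
  have : ∀ n, CompleteSpace (H n) := fun n => FiniteDimensional.complete 𝕜 (H n)
  refine ⟨fun n => ↥(H n), fun n => inferInstance, fun n => inferInstance,
    fun n => inferInstance, ?_⟩
  refine basis_of_fdd_aux P hP0 hcomp ht hinf V ?_ ?_ ?_ (fun n => ↥(H n)) N R hN hR0 hRN hRR
    hR9 hRw
  · intro n x
    exact ⟨x, rfl⟩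
  · rintro n _ ⟨x, rfl⟩
    show P (n + 1) (P (n + 1) x - P n x) = P (n + 1) x - P n x
    rw [map_sub, hcomp, hcomp]
    simp
  · rintro n _ ⟨x, rfl⟩
    show P n (P (n + 1) x - P n x) = 0
    rw [map_sub, hcomp, hcomp]
    simp

end Pool.Agent.Lib.MP_355270_an
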