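import Mathlib
import Pool.Agent.Lib.MP_355270_an.StepB
import Pool.Agent.Lib.MP_355270_an.StepC
import Pool.Agent.Lib.MP_355270_an.Absorb

open Filter Topology
open scoped ENNReal

namespace Pool.Agent.Lib.MP_355270_an

universe u

/-- Transport of a Schauder basis along an isomorphism. -/
theorem basis_transport {𝕜 : Type*} [RCLike 𝕜] {X Y : Type*} [NormedAddCommGroup X]
    [NormedSpace 𝕜 X] [NormedAddCommGroup Y] [NormedSpace 𝕜 Y] (e : X ≃L[𝕜] Y)
    (h : Nonempty (SchauderBasis 𝕜 X)) : Nonempty (SchauderBasis 𝕜 Y) := by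
  obtain ⟨b⟩ := h
  exact ⟨{
    basis := fun n => e (b n)
    coord := fun n => (b.coord n).comp (e.symm : Y →L[𝕜] X)
    ortho := fun i j => by
      show b.coord i (e.symm (e (b j))) = _
      rw [e.symm_apply_apply]
      exact b.ortho i j
    expansion := fun y => by
      have h1 := (b.expansion (e.symm y)).map e e.continuous
      rw [e.apply_symm_apply] at h1
      have h2 : (⇑e ∘ fun i => (b.coord i) (e.symm y) • b i) =
          fun i => ((b.coord i).comp (e.symm : Y →L[𝕜] X)) y • e (b i) := by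
        funext i
        show e ((b.coord i) (e.symm y) • b i) = (b.coord i) (e.symm y) • e (b i)
        rw [map_smul]
      rw [h2] at h1
      exact h1 }⟩

/-- A space with a basis has an approximative basis, and so has any complemented subspace. -/
theorem approx_of_basis {𝕜 : Type*} [RCLike 𝕜] {E R : Type*} [NormedAddCommGroup E]
    [NormedSpace 𝕜 E] [NormedAddCommGroup R] [NormedSpace 𝕜 R]
    (h : Nonempty (SchauderBasis 𝕜 (E × R))) :
    ∃ v : ℕ → E →L[𝕜] E, (∀ n, FiniteDimensional 𝕜 (v n).toLinearMap.range) ∧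
      ∀ x, Tendsto (fun n => v n x) atTop (𝓝 x) := by
  obtain ⟨b⟩ := h
  refine ⟨fun n => (ContinuousLinearMap.fst 𝕜 E R).comp
    ((b.proj n).comp (ContinuousLinearMap.inl 𝕜 E R)), fun n => ?_, fun x => ?_⟩
  · have hfd : FiniteDimensional 𝕜 (b.proj n).toLinearMap.range := by
      rw [SchauderBasis.range_proj_eq_span]
      exact FiniteDimensional.span_of_finite 𝕜 (Set.Finite.image _ (Finset.finite_toSet _))
    have hle : ((ContinuousLinearMap.fst 𝕜 E R).comp
        ((b.proj n).comp (ContinuousLinearMap.inl 𝕜 E R))).toLinearMap.range ≤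
        (b.proj n).toLinearMap.range.map (LinearMap.fst 𝕜 E R) := by
      rintro _ ⟨x, rfl⟩
      exact ⟨b.proj n (x, 0), ⟨(x, 0), rfl⟩, rfl⟩
    exact Submodule.finiteDimensional_of_le hle
  · have h1 := SchauderBasis.tendsto_proj b ((x, 0) : E × R)
    have h2 := (continuous_fst.tendsto ((x, 0) : E × R)).comp h1
    exact h2

section Main

variable {𝕜 : Type} [RCLike 𝕜]

theorem infinite_candidates {G : ℕ → Type u} [∀ n, NormedAddCommGroup (G n)]
    [∀ n, NormedSpace 𝕜 (G n)]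
    (h1 : ∀ (A : Type u) [NormedAddCommGroup A] [NormedSpace 𝕜 A] [FiniteDimensional 𝕜 A] (ε : ℝ),
      0 < ε → ∃ n, ∃ T : A ≃L[𝕜] G n,
        ‖(T : A →L[𝕜] G n)‖ * ‖(T.symm : G n →L[𝕜] A)‖ ≤ 1 + ε)
    (h2 : ∀ i, {j | Nonempty (G i ≃ₗᵢ[𝕜] G j)}.Infinite)
    (A : Type u) [NormedAddCommGroup A] [NormedSpace 𝕜 A] [FiniteDimensional 𝕜 A] :
    {j | Iso 𝕜 2 A (G j)}.Infinite := by
  obtain ⟨i, T, hT⟩ := h1 A 1 one_pos
  refine (h2 i).mono ?_
  rintro j ⟨σ⟩
  -- rescale `T`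
  set a := ‖(T : A →L[𝕜] G i)‖ with ha
  set b := ‖(T.symm : G i →L[𝕜] A)‖ with hb
  have ha0 : 0 ≤ a := norm_nonneg _
  have hb0 : 0 ≤ b := norm_nonneg _
  have hTa : ∀ x, ‖T x‖ ≤ a * ‖x‖ := fun x => (T : A →L[𝕜] G i).le_opNorm x
  have hTb : ∀ y, ‖T.symm y‖ ≤ b * ‖y‖ := fun y => (T.symm : G i →L[𝕜] A).le_opNorm y
  rcases hb0.eq_or_lt with hb00 | hbpos
  · -- trivial space
    have htriv : ∀ y : G i, T.symm y = 0 := by
      intro y
      have := hTb y
      rw [← hb00, zero_mul] at this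
      exact norm_le_zero_iff.mp this
    have htriv2 : ∀ x : A, x = 0 := fun x => by
      have := htriv (T x)
      rwa [T.symm_apply_apply] at this
    refine ⟨T.trans σ.toContinuousLinearEquiv, fun x => ?_, fun y => ?_⟩
    · rw [htriv2 x]
      simp
    · rw [htriv2 ((T.trans σ.toContinuousLinearEquiv).symm y)]
      simp
  · have hbne : (b : 𝕜) ≠ 0 := by exact_mod_cast hbpos.ne'
    have hnb : ‖(b : 𝕜)‖ = b := by rw [RCLike.norm_ofReal, abs_of_pos hbpos]
    let S : A ≃L[𝕜] A := ContinuousLinearEquiv.smulLeft (Units.mk0 (b : 𝕜) hbne)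
    have hS : ∀ x, S x = (b : 𝕜) • x := fun x => rfl
    have hSs : ∀ x, S.symm x = (b : 𝕜)⁻¹ • x := fun x => rfl
    refine ⟨(S.trans T).trans σ.toContinuousLinearEquiv, fun x => ?_, fun y => ?_⟩
    · show ‖σ (T (S x))‖ ≤ 2 * ‖x‖
      rw [σ.norm_map, hS, map_smul, norm_smul, hnb]
      calc b * ‖T x‖ ≤ b * (a * ‖x‖) := mul_le_mul_of_nonneg_left (hTa x) hb0
        _ = (a * b) * ‖x‖ := by ring
        _ ≤ 2 * ‖x‖ := mul_le_mul_of_nonneg_right (by linarith) (norm_nonneg _)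
    · show ‖S.symm (T.symm (σ.symm y))‖ ≤ 2 * ‖y‖
      rw [hSs, norm_smul, norm_inv, hnb]
      calc b⁻¹ * ‖T.symm (σ.symm y)‖ ≤ b⁻¹ * (b * ‖σ.symm y‖) :=
            mul_le_mul_of_nonneg_left (hTb _) (inv_nonneg.mpr hb0)
        _ = ‖y‖ := by rw [← mul_assoc, inv_mul_cancel₀ hbpos.ne', one_mul, σ.symm.norm_map]
        _ ≤ 2 * ‖y‖ := by linarith [norm_nonneg y]

theorem main {G : ℕ → Type u} [∀ n, NormedAddCommGroup (G n)]
    [∀ n, NormedSpace 𝕜 (G n)] (h0 : ∀ n, FiniteDimensional 𝕜 (G n))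
    (h1 : ∀ (A : Type u) [NormedAddCommGroup A] [NormedSpace 𝕜 A] [FiniteDimensional 𝕜 A] (ε : ℝ),
      0 < ε → ∃ n, ∃ T : A ≃L[𝕜] G n,
        ‖(T : A →L[𝕜] G n)‖ * ‖(T.symm : G n →L[𝕜] A)‖ ≤ 1 + ε)
    (h2 : ∀ i, {j | Nonempty (G i ≃ₗᵢ[𝕜] G j)}.Infinite)
    {E : Type u} [NormedAddCommGroup E] [NormedSpace 𝕜 E] [CompleteSpace E]
    (u : ℕ → E →L[𝕜] E) (hfin : ∀ n, FiniteDimensional 𝕜 (u n).toLinearMap.range)
    (ht : ∀ x, Tendsto (fun n => u n x) atTop (𝓝 x)) :
    Nonempty (SchauderBasis 𝕜 (E × lp G 1)) := by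
  classical
  have hGc : ∀ n, CompleteSpace (G n) := fun n => FiniteDimensional.complete 𝕜 (G n)
  obtain ⟨V, w, K, hVfin, hmono, hw, hfix, hK, hwt⟩ := normalize u hfin ht
  have hBfin : ∀ n, FiniteDimensional 𝕜 (Blk V n) := fun n => inferInstance
  have hBc : ∀ n, CompleteSpace (Blk V n) := fun n => FiniteDimensional.complete 𝕜 (Blk V n)
  -- the decomposition of `(E × lp F 1) × lp G 1`
  let P : ℕ → ((E × lp (Blk V) 1) × lp G 1 →L[𝕜] (E × lp (Blk V) 1) × lp G 1) := fun n =>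
    match n with
    | 0 => 0
    | m + 1 => (pp V w hw m).prodMap (trunc 𝕜 G m)
  have hPs : ∀ m z, P (m + 1) z = (pp V w hw m z.1, trunc 𝕜 G m z.2) := fun m z => rfl
  have hP0 : P 0 = 0 := rfl
  have hcomp : ∀ n m x, P n (P m x) = P (min n m) x := by
    intro n m x
    cases n with
    | zero => rw [hP0, Nat.zero_min, hP0]; rfl
    | succ n =>
      cases m with
      | zero => rw [Nat.min_zero, hP0]; simp
      | succ m =>
        rw [Nat.add_min_add_right, hPs, hPs, hPs]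
        refine Prod.ext ?_ ?_
        · exact pp_comp V w hw hmono hfix n m x.1
        · exact trunc_comp 𝕜 n m x.2
  have hPfin : ∀ n, FiniteDimensional 𝕜 (P n).toLinearMap.range := by
    intro n
    cases n with
    | zero =>
      rw [hP0]
      have : (0 : (E × lp (Blk V) 1) × lp G 1 →L[𝕜]
          (E × lp (Blk V) 1) × lp G 1).toLinearMap.range = ⊥ := by
        ext x; simp
      rw [this]
      infer_instance
    | succ n =>
      have f1 := pp_finite V w hw n
      have f2 : FiniteDimensional 𝕜 (trunc 𝕜 G n).toLinearMap.range := trunc_finite (F := G) 𝕜 n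
      have hle : (P (n + 1)).toLinearMap.range ≤
          (pp V w hw n).toLinearMap.range.map (LinearMap.inl 𝕜 (E × lp (Blk V) 1) (lp G 1)) ⊔
          (trunc 𝕜 G n).toLinearMap.range.map (LinearMap.inr 𝕜 (E × lp (Blk V) 1) (lp G 1)) := by
        rintro _ ⟨z, rfl⟩
        have hz : (P (n + 1)).toLinearMap z =
            LinearMap.inl 𝕜 (E × lp (Blk V) 1) (lp G 1) (pp V w hw n z.1) +
            LinearMap.inr 𝕜 (E × lp (Blk V) 1) (lp G 1) (trunc 𝕜 G n z.2) := by
          refine Prod.ext ?_ ?_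
          · show pp V w hw n z.1 = pp V w hw n z.1 + 0
            rw [add_zero]
          · show trunc 𝕜 G n z.2 = 0 + trunc 𝕜 G n z.2
            rw [zero_add]
        rw [hz]
        exact Submodule.add_mem_sup (Submodule.mem_map_of_mem ⟨_, rfl⟩)
          (Submodule.mem_map_of_mem ⟨_, rfl⟩)
      exact Submodule.finiteDimensional_of_le hle
  have hPt : ∀ x, Tendsto (fun n => P n x) atTop (𝓝 x) := by
    intro x
    rw [← tendsto_add_atTop_iff_nat 1]
    have a1 := pp_tendsto V w hw hK hwt x.1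
    have a2 := tendsto_trunc (F := G) 𝕜 x.2
    exact a1.prodMk_nhds a2
  have hcand := fun (A : Type u) [NormedAddCommGroup A] [NormedSpace 𝕜 A] [FiniteDimensional 𝕜 A] =>
    infinite_candidates h1 h2 A
  have hinf : ¬ FiniteDimensional 𝕜 ((E × lp (Blk V) 1) × lp G 1) := by
    intro hfd
    have hfdG : FiniteDimensional 𝕜 (lp G 1) :=
      FiniteDimensional.of_injective
        (LinearMap.inr 𝕜 (E × lp (Blk V) 1) (lp G 1)) LinearMap.inr_injective
    set d := Module.finrank 𝕜 (lp G 1) with hd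
    obtain ⟨n, T, -⟩ := h1 (ULift.{u} (Fin (d + 1) → 𝕜)) 1 one_pos
    have e1 : Module.finrank 𝕜 (G n) = d + 1 := by
      rw [← T.toLinearEquiv.finrank_eq, (ULift.moduleEquiv (R := 𝕜)
        (M := Fin (d + 1) → 𝕜)).finrank_eq, Module.finrank_fin_fun]
    have e2 : Module.finrank 𝕜 (G n) ≤ d := by
      refine LinearMap.finrank_le_finrank_of_injective (f := (sg 𝕜 G n).toLinearMap) ?_
      intro x y hxy
      have h3 : sg 𝕜 G n x = sg 𝕜 G n y := hxy
      have h4 := congrArg (ev 𝕜 G n) h3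
      rwa [ev_sg, ev_sg] at h4
    omega
  obtain ⟨H, i1, i2, i3, hbasis⟩ := basis_of_fdd P hP0 hcomp hPfin hPt hinf
  have hHc : ∀ n, CompleteSpace (H n) := fun n => FiniteDimensional.complete 𝕜 (H n)
  -- absorption
  obtain ⟨e1⟩ := absorb (𝕜 := 𝕜) (F := Blk V) (G := G) 2 one_le_two (fun n => hcand (Blk V n))
    (fun n => hcand (G n))
  obtain ⟨e2⟩ := absorb (𝕜 := 𝕜) (F := H) (G := G) 2 one_le_two (fun n => hcand (H n))
    (fun n => hcand (G n))
  let a1 : ((E × lp (Blk V) 1) × lp G 1) ≃L[𝕜] E × lp G 1 :=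
    (ContinuousLinearEquiv.prodAssoc 𝕜 E (lp (Blk V) 1) (lp G 1)).trans
      ((ContinuousLinearEquiv.refl 𝕜 E).prodCongr e1)
  let a2 : (((E × lp (Blk V) 1) × lp G 1) × lp H 1) ≃L[𝕜] E × lp G 1 :=
    ((a1.prodCongr (ContinuousLinearEquiv.refl 𝕜 (lp H 1))).trans
      (ContinuousLinearEquiv.prodAssoc 𝕜 E (lp G 1) (lp H 1))).trans
      ((ContinuousLinearEquiv.refl 𝕜 E).prodCongr
        ((ContinuousLinearEquiv.prodComm 𝕜 (lp G 1) (lp H 1)).trans e2))
  exact basis_transport a2 hbasis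

end Main

end Pool.Agent.Lib.MP_355270_an
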