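import Mathlib
import Pool.Agent.Lib.MP_355270_an.Tail
import Pool.Agent.Lib.MP_355270_an.Flatten
import Pool.Agent.Lib.MP_355270_an.Dilate

open Filter Topology
open scoped ENNReal

namespace Pool.Agent.Lib.MP_355270_an

universe u

section Abstract

variable {𝕜 : Type*} [RCLike 𝕜] {X : Type*} [NormedAddCommGroup X] [NormedSpace 𝕜 X]
    [CompleteSpace X]

/-- Step C with an abstract sum space `S` of blocks `H n`. -/
theorem basis_of_fdd_abs (P : ℕ → X →L[𝕜] X) (hP0 : P 0 = 0)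
    (hcomp : ∀ n m x, P n (P m x) = P (min n m) x)
    (ht : ∀ x, Tendsto (fun n => P n x) atTop (𝓝 x))
    (hinf : ¬ FiniteDimensional 𝕜 X)
    (V : ℕ → Submodule 𝕜 X) (hV1 : ∀ n x, P (n + 1) x - P n x ∈ V n)
    (hV2 : ∀ n, ∀ v ∈ V n, P (n + 1) v = v) (hV3 : ∀ n, ∀ v ∈ V n, P n v = 0)
    (H : ℕ → Type*) [∀ n, NormedAddCommGroup (H n)] [∀ n, NormedSpace 𝕜 (H n)]
    (N : ℕ → ℕ) (R : ∀ n, ℕ → (V n × H n →L[𝕜] V n × H n)) (hN : ∀ n, 1 ≤ N n)
    (hR0 : ∀ n, R n 0 = 0) (hRN : ∀ n z, R n (N n) z = z)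
    (hRR : ∀ n k l z, R n k (R n l z) = R n (min k l) z)
    (hR9 : ∀ n k z, ‖R n k z‖ ≤ 9 * ‖z‖)
    (hRw : ∀ n k, ∃ w : V n × H n, ∀ z, ∃ c : 𝕜, R n (k + 1) z - R n k z = c • w)
    (S : Type*) [NormedAddCommGroup S] [NormedSpace 𝕜 S]
    (s : ∀ n, H n →L[𝕜] S) (e : ∀ n, S →L[𝕜] H n) (τ : ℕ → S →L[𝕜] S)
    (hs : ∀ n a, ‖s n a‖ ≤ ‖a‖) (he : ∀ n t, ‖e n t‖ ≤ ‖t‖) (hτ : ∀ n t, ‖τ n t‖ ≤ ‖t‖)
    (hτ0 : τ 0 = 0) (hττ : ∀ n t, τ n (τ n t) = τ n t) (heτ : ∀ n t, e n (τ n t) = 0)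
    (hτs : ∀ n a, τ n (s n a) = 0) (hes : ∀ n a, e n (s n a) = a)
    (hτsucc : ∀ n t, τ (n + 1) t = τ n t + s n (e n t))
    (hτt : ∀ t, Tendsto (fun n => τ n t) atTop (𝓝 t)) :
    Nonempty (SchauderBasis 𝕜 (X × S)) := by
  -- uniform bound
  obtain ⟨K, hK⟩ : ∃ K : ℝ, ∀ n, ‖P n‖ ≤ K := by
    apply banach_steinhaus
    intro x
    obtain ⟨M, hM⟩ := isBounded_iff_forall_norm_le.mp
      (Metric.isBounded_range_of_tendsto (fun n => P n x) (ht x))
    exact ⟨M, Set.forall_mem_range.mp hM⟩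
  have hK0 : 0 ≤ K := (norm_nonneg _).trans (hK 0)
  -- the operators
  set Dr : ∀ n, X →L[𝕜] V n := fun n => (P (n + 1) - P n).codRestrict (V n) (hV1 n) with hDr
  have hDrapp : ∀ n x, ((Dr n x : V n) : X) = P (n + 1) x - P n x := fun n x => rfl
  set Pt : ℕ → (X × S →L[𝕜] X × S) := fun n => (P n).prodMap (τ n) with hPtdef
  set J : ∀ n, (V n × H n →L[𝕜] X × S) := fun n => (V n).subtypeL.prodMap (s n) with hJdef
  set Xi : ∀ n, (X × S →L[𝕜] V n × H n) := fun n => (Dr n).prodMap (e n) with hXidef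
  set Q : ℕ → ℕ → (X × S →L[𝕜] X × S) := fun n k =>
    Pt n + (J n).comp ((R n k).comp (Xi n)) with hQdef
  have hPt : ∀ n z, Pt n z = (P n z.1, τ n z.2) := fun n z => rfl
  have hJ : ∀ n z, J n z = ((z.1 : X), s n z.2) := fun n z => rfl
  have hXi : ∀ n z, Xi n z = (Dr n z.1, e n z.2) := fun n z => rfl
  have hQ : ∀ n k z, Q n k z = Pt n z + J n (R n k (Xi n z)) := fun n k z => rfl
  clear_value Q
  have hXiJ : ∀ n z, Xi n (J n z) = z := by
    intro n z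
    rw [hXi, hJ]
    refine Prod.ext (Subtype.ext ?_) ?_
    · simp only []
      rw [hDrapp, hV2 n _ z.1.2, hV3 n _ z.1.2, sub_zero]
    · exact hes n z.2
  have hXiP : ∀ n z, Xi n (Pt n z) = 0 := by
    intro n z
    rw [hXi, hPt]
    refine Prod.ext (Subtype.ext ?_) ?_
    · simp only []
      rw [hDrapp, hcomp, hcomp]
      simp
    · exact heτ n z.2
  have hPtJ : ∀ n z, Pt n (J n z) = 0 := by
    intro n z
    rw [hPt, hJ]
    refine Prod.ext ?_ ?_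
    · exact hV3 n _ z.1.2
    · exact hτs n z.2
  have hPtPt : ∀ n z, Pt n (Pt n z) = Pt n z := by
    intro n z
    rw [hPt, hPt]
    refine Prod.ext ?_ ?_
    · show P n (P n z.1) = P n z.1
      rw [hcomp, min_self]
    · exact hττ n z.2
  have hPtsucc : ∀ n z, Pt (n + 1) z = Pt n z + J n (Xi n z) := by
    intro n z
    rw [hPt, hPt, hJ, hXi]
    refine Prod.ext ?_ ?_
    · show P (n + 1) z.1 = P n z.1 + (P (n + 1) z.1 - P n z.1)
      abel
    · exact hτsucc n z.2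
  clear_value Pt J Xi Dr
  have hQQ : ∀ n k l z, Q n k (Q n l z) = Q n (min k l) z := by
    intro n k l z
    rw [hQ n k (Q n l z), hQ n l z, map_add, map_add, hPtPt, hPtJ, add_zero, hXiP, zero_add, hXiJ,
      hRR, hQ]
  have hnormJ : ∀ n z, ‖J n z‖ ≤ ‖z‖ := by
    intro n z
    rw [hJ, Prod.norm_def, Prod.norm_def]
    exact max_le_max le_rfl (hs n z.2)
  have hnormXi : ∀ n z, ‖Xi n z‖ ≤ (2 * K + 1) * ‖z‖ := by
    intro n z
    rw [hXi]
    refine (Prod.norm_def _).trans_le (max_le ?_ ?_)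
    · show ‖((Dr n z.1 : V n) : X)‖ ≤ _
      rw [hDrapp]
      calc ‖P (n + 1) z.1 - P n z.1‖ 
          ≤ ‖P (n + 1) z.1‖ + ‖P n z.1‖ := norm_sub_le _ _
        _ ≤ K * ‖z.1‖ + K * ‖z.1‖ :=
          add_le_add ((P _).le_of_opNorm_le (hK _) _) ((P _).le_of_opNorm_le (hK _) _)
        _ = 2 * K * ‖z.1‖ := by ring
        _ ≤ (2 * K + 1) * ‖z‖ := by
          refine mul_le_mul (by linarith) (norm_fst_le z) (norm_nonneg _) (by linarith)
    · calc ‖e n z.2‖ ≤ ‖z.2‖ := he n z.2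
        _ ≤ ‖z‖ := norm_snd_le z
        _ ≤ (2 * K + 1) * ‖z‖ := by
          have := norm_nonneg z
          nlinarith
  have hnormPt : ∀ n z, ‖Pt n z‖ ≤ (K + 1) * ‖z‖ := by
    intro n z
    rw [hPt]
    refine (Prod.norm_def _).trans_le (max_le ?_ ?_)
    · calc ‖P n z.1‖ ≤ K * ‖z.1‖ := (P _).le_of_opNorm_le (hK _) _
        _ ≤ (K + 1) * ‖z‖ := mul_le_mul (by linarith) (norm_fst_le z) (norm_nonneg _) (by linarith)
    · calc ‖τ n z.2‖ ≤ ‖z.2‖ := hτ n z.2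
        _ ≤ ‖z‖ := norm_snd_le z
        _ ≤ (K + 1) * ‖z‖ := by
          have := norm_nonneg z
          nlinarith
  refine basis_of_chains Pt N hN Q ((K + 1) + 9 * (2 * K + 1)) ?_ ?_ ?_ ?_ ?_ ?_ ?_ ?_ ?_ ?_ ?_
  · refine ContinuousLinearMap.ext (fun z => ?_)
    rw [hPt, hP0, hτ0]
    rfl
  · intro z
    have h1 : Tendsto (fun n => (P n z.1, τ n z.2)) atTop (𝓝 (z.1, z.2)) :=
      (ht z.1).prodMk_nhds (hτt z.2)
    simp_rw [hPt]
    exact h1
  · intro n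
    refine ContinuousLinearMap.ext (fun z => ?_)
    rw [hQ, hR0]
    simp
  · intro n
    refine ContinuousLinearMap.ext (fun z => ?_)
    rw [hQ, hRN, hPtsucc]
  · intro n k _ z
    rw [hQQ]
    simp
  · intro n k _ z
    rw [hQQ]
    simp
  · intro n k _ z
    rw [hQQ]
    simp
  · intro n k _ z
    rw [hQ, hPtPt, hXiP]
    simp
  · intro n k _
    obtain ⟨w, hw⟩ := hRw n k
    refine ⟨J n w, fun z => ?_⟩
    obtain ⟨c, hc⟩ := hw (Xi n z)
    refine ⟨c, ?_⟩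
    rw [hQ, hQ, ← map_smul, ← hc, map_sub]
    abel
  · intro n k _ z
    rw [hQ]
    calc ‖Pt n z + J n (R n k (Xi n z))‖ ≤ ‖Pt n z‖ + ‖J n (R n k (Xi n z))‖ := norm_add_le _ _
      _ ≤ (K + 1) * ‖z‖ + 9 * ((2 * K + 1) * ‖z‖) := by
        refine add_le_add (hnormPt n z) ((hnormJ n _).trans ((hR9 n k _).trans ?_))
        exact mul_le_mul_of_nonneg_left (hnormXi n z) (by norm_num)
      _ = _ := by ring
  · intro hcon
    apply hinf
    exact FiniteDimensional.of_injective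
      (LinearMap.inl 𝕜 X S) LinearMap.inl_injective

end Abstract

section Sums

variable (𝕜 : Type*) [RCLike 𝕜]
variable {H : ℕ → Type*} [∀ k, NormedAddCommGroup (H k)] [∀ k, NormedSpace 𝕜 (H k)]
variable (p : ℝ≥0∞) [Fact (1 ≤ p)]

theorem p_ne_zero' : p ≠ 0 := (zero_lt_one.trans_le (Fact.out : 1 ≤ p)).ne'

theorem norm_sgp_le (k : ℕ) (a : H k) : ‖lp.singleContinuousLinearMap 𝕜 H p k a‖ ≤ ‖a‖ := by
  rw [lp.singleContinuousLinearMap_apply,
    lp.norm_single (zero_lt_one.trans_le (Fact.out : 1 ≤ p))]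

theorem evp_apply (k : ℕ) (t : lp H p) : lp.evalCLM 𝕜 H p k t = t k := rfl

theorem norm_evp_le (k : ℕ) (t : lp H p) : ‖lp.evalCLM 𝕜 H p k t‖ ≤ ‖t‖ :=
  lp.norm_apply_le_norm (p_ne_zero' p) t k

theorem evp_tau (k : ℕ) (t : lp H p) : lp.evalCLM 𝕜 H p k (tau 𝕜 p k t) = 0 := by
  rw [evp_apply, tau_coe, if_neg (lt_irrefl _)]

theorem evp_sgp (k : ℕ) (a : H k) :
    lp.evalCLM 𝕜 H p k (lp.singleContinuousLinearMap 𝕜 H p k a) = a := by
  rw [evp_apply, lp.singleContinuousLinearMap_apply, lp.single_apply_self]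

theorem tau_sgp (n k : ℕ) (a : H k) : tau 𝕜 p n (lp.singleContinuousLinearMap 𝕜 H p k a) =
    if k < n then lp.singleContinuousLinearMap 𝕜 H p k a else 0 := by
  refine lp.ext ?_
  funext j
  rw [tau_coe]
  by_cases h : k < n
  · rw [if_pos h]
    by_cases hj : j < n
    · rw [if_pos hj]
    · rw [if_neg hj, lp.singleContinuousLinearMap_apply, lp.single_apply_ne _ _ _ (by omega)]
  · rw [if_neg h]
    by_cases hj : j < n
    · rw [if_pos hj, lp.singleContinuousLinearMap_apply, lp.single_apply_ne _ _ _ (by omega)]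
      rfl
    · rw [if_neg hj]
      rfl

theorem tau_succ (n : ℕ) (t : lp H p) : tau 𝕜 p (n + 1) t =
    tau 𝕜 p n t + lp.singleContinuousLinearMap 𝕜 H p n (lp.evalCLM 𝕜 H p n t) := by
  rw [tau_apply, tau_apply, Finset.sum_range_succ]
  rfl

theorem tau_finite [∀ k, FiniteDimensional 𝕜 (H k)] (n : ℕ) :
    FiniteDimensional 𝕜 (tau 𝕜 (G := H) p n).toLinearMap.range := by
  induction n with
  | zero =>
    rw [tau_zero]
    have : (0 : lp H p →L[𝕜] lp H p).toLinearMap.range = ⊥ := by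
      ext x; simp
    rw [this]
    infer_instance
  | succ n ih =>
    have hle : (tau 𝕜 (G := H) p (n + 1)).toLinearMap.range ≤
        (tau 𝕜 (G := H) p n).toLinearMap.range ⊔
          (lp.singleContinuousLinearMap 𝕜 H p n).toLinearMap.range := by
      rintro _ ⟨x, rfl⟩
      show tau 𝕜 p (n + 1) x ∈ _
      rw [tau_succ]
      exact Submodule.add_mem_sup ⟨x, rfl⟩ ⟨lp.evalCLM 𝕜 H p n x, rfl⟩
    exact Submodule.finiteDimensional_of_le hle

end Sums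

/-- A space with a finite-dimensional decomposition has a Schauder basis after adding a suitable
`ℓᵖ`-sum of finite-dimensional spaces. -/
theorem basis_of_fdd_p {𝕜 : Type*} [RCLike 𝕜] {p : ℝ≥0∞} [Fact (1 ≤ p)] (hp : p ≠ ∞)
    {X : Type u} [NormedAddCommGroup X] [NormedSpace 𝕜 X]
    [CompleteSpace X] (P : ℕ → X →L[𝕜] X) (hP0 : P 0 = 0)
    (hcomp : ∀ n m x, P n (P m x) = P (min n m) x)
    (hfin : ∀ n, FiniteDimensional 𝕜 (P n).toLinearMap.range)
    (ht : ∀ x, Tendsto (fun n => P n x) atTop (𝓝 x))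
    (hinf : ¬ FiniteDimensional 𝕜 X) :
    ∃ (H : ℕ → Type u) (_ : ∀ n, NormedAddCommGroup (H n)) (_ : ∀ n, NormedSpace 𝕜 (H n))
      (_ : ∀ n, FiniteDimensional 𝕜 (H n)), Nonempty (SchauderBasis 𝕜 (X × lp H p)) := by
  set D : ℕ → X →L[𝕜] X := fun n => P (n + 1) - P n with hD
  have hDapp : ∀ n x, D n x = P (n + 1) x - P n x := fun n x => rfl
  set V : ℕ → Submodule 𝕜 X := fun n => (D n).toLinearMap.range with hV
  have hVfin : ∀ n, FiniteDimensional 𝕜 (V n) := by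
    intro n
    have := hfin n
    have := hfin (n + 1)
    have hle : V n ≤ (P (n + 1)).toLinearMap.range ⊔ (P n).toLinearMap.range := by
      rintro _ ⟨x, rfl⟩
      show P (n + 1) x - P n x ∈ _
      exact Submodule.sub_mem _ (Submodule.mem_sup_left ⟨x, rfl⟩) (Submodule.mem_sup_right ⟨x, rfl⟩)
    exact Submodule.finiteDimensional_of_le hle
  have hex := fun n => exists_dil 𝕜 (V n)
  choose N H R hN hR0 hRN hRR hR9 hRw using hex
  refine ⟨fun n => ↥(H n), fun n => inferInstance, fun n => inferInstance,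
    fun n => inferInstance, ?_⟩
  refine basis_of_fdd_abs P hP0 hcomp ht hinf V ?_ ?_ ?_ (fun n => ↥(H n)) N R hN hR0 hRN hRR
    hR9 hRw (lp (fun n => ↥(H n)) p) (fun n => lp.singleContinuousLinearMap 𝕜 (fun n => ↥(H n)) p n)
    (fun n => lp.evalCLM 𝕜 (fun n => ↥(H n)) p n) (fun n => tau 𝕜 (G := fun n => ↥(H n)) p n)
    (fun n a => norm_sgp_le 𝕜 (H := fun n => ↥(H n)) p n a)
    (fun n t => norm_evp_le 𝕜 (H := fun n => ↥(H n)) p n t)
    (fun n t => norm_tau_le 𝕜 hp n t)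
    (tau_zero 𝕜 p) (fun n t => by rw [tau_comp, min_self])
    (fun n t => evp_tau 𝕜 (H := fun n => ↥(H n)) p n t)
    (fun n a => by
      have := tau_sgp 𝕜 (H := fun n => ↥(H n)) p n n a
      rw [if_neg (lt_irrefl _)] at this
      exact this)
    (fun n a => evp_sgp 𝕜 (H := fun n => ↥(H n)) p n a)
    (fun n t => tau_succ 𝕜 (H := fun n => ↥(H n)) p n t) (fun t => tendsto_tau 𝕜 hp t)
  · intro n x
    exact ⟨x, rfl⟩
  · rintro n _ ⟨x, rfl⟩
    show P (n + 1) (P (n + 1) x - P n x) = P (n + 1) x - P n x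
    rw [map_sub, hcomp, hcomp]
    simp
  · rintro n _ ⟨x, rfl⟩
    show P n (P (n + 1) x - P n x) = 0
    rw [map_sub, hcomp, hcomp]
    simp

end Pool.Agent.Lib.MP_355270_an
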