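import Mathlib
import Pool.Agent.Lib.MP_355270_an.Average

open Filter Topology

namespace Pool.Agent.Lib.MP_355270_an

section Perturb

variable {𝕜 : Type*} [RCLike 𝕜]
variable {E : Type*} [NormedAddCommGroup E] [NormedSpace 𝕜 E]

/-- `w` is asymptotically fixed by right multiplication with `v n`. -/
def Good (v : ℕ → E →L[𝕜] E) (w : E →L[𝕜] E) : Prop :=
  Tendsto (fun n => ‖w * v n - w‖) atTop (𝓝 0)

theorem Good.mul_left {v : ℕ → E →L[𝕜] E} {w : E →L[𝕜] E} (h : Good v w) (A : E →L[𝕜] E) :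
    Good v (A * w) := by
  have h1 : Tendsto (fun n => ‖A‖ * ‖w * v n - w‖) atTop (𝓝 0) := by
    simpa using Tendsto.const_mul ‖A‖ h
  refine squeeze_zero (fun n => norm_nonneg _) (fun n => ?_) h1
  have : A * w * v n - A * w = A * (w * v n - w) := by noncomm_ring
  rw [this]
  exact norm_mul_le _ _

theorem Good.add {v : ℕ → E →L[𝕜] E} {w w' : E →L[𝕜] E} (h : Good v w) (h' : Good v w') :
    Good v (w + w') := by
  have h1 : Tendsto (fun n => ‖w * v n - w‖ + ‖w' * v n - w'‖) atTop (𝓝 0) := by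
    simpa using Tendsto.add h h'
  refine squeeze_zero (fun n => norm_nonneg _) (fun n => ?_) h1
  have : (w + w') * v n - (w + w') = (w * v n - w) + (w' * v n - w') := by noncomm_ring
  rw [this]
  exact norm_add_le _ _

theorem Good.neg {v : ℕ → E →L[𝕜] E} {w : E →L[𝕜] E} (h : Good v w) : Good v (-w) := by
  have := h.mul_left (-1)
  simpa using this

theorem finite_mul_left {A w : E →L[𝕜] E} (h : FiniteDimensional 𝕜 w.toLinearMap.range) :
    FiniteDimensional 𝕜 (A * w).toLinearMap.range := by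
  have hle : (A * w).toLinearMap.range ≤ w.toLinearMap.range.map A.toLinearMap := by
    rintro _ ⟨x, rfl⟩
    exact ⟨w x, ⟨x, rfl⟩, rfl⟩
  exact Submodule.finiteDimensional_of_le hle

theorem finite_mul_right {A w : E →L[𝕜] E} (h : FiniteDimensional 𝕜 w.toLinearMap.range) :
    FiniteDimensional 𝕜 (w * A).toLinearMap.range := by
  have hle : (w * A).toLinearMap.range ≤ w.toLinearMap.range := by
    rintro _ ⟨x, rfl⟩
    exact ⟨A x, rfl⟩
  exact Submodule.finiteDimensional_of_le hle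

theorem finite_add {A w : E →L[𝕜] E} (hA : FiniteDimensional 𝕜 A.toLinearMap.range)
    (h : FiniteDimensional 𝕜 w.toLinearMap.range) :
    FiniteDimensional 𝕜 (A + w).toLinearMap.range := by
  have hle : (A + w).toLinearMap.range ≤ A.toLinearMap.range ⊔ w.toLinearMap.range := by
    rintro _ ⟨x, rfl⟩
    exact Submodule.add_mem_sup ⟨x, rfl⟩ ⟨x, rfl⟩
  exact Submodule.finiteDimensional_of_le hle

variable {v : ℕ → E →L[𝕜] E}

/-- A projection onto a finite-dimensional subspace inside the good operators. -/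
theorem exists_good_projection (hgood : ∀ m, Good v (v m))
    (ht : ∀ x, Tendsto (fun n => v n x) atTop (𝓝 x)) (X : Submodule 𝕜 E)
    [FiniteDimensional 𝕜 X] :
    ∃ π : E →L[𝕜] X, (∀ x : X, π x = x) ∧ Good v (X.subtypeL.comp π) := by
  classical
  have hXc : CompleteSpace X := FiniteDimensional.complete 𝕜 X
  obtain ⟨σ, hσ⟩ := Submodule.ClosedComplemented.of_finiteDimensional X (𝕜 := 𝕜)
  have h1 : Tendsto (fun m => ‖(1 : X →L[𝕜] X) - σ.comp ((v m).comp X.subtypeL)‖) atTop (𝓝 0) := by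
    refine tendsto_norm_of_finite _ (fun x => ?_)
    have h2 : Tendsto (fun m => σ (v m (x : E))) atTop (𝓝 (σ (x : E))) :=
      (σ.continuous.tendsto _).comp (ht x)
    have h3 : Tendsto (fun m => x - σ (v m (x : E))) atTop (𝓝 (x - σ (x : E))) :=
      tendsto_const_nhds.sub h2
    rw [hσ, sub_self] at h3
    exact h3
  obtain ⟨m, hm⟩ := (h1.eventually (gt_mem_nhds one_pos)).exists
  set B : (X →L[𝕜] X)ˣ := Units.oneSub _ hm with hB
  have hBval : (B : X →L[𝕜] X) = σ.comp ((v m).comp X.subtypeL) := by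
    rw [hB, Units.val_oneSub]
    abel
  set Binv : X →L[𝕜] X := ((B⁻¹ : (X →L[𝕜] X)ˣ) : X →L[𝕜] X) with hBinv
  have hBi : ∀ x, Binv ((B : X →L[𝕜] X) x) = x := by
    intro x
    have := B.inv_mul
    exact congrArg (fun f : X →L[𝕜] X => f x) this
  refine ⟨Binv.comp (σ.comp (v m)), fun x => ?_, ?_⟩
  · have h4 := hBi x
    rw [hBval] at h4
    exact h4
  · exact (hgood m).mul_left (X.subtypeL.comp (Binv.comp σ))

/-- One step of the perturbation. -/
theorem perturb_step (hfin : ∀ m, FiniteDimensional 𝕜 (v m).toLinearMap.range)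
    (hgood : ∀ m, Good v (v m))
    (ht : ∀ x, Tendsto (fun n => v n x) atTop (𝓝 x)) (w : E →L[𝕜] E) (hw : Good v w)
    (hwfin : FiniteDimensional 𝕜 w.toLinearMap.range) (m : ℕ) {δ : ℝ} (hδ : 0 < δ) :
    ∃ n, m ≤ n ∧ ∃ w' : E →L[𝕜] E, Good v w' ∧ FiniteDimensional 𝕜 w'.toLinearMap.range ∧
      w' * w = w ∧ w * w' = w ∧ ‖w' - v n‖ ≤ δ := by
  classical
  set X := w.toLinearMap.range with hX
  obtain ⟨π, hπ1, hπ2⟩ := exists_good_projection hgood ht X
  set PP : E →L[𝕜] E := X.subtypeL.comp π with hPP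
  have hPapp : ∀ x, PP x = ((π x : X) : E) := fun x => rfl
  have hPPX : ∀ x, PP (w x) = w x := by
    intro x
    rw [hPapp]
    have := hπ1 ⟨w x, ⟨x, rfl⟩⟩
    exact congrArg (fun y : X => (y : E)) this
  -- the section
  set wr : E →L[𝕜] X := w.codRestrict X (fun x => ⟨x, rfl⟩) with hwr
  have hsurj : Function.Surjective wr.toLinearMap := by
    rintro ⟨_, x, rfl⟩
    exact ⟨x, rfl⟩
  obtain ⟨s, hs⟩ := wr.toLinearMap.exists_rightInverse_of_surjective
    (LinearMap.range_eq_top.mpr hsurj)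
  have hs' : ∀ y : X, w (s y) = y := by
    intro y
    have h1 := congrArg (fun f : X →ₗ[𝕜] X => f y) hs
    have h2 : wr (s y) = y := h1
    exact congrArg (fun y : X => (y : E)) h2
  set S : X →L[𝕜] E := LinearMap.toContinuousLinearMap s with hS
  set ρ : E →L[𝕜] E := (S.comp π) * w with hρ
  have hwρ : w * ρ = w := by
    refine ContinuousLinearMap.ext (fun x => ?_)
    show w (s (π (w x))) = w x
    rw [hs']
    exact hPPX x
  have hρgood : Good v ρ := hw.mul_left _
  have hρfin : FiniteDimensional 𝕜 ρ.toLinearMap.range := finite_mul_left hwfin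
  have hPPfin : FiniteDimensional 𝕜 PP.toLinearMap.range := by
    have hle : PP.toLinearMap.range ≤ X := by
      rintro _ ⟨x, rfl⟩
      exact (π x).2
    exact Submodule.finiteDimensional_of_le hle
  -- smallness
  have h1 : Tendsto (fun n => ‖((1 : E →L[𝕜] E) - v n).comp X.subtypeL‖) atTop (𝓝 0) := by
    refine tendsto_norm_of_finite _ (fun x => ?_)
    have h3 : Tendsto (fun m => (x : E) - v m (x : E)) atTop (𝓝 ((x : E) - (x : E))) :=
      tendsto_const_nhds.sub (ht x)
    rw [sub_self] at h3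
    exact h3
  have h2 : Tendsto (fun n => ‖((1 : E →L[𝕜] E) - v n).comp X.subtypeL‖ * ‖π‖ +
      ‖ρ * v n - ρ‖ * ‖(1 : E →L[𝕜] E) - PP‖) atTop (𝓝 0) := by
    have a1 := h1.mul_const ‖π‖
    have a2 := Tendsto.mul_const ‖(1 : E →L[𝕜] E) - PP‖ hρgood
    simpa using a1.add a2
  obtain ⟨n, hn1, hn2⟩ := ((eventually_ge_atTop m).and (h2.eventually (ge_mem_nhds hδ))).exists
  set T := v n with hT
  refine ⟨n, hn1, T + (1 - T) * PP + ρ * (1 - T) * (1 - PP), ?_, ?_, ?_, ?_, ?_⟩
  · have e1 : ρ * (1 - T) * (1 - PP) = ρ + (-ρ) * T + (-(ρ * (1 - T))) * PP := by noncomm_ring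
    rw [e1]
    refine Good.add (Good.add (hgood n) (hπ2.mul_left _)) ?_
    exact Good.add (Good.add hρgood ((hgood n).mul_left _)) (hπ2.mul_left _)
  · refine finite_add (finite_add (hfin n) (finite_mul_left hPPfin)) ?_
    rw [mul_assoc]
    exact finite_mul_right hρfin
  · refine ContinuousLinearMap.ext (fun x => ?_)
    show T (w x) + (PP (w x) - T (PP (w x))) + ρ ((1 - T) (w x - PP (w x))) = w x
    rw [hPPX, sub_self, map_zero, map_zero, add_zero]
    abel
  · have e1 : w * (T + (1 - T) * PP + ρ * (1 - T) * (1 - PP)) =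
        w * T + w * (1 - T) * PP + (w * ρ) * (1 - T) * (1 - PP) := by noncomm_ring
    rw [e1, hwρ]
    noncomm_ring
  · have e1 : T + (1 - T) * PP + ρ * (1 - T) * (1 - PP) - T =
        (1 - T) * PP + (-(ρ * T - ρ)) * (1 - PP) := by noncomm_ring
    rw [e1]
    refine (norm_add_le _ _).trans (le_trans (add_le_add ?_ ?_) hn2)
    · exact ContinuousLinearMap.opNorm_comp_le (((1 : E →L[𝕜] E) - v n).comp X.subtypeL) π
    · refine (norm_mul_le _ _).trans ?_
      rw [norm_neg]

/-- An asymptotically commuting approximating sequence can be made commuting. -/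
theorem exists_commuting (hfin : ∀ m, FiniteDimensional 𝕜 (v m).toLinearMap.range)
    (hgood : ∀ m, Good v (v m)) (ht : ∀ x, Tendsto (fun n => v n x) atTop (𝓝 x)) :
    ∃ w : ℕ → E →L[𝕜] E, (∀ n, FiniteDimensional 𝕜 (w n).toLinearMap.range) ∧
      (∀ x, Tendsto (fun n => w n x) atTop (𝓝 x)) ∧
      (∀ n m, n ≠ m → (w n).comp (w m) = w (min n m)) := by
  classical
  have step : ∀ (w : {w : E →L[𝕜] E // Good v w ∧ FiniteDimensional 𝕜 w.toLinearMap.range})
      (m : ℕ), ∃ (w' : {w : E →L[𝕜] E // Good v w ∧ FiniteDimensional 𝕜 w.toLinearMap.range}),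
        w'.1 * w.1 = w.1 ∧ w.1 * w'.1 = w.1 ∧ ∃ n, m ≤ n ∧ ‖w'.1 - v n‖ ≤ 1 / ((m : ℝ) + 1) := by
    rintro ⟨w, hw1, hw2⟩ m
    obtain ⟨n, hn, w', h1, h2, h3, h4, h5⟩ := perturb_step hfin hgood ht w hw1 hw2 m
      (δ := 1 / ((m : ℝ) + 1)) (by positivity)
    exact ⟨⟨w', h1, h2⟩, h3, h4, n, hn, h5⟩
  choose W hW1 hW2 N hN1 hN2 using step
  let q : ℕ → {w : E →L[𝕜] E // Good v w ∧ FiniteDimensional 𝕜 w.toLinearMap.range} := fun n =>
    Nat.rec ⟨v 0, hgood 0, hfin 0⟩ (fun m w => W w m) n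
  have hq : ∀ n, q (n + 1) = W (q n) n := fun n => rfl
  have a1 : ∀ n, (q (n + 1)).1 * (q n).1 = (q n).1 := fun n => by rw [hq]; exact hW1 _ _
  have a2 : ∀ n, (q n).1 * (q (n + 1)).1 = (q n).1 := fun n => by rw [hq]; exact hW2 _ _
  have a3 : ∀ m n, m < n → (q n).1 * (q m).1 = (q m).1 ∧ (q m).1 * (q n).1 = (q m).1 := by
    intro m n hmn
    induction n, hmn using Nat.le_induction with
    | base => exact ⟨a1 m, a2 m⟩
    | succ n hmn ih =>
      constructor
      · rw [← ih.1, ← mul_assoc, a1]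
      · rw [← ih.2, mul_assoc, a2]
  refine ⟨fun n => (q n).1, fun n => (q n).2.2, fun x => ?_, fun n m hnm => ?_⟩
  · rw [← tendsto_add_atTop_iff_nat 1]
    have h1 : Tendsto (fun n => N (q n) n) atTop atTop :=
      tendsto_atTop_mono (fun n => hN1 (q n) n) tendsto_id
    have h2 : Tendsto (fun n => v (N (q n) n) x) atTop (𝓝 x) := (ht x).comp h1
    have h3 : Tendsto (fun n => (q (n + 1)).1 x - v (N (q n) n) x) atTop (𝓝 0) := by
      have h4 : Tendsto (fun n : ℕ => 1 / ((n : ℝ) + 1) * ‖x‖) atTop (𝓝 0) := by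
        have := tendsto_one_div_add_atTop_nhds_zero_nat (𝕜 := ℝ)
        simpa using this.mul_const ‖x‖
      refine squeeze_zero_norm (fun n => ?_) h4
      have h5 := hN2 (q n) n
      rw [hq]
      exact ((W (q n) n).1 - v (N (q n) n)).le_of_opNorm_le h5 x
    have := h3.add h2
    simpa using this
  · rcases Nat.lt_or_gt_of_ne hnm with h | h
    · rw [min_eq_left h.le]
      exact (a3 n m h).2
    · rw [min_eq_right h.le]
      exact (a3 m n h).1

end Perturb

end Pool.Agent.Lib.MP_355270_an
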