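import Mathlib

open Filter Topology

namespace Pool.Agent.Lib.MP_355270_an

section Products

variable {𝕜 : Type*} [RCLike 𝕜]
variable {E : Type*} [NormedAddCommGroup E] [NormedSpace 𝕜 E]

/-- The product `α j * α (j+1) * ⋯ * α (j+i-1)`. -/
noncomputable def pr (α : ℕ → E →L[𝕜] E) (j : ℕ) : ℕ → E →L[𝕜] E
  | 0 => 1
  | i + 1 => pr α j i * α (j + i)

theorem pr_add (α : ℕ → E →L[𝕜] E) (j i l : ℕ) : pr α j (i + l) = pr α j i * pr α (j + i) l := by
  induction l with
  | zero => simp [pr]
  | succ l ih =>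
    rw [← Nat.add_assoc]
    simp only [pr]
    rw [ih, mul_assoc, Nat.add_assoc]

theorem pr_one (α : ℕ → E →L[𝕜] E) (j : ℕ) : pr α j 1 = α j := by
  simp [pr]

theorem pr_diff (α : ℕ → E →L[𝕜] E) (j i : ℕ) :
    pr α j (i + 2) - pr α j (i + 1) = pr α j i * (α (j + i) * α (j + i + 1) - α (j + i)) := by
  simp only [pr]
  rw [mul_sub, mul_assoc]
  rfl

theorem pr_bound (α : ℕ → E →L[𝕜] E) (L : ℝ) (hL : 1 ≤ L) (hα : ∀ j, ‖α j‖ ≤ L)
    (h : ∀ j, ‖α j * α (j + 1) - α j‖ ≤ 1 / 4 * (1 / 2) ^ j) (j i : ℕ) :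
    ‖pr α j (i + 1)‖ ≤ L + L * (1 - (1 / 2) ^ i) ∧ ‖pr α j i‖ ≤ 2 * L := by
  induction i with
  | zero =>
    constructor
    · rw [pr_one]
      simpa using hα j
    · simp only [pr]
      exact (ContinuousLinearMap.norm_id_le).trans (by linarith)
  | succ i ih =>
    have h1 : ‖pr α j (i + 2) - pr α j (i + 1)‖ ≤ 2 * L * (1 / 4 * (1 / 2) ^ i) := by
      rw [pr_diff]
      refine (norm_mul_le _ _).trans ?_
      refine mul_le_mul ih.2 ((h (j + i)).trans ?_) (norm_nonneg _) (by linarith)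
      refine mul_le_mul_of_nonneg_left ?_ (by norm_num)
      exact pow_le_pow_of_le_one (by norm_num) (by norm_num) (by omega)
    have h2 : ‖pr α j (i + 2)‖ ≤ ‖pr α j (i + 2) - pr α j (i + 1)‖ + ‖pr α j (i + 1)‖ := by
      calc ‖pr α j (i + 2)‖ = ‖(pr α j (i + 2) - pr α j (i + 1)) + pr α j (i + 1)‖ := by
            congr 1; abel
        _ ≤ _ := norm_add_le _ _
    refine ⟨?_, ?_⟩
    · have h3 : (1 / 2 : ℝ) ^ (i + 1) = (1 / 2) ^ i * (1 / 2) := pow_succ _ _
      show ‖pr α j (i + 2)‖ ≤ _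
      rw [h3]
      have := ih.1
      nlinarith
    · refine ih.1.trans ?_
      have : (0 : ℝ) ≤ (1 / 2) ^ i := by positivity
      nlinarith

/-- From a sequence that asymptotically commutes up to summable errors to one that asymptotically
commutes. -/
theorem exists_products [CompleteSpace E] (α : ℕ → E →L[𝕜] E) (L : ℝ) (hL : 1 ≤ L)
    (hα : ∀ j, ‖α j‖ ≤ L)
    (hfin : ∀ j, FiniteDimensional 𝕜 (α j).toLinearMap.range)
    (h : ∀ j, ‖α j * α (j + 1) - α j‖ ≤ 1 / 4 * (1 / 2) ^ j)
    (ht : ∀ x, Tendsto (fun n => α n x) atTop (𝓝 x)) :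
    ∃ v : ℕ → E →L[𝕜] E, (∀ j, FiniteDimensional 𝕜 (v j).toLinearMap.range) ∧
      (∀ x, Tendsto (fun n => v n x) atTop (𝓝 x)) ∧
      (∀ m, Tendsto (fun n => ‖v m * v n - v m‖) atTop (𝓝 0)) := by
  have hb := pr_bound α L hL hα h
  have hgeo : ∀ j i, dist (pr α j (i + 1)) (pr α j (i + 1 + 1)) ≤
      (L / 2 * (1 / 2) ^ j) * (1 / 2) ^ i := by
    intro j i
    rw [dist_comm, dist_eq_norm]
    show ‖pr α j (i + 2) - pr α j (i + 1)‖ ≤ _
    rw [pr_diff]
    refine (norm_mul_le _ _).trans ?_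
    calc ‖pr α j i‖ * ‖α (j + i) * α (j + i + 1) - α (j + i)‖
        ≤ (2 * L) * (1 / 4 * (1 / 2) ^ (j + i)) :=
          mul_le_mul (hb j i).2 (h (j + i)) (norm_nonneg _) (by linarith)
      _ = _ := by rw [pow_add]; ring
  have hcau : ∀ j, CauchySeq (fun i => pr α j (i + 1)) := fun j =>
    cauchySeq_of_le_geometric (1 / 2) (L / 2 * (1 / 2) ^ j) (by norm_num) (hgeo j)
  choose v hv using fun j => cauchySeq_tendsto_of_complete (hcau j)
  have hv1 : ∀ j, ‖α j - v j‖ ≤ L * (1 / 2) ^ j := by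
    intro j
    have := dist_le_of_le_geometric_of_tendsto₀ (1 / 2) (L / 2 * (1 / 2) ^ j) (by norm_num)
      (hgeo j) (hv j)
    simp only [Nat.zero_add] at this
    rw [pr_one, dist_eq_norm] at this
    refine this.trans (le_of_eq ?_)
    norm_num
    ring
  have hv2 : ∀ j i, v j = pr α j i * v (j + i) := by
    intro j i
    have h1 : Tendsto (fun l => pr α j (i + (l + 1))) atTop (𝓝 (v j)) := by
      have := (tendsto_add_atTop_iff_nat (f := fun l => pr α j (l + 1)) i).mpr (hv j)
      refine this.congr (fun l => ?_)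
      congr 1
      omega
    have h2 : Tendsto (fun l => pr α j (i + (l + 1))) atTop (𝓝 (pr α j i * v (j + i))) := by
      simp_rw [pr_add]
      exact (hv (j + i)).const_mul _
    exact tendsto_nhds_unique h1 h2
  have hhalf : Tendsto (fun n : ℕ => (1 / 2 : ℝ) ^ n) atTop (𝓝 0) :=
    tendsto_pow_atTop_nhds_zero_of_lt_one (by norm_num) (by norm_num)
  have hvbound : ∀ j, ‖v j‖ ≤ 2 * L := by
    intro j
    have h1 : ‖v j‖ ≤ ‖α j‖ + ‖α j - v j‖ := by
      calc ‖v j‖ = ‖α j - (α j - v j)‖ := by congr 1; abel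
        _ ≤ _ := norm_sub_le _ _
    have h2 : (1 / 2 : ℝ) ^ j ≤ 1 := pow_le_one₀ (by norm_num) (by norm_num)
    have := hv1 j
    have := hα j
    nlinarith
  refine ⟨v, ?_, ?_, ?_⟩
  · intro j
    have := hfin j
    have hle : (v j).toLinearMap.range ≤ (α j).toLinearMap.range := by
      rintro _ ⟨x, rfl⟩
      refine ⟨v (j + 1) x, ?_⟩
      have h1 := hv2 j 1
      rw [pr_one] at h1
      conv_rhs => rw [h1]
      rfl
    exact Submodule.finiteDimensional_of_le hle
  · intro x
    have h1 : Tendsto (fun n => α n x - v n x) atTop (𝓝 0) := by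
      have h2 : Tendsto (fun n : ℕ => L * (1 / 2 : ℝ) ^ n * ‖x‖) atTop (𝓝 0) := by
        have := (hhalf.const_mul L).mul_const ‖x‖
        simpa using this
      refine squeeze_zero_norm (fun n => ?_) h2
      exact (α n - v n).le_of_opNorm_le (hv1 n) x
    have := (ht x).sub h1
    simpa using this
  · intro m
    -- the consecutive errors
    have he : Tendsto (fun n => ‖v n * v (n + 1) - v n‖) atTop (𝓝 0) := by
      have hbd : ∀ n, ‖v n * v (n + 1) - v n‖ ≤
          (L * (1 / 2) ^ n) * (2 * L + 1) + L * (L * (1 / 2) ^ n) + (1 / 4 * (1 / 2) ^ n) := by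
        intro n
        have e1 : v n * v (n + 1) - v n = -((α n - v n) * (v (n + 1) - 1)) -
            α n * (α (n + 1) - v (n + 1)) + (α n * α (n + 1) - α n) := by
          noncomm_ring
        rw [e1]
        refine (norm_add_le _ _).trans (add_le_add ((norm_sub_le _ _).trans (add_le_add ?_ ?_)) (h n))
        · rw [norm_neg]
          refine (norm_mul_le _ _).trans (mul_le_mul (hv1 n) ?_ (norm_nonneg _) (by positivity))
          refine (norm_sub_le _ _).trans (add_le_add (hvbound _) ?_)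
          exact ContinuousLinearMap.norm_id_le
        · refine (norm_mul_le _ _).trans (mul_le_mul (hα n) ((hv1 (n + 1)).trans ?_)
            (norm_nonneg _) (by linarith))
          refine mul_le_mul_of_nonneg_left ?_ (by linarith)
          exact pow_le_pow_of_le_one (by norm_num) (by norm_num) (Nat.le_succ n)
      have hlim : Tendsto (fun n : ℕ => (L * (1 / 2) ^ n) * (2 * L + 1) + L * (L * (1 / 2) ^ n) +
          (1 / 4 * (1 / 2) ^ n)) atTop (𝓝 0) := by
        have a1 := (hhalf.const_mul L).mul_const (2 * L + 1)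
        have a2 := (hhalf.const_mul L).const_mul L
        have a3 := hhalf.const_mul (1 / 4)
        have := (a1.add a2).add a3
        simpa using this
      exact squeeze_zero (fun n => norm_nonneg _) hbd hlim
    rw [← tendsto_add_atTop_iff_nat (m + 1)]
    have he2 : Tendsto (fun n => 2 * L * ‖v (n + m) * v (n + m + 1) - v (n + m)‖) atTop (𝓝 0) := by
      have := ((tendsto_add_atTop_iff_nat (f := fun n => ‖v n * v (n + 1) - v n‖) m).mpr he).const_mul
        (2 * L)
      simpa using this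
    refine squeeze_zero (fun n => norm_nonneg _) (fun n => ?_) he2
    have e1 : v m * v (n + (m + 1)) - v m = pr α m n * (v (n + m) * v (n + m + 1) - v (n + m)) := by
      have h1 := hv2 m n
      rw [Nat.add_comm m n] at h1
      rw [mul_sub, ← mul_assoc, ← h1]
      rfl
    rw [e1]
    exact (norm_mul_le _ _).trans (mul_le_mul_of_nonneg_right (hb m n).2 (norm_nonneg _))

end Products

end Pool.Agent.Lib.MP_355270_an
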