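import Mathlib
import Pool.Agent.Lib.MP_355270_an.Average
import Pool.Agent.Lib.MP_355270_an.Products
import Pool.Agent.Lib.MP_355270_an.Perturb

open Filter Topology
open scoped ENNReal

namespace Pool.Agent.Lib.MP_355270_an

section Converse

variable {𝕜 : Type*} [RCLike 𝕜]
variable {G : ℕ → Type*} [∀ k, NormedAddCommGroup (G k)] [∀ k, NormedSpace 𝕜 (G k)]
variable {E : Type*} [NormedAddCommGroup E] [NormedSpace 𝕜 E]
variable {p : ℝ≥0∞} [Fact (1 ≤ p)]

/-- A commuting approximative basis passes from `E × (⊕ G n)_p` to `E`, for `1 < p < ∞`. -/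
theorem converse [CompleteSpace E] [∀ k, FiniteDimensional 𝕜 (G k)] (hp : p ≠ ∞) (hp1 : 1 < p)
    (T : ℕ → (E × lp G p) →L[𝕜] (E × lp G p))
    (hTfin : ∀ n, FiniteDimensional 𝕜 (T n).toLinearMap.range)
    (hTt : ∀ z, Tendsto (fun n => T n z) atTop (𝓝 z))
    (hT : ∀ n m, n ≠ m → (T n).comp (T m) = T (min n m)) :
    ∃ w : ℕ → E →L[𝕜] E, (∀ n, FiniteDimensional 𝕜 (w n).toLinearMap.range) ∧
      (∀ x, Tendsto (fun n => w n x) atTop (𝓝 x)) ∧
      (∀ n m, n ≠ m → (w n).comp (w m) = w (min n m)) := by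
  classical
  have hGc : ∀ k, CompleteSpace (G k) := fun k => FiniteDimensional.complete 𝕜 (G k)
  obtain ⟨K, hK⟩ : ∃ K : ℝ, ∀ n, ‖T n‖ ≤ K := by
    apply banach_steinhaus
    intro x
    obtain ⟨M, hM⟩ := isBounded_iff_forall_norm_le.mp
      (Metric.isBounded_range_of_tendsto (fun n => T n x) (hTt x))
    exact ⟨M, Set.forall_mem_range.mp hM⟩
  have hK0 : 0 ≤ K := (norm_nonneg _).trans (hK 0)
  let a : ℕ → E →L[𝕜] E := fun m => (ContinuousLinearMap.fst 𝕜 E (lp G p)).comp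
    ((T m).comp (ContinuousLinearMap.inl 𝕜 E (lp G p)))
  let b : ℕ → lp G p →L[𝕜] E := fun m => (ContinuousLinearMap.fst 𝕜 E (lp G p)).comp
    ((T m).comp (ContinuousLinearMap.inr 𝕜 E (lp G p)))
  let c : ℕ → E →L[𝕜] lp G p := fun m => (ContinuousLinearMap.snd 𝕜 E (lp G p)).comp
    ((T m).comp (ContinuousLinearMap.inl 𝕜 E (lp G p)))
  have ha : ∀ m x, a m x = (T m (x, 0)).1 := fun m x => rfl
  have hb : ∀ m r, b m r = (T m (0, r)).1 := fun m r => rfl
  have hc : ∀ m x, c m x = (T m (x, 0)).2 := fun m x => rfl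
  have hnx : ∀ x : E, ‖((x, 0) : E × lp G p)‖ = ‖x‖ := by
    intro x
    rw [Prod.norm_def]
    simp
  have hnr : ∀ r : lp G p, ‖((0, r) : E × lp G p)‖ = ‖r‖ := by
    intro r
    rw [Prod.norm_def]
    simp
  have haK : ∀ m, ‖a m‖ ≤ K := fun m =>
    ContinuousLinearMap.opNorm_le_bound _ hK0 (fun x => by
      rw [ha, ← hnx x]
      exact (norm_fst_le _).trans ((T m).le_of_opNorm_le (hK m) _))
  have hbK : ∀ m, ‖b m‖ ≤ K := fun m =>
    ContinuousLinearMap.opNorm_le_bound _ hK0 (fun r => by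
      rw [hb, ← hnr r]
      exact (norm_fst_le _).trans ((T m).le_of_opNorm_le (hK m) _))
  have hcK : ∀ m x, ‖c m x‖ ≤ K * ‖x‖ := fun m x => by
      rw [hc, ← hnx x]
      exact (norm_snd_le _).trans ((T m).le_of_opNorm_le (hK m) _)
  have hafin : ∀ m, FiniteDimensional 𝕜 (a m).toLinearMap.range := by
    intro m
    have := hTfin m
    have hle : (a m).toLinearMap.range ≤
        (T m).toLinearMap.range.map (LinearMap.fst 𝕜 E (lp G p)) := by
      rintro _ ⟨x, rfl⟩
      exact ⟨T m (x, 0), ⟨(x, 0), rfl⟩, rfl⟩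
    exact Submodule.finiteDimensional_of_le hle
  have hbfin : ∀ m, FiniteDimensional 𝕜 (b m).toLinearMap.range := by
    intro m
    have := hTfin m
    have hle : (b m).toLinearMap.range ≤
        (T m).toLinearMap.range.map (LinearMap.fst 𝕜 E (lp G p)) := by
      rintro _ ⟨x, rfl⟩
      exact ⟨T m (0, x), ⟨(0, x), rfl⟩, rfl⟩
    exact Submodule.finiteDimensional_of_le hle
  have hat : ∀ x, Tendsto (fun m => a m x) atTop (𝓝 x) := by
    intro x
    exact (continuous_fst.tendsto ((x, 0) : E × lp G p)).comp (hTt (x, 0))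
  have hbt : ∀ r, Tendsto (fun m => b m r) atTop (𝓝 0) := by
    intro r
    exact (continuous_fst.tendsto ((0, r) : E × lp G p)).comp (hTt (0, r))
  have hrel : ∀ m n, m < n → ∀ x, a m (a n x) = a m x - b m (c n x) := by
    intro m n hmn x
    have h1 : T m (T n (x, 0)) = T m (x, 0) := by
      have := hT m n hmn.ne
      rw [min_eq_left hmn.le] at this
      exact congrArg (fun f => f (x, 0)) this
    have h2 : T n (x, 0) = (a n x, 0) + (0, c n x) := by
      rw [ha, hc]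
      refine Prod.ext ?_ ?_ <;> simp
    rw [h2, map_add] at h1
    have h3 := congrArg Prod.fst h1
    rw [Prod.fst_add] at h3
    rw [ha m (a n x), ha m x, hb m (c n x), ← h3]
    abel
  clear_value a b c
  -- the blocks of indices
  set L : ℝ := max K 1 with hL
  have hL1 : 1 ≤ L := le_max_right _ _
  have hLpos : 0 < L := lt_of_lt_of_le one_pos hL1
  have hKL : K ≤ L := le_max_left _ _
  have hε : ∀ j : ℕ, 0 < 1 / 4 * (1 / 2 : ℝ) ^ j / L := fun j => by positivity
  have hex := fun (m0 j : ℕ) => small_average hp hp1 b K hbK hbfin hbt m0 (hε j)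
  choose F hF1 hF2 hF3 using hex
  let S : ℕ → Finset ℕ := fun j => Nat.rec (F 0 0) (fun j s => F (s.sup id + 1) (j + 1)) j
  have hS : ∀ j, S (j + 1) = F ((S j).sup id + 1) (j + 1) := fun j => rfl
  have hS1 : ∀ j, (S j).Nonempty := by
    intro j
    cases j with
    | zero => exact hF1 0 0
    | succ j => rw [hS]; exact hF1 _ _
  have hS3 : ∀ j, ‖∑ m ∈ S j, b m‖ ≤ 1 / 4 * (1 / 2 : ℝ) ^ j / L * (S j).card := by
    intro j
    cases j with
    | zero => exact hF3 0 0
    | succ j => rw [hS]; exact hF3 _ _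
  have hSlt : ∀ j, ∀ m ∈ S j, ∀ n ∈ S (j + 1), m < n := by
    intro j m hm n hn
    rw [hS] at hn
    have h1 := hF2 _ _ n hn
    have h2 : m ≤ (S j).sup id := Finset.le_sup (f := id) hm
    omega
  have hSge : ∀ j, ∀ m ∈ S j, j ≤ m := by
    intro j
    induction j with
    | zero => intro m _; exact Nat.zero_le _
    | succ j ih =>
      intro n hn
      obtain ⟨m, hm⟩ := hS1 j
      have h1 := ih m hm
      have h2 := hSlt j m hm n hn
      omega
  have hcard : ∀ j, ((S j).card : 𝕜) ≠ 0 := by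
    intro j
    exact_mod_cast (Finset.card_pos.mpr (hS1 j)).ne'
  have hcardR : ∀ j, (0 : ℝ) < (S j).card := by
    intro j
    exact_mod_cast Finset.card_pos.mpr (hS1 j)
  have hninv : ∀ j, ‖((S j).card : 𝕜)⁻¹‖ = ((S j).card : ℝ)⁻¹ := by
    intro j
    rw [norm_inv, RCLike.norm_natCast]
  clear_value S
  -- averages
  set α : ℕ → E →L[𝕜] E := fun j => ((S j).card : 𝕜)⁻¹ • ∑ m ∈ S j, a m with hα
  set β : ℕ → lp G p →L[𝕜] E := fun j => ((S j).card : 𝕜)⁻¹ • ∑ m ∈ S j, b m with hβ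
  have hαapp : ∀ j x, α j x = ((S j).card : 𝕜)⁻¹ • ∑ m ∈ S j, a m x := by
    intro j x
    simp only [hα]
    rw [_root_.smul_apply, _root_.sum_apply]
  have hβapp : ∀ j r, β j r = ((S j).card : 𝕜)⁻¹ • ∑ m ∈ S j, b m r := by
    intro j r
    simp only [hβ]
    rw [_root_.smul_apply, _root_.sum_apply]
  have hβn : ∀ j, ‖β j‖ ≤ 1 / 4 * (1 / 2 : ℝ) ^ j / L := by
    intro j
    simp only [hβ]
    rw [norm_smul, hninv, inv_mul_le_iff₀ (hcardR j), mul_comm]
    exact hS3 j
  have hαL : ∀ j, ‖α j‖ ≤ L := by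
    intro j
    simp only [hα]
    rw [norm_smul, hninv, inv_mul_le_iff₀ (hcardR j)]
    calc ‖∑ m ∈ S j, a m‖ ≤ ∑ m ∈ S j, ‖a m‖ := norm_sum_le _ _
      _ ≤ ∑ m ∈ S j, L := Finset.sum_le_sum (fun m _ => (haK m).trans hKL)
      _ = (S j).card * L := by rw [Finset.sum_const, nsmul_eq_mul]
  have hαfin : ∀ j, FiniteDimensional 𝕜 (α j).toLinearMap.range := by
    intro j
    have hsum : ∀ s : Finset ℕ, FiniteDimensional 𝕜 (∑ m ∈ s, a m).toLinearMap.range := by
      intro s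
      induction s using Finset.induction_on with
      | empty =>
        have : (∑ m ∈ (∅ : Finset ℕ), a m).toLinearMap.range = ⊥ := by
          ext x; simp
        rw [this]
        infer_instance
      | insert i s hi ih =>
        rw [Finset.sum_insert hi]
        exact finite_add (hafin i) ih
    have := hsum (S j)
    have hle : (α j).toLinearMap.range ≤ (∑ m ∈ S j, a m).toLinearMap.range := by
      rintro _ ⟨x, rfl⟩
      refine ⟨((S j).card : 𝕜)⁻¹ • x, ?_⟩
      simp only [hα, ContinuousLinearMap.coe_coe]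
      rw [map_smul]
      rfl
    exact Submodule.finiteDimensional_of_le hle
  have hαt : ∀ x, Tendsto (fun j => α j x) atTop (𝓝 x) := by
    intro x
    rw [Metric.tendsto_atTop]
    intro ε hε
    obtain ⟨M, hM⟩ := Metric.tendsto_atTop.mp (hat x) (ε / 2) (half_pos hε)
    refine ⟨M, fun j hj => ?_⟩
    rw [dist_eq_norm]
    have e1 : α j x - x = ((S j).card : 𝕜)⁻¹ • ∑ m ∈ S j, (a m x - x) := by
      rw [hαapp, Finset.sum_sub_distrib, smul_sub, Finset.sum_const]
      congr 1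
      rw [← Nat.cast_smul_eq_nsmul 𝕜, smul_smul, inv_mul_cancel₀ (hcard j), one_smul]
    rw [e1, norm_smul, hninv]
    have e2 : ‖∑ m ∈ S j, (a m x - x)‖ ≤ (S j).card * (ε / 2) := by
      calc ‖∑ m ∈ S j, (a m x - x)‖ ≤ ∑ m ∈ S j, ‖a m x - x‖ := norm_sum_le _ _
        _ ≤ ∑ m ∈ S j, ε / 2 := by
          refine Finset.sum_le_sum (fun m hm => ?_)
          have := hM m (hj.trans (hSge j m hm))
          rw [dist_eq_norm] at this
          exact this.le
        _ = _ := by rw [Finset.sum_const, nsmul_eq_mul]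
    have e3 : ((S j).card : ℝ)⁻¹ * ‖∑ m ∈ S j, (a m x - x)‖ ≤ ε / 2 := by
      rw [inv_mul_le_iff₀ (hcardR j)]
      exact e2
    linarith
  have hαα : ∀ j, ‖α j * α (j + 1) - α j‖ ≤ 1 / 4 * (1 / 2 : ℝ) ^ j := by
    intro j
    refine ContinuousLinearMap.opNorm_le_bound _ (by positivity) (fun x => ?_)
    set γ : lp G p := ((S (j + 1)).card : 𝕜)⁻¹ • ∑ n ∈ S (j + 1), c n x with hγ
    have hone : ∀ n ∈ S (j + 1), α j (a n x) = α j x - β j (c n x) := by
      intro n hn
      rw [hαapp, hαapp, hβapp, ← smul_sub, ← Finset.sum_sub_distrib]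
      congr 1
      exact Finset.sum_congr rfl (fun m hm => hrel m n (hSlt j m hm n hn) x)
    have e1 : α j (α (j + 1) x) = α j x - β j γ := by
      rw [hαapp (j + 1) x, map_smul, map_sum, Finset.sum_congr rfl hone, Finset.sum_sub_distrib,
        Finset.sum_const, smul_sub]
      congr 1
      · rw [← Nat.cast_smul_eq_nsmul 𝕜, smul_smul, inv_mul_cancel₀ (hcard (j + 1)), one_smul]
      · rw [hγ, map_smul, map_sum]
    have e2 : (α j * α (j + 1) - α j) x = -(β j γ) := by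
      show α j (α (j + 1) x) - α j x = _
      rw [e1]
      abel
    rw [e2, norm_neg]
    have e3 : ‖γ‖ ≤ L * ‖x‖ := by
      rw [hγ, norm_smul, hninv, inv_mul_le_iff₀ (hcardR (j + 1))]
      calc ‖∑ n ∈ S (j + 1), c n x‖ ≤ ∑ n ∈ S (j + 1), ‖c n x‖ := norm_sum_le _ _
        _ ≤ ∑ n ∈ S (j + 1), L * ‖x‖ := Finset.sum_le_sum (fun n _ => (hcK n x).trans
            (mul_le_mul_of_nonneg_right hKL (norm_nonneg _)))
        _ = _ := by rw [Finset.sum_const, nsmul_eq_mul]
    calc ‖β j γ‖ ≤ (1 / 4 * (1 / 2 : ℝ) ^ j / L) * ‖γ‖ := (β j).le_of_opNorm_le (hβn j) γ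
      _ ≤ (1 / 4 * (1 / 2 : ℝ) ^ j / L) * (L * ‖x‖) :=
        mul_le_mul_of_nonneg_left e3 (by positivity)
      _ = 1 / 4 * (1 / 2 : ℝ) ^ j * ‖x‖ := by
        field_simp
  obtain ⟨v, hv1, hv2, hv3⟩ := exists_products α L hL1 hαL hαfin hαα hαt
  exact exists_commuting hv1 hv3 hv2

end Converse

end Pool.Agent.Lib.MP_355270_an
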