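import Mathlib
import Pool.Agent.Lib.MP_355270_an.Final

open Filter Topology
open scoped ENNReal

namespace Pool.Agent.Lib.MP_355270_an.EndpointOne

universe u

/-- `E` has an approximative basis: bounded operators `v n` on `E` of finite rank with
`v n x → x` for every `x`. -/
def HasApproximativeBasis (𝕜 : Type) [RCLike 𝕜] (E : Type u) [NormedAddCommGroup E]
    [NormedSpace 𝕜 E] : Prop :=
  ∃ v : ℕ → E →L[𝕜] E, (∀ n, FiniteDimensional 𝕜 (v n).toLinearMap.range) ∧
    ∀ x, Tendsto (fun n => v n x) atTop (𝓝 x)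

/-- The sequences `(G n)` of finite-dimensional spaces admitted in the definition of `C_p`:
(i) every finite-dimensional space is `(1 + ε)`-isomorphic to some `G n`, for every `ε > 0`;
(ii) every `G i` is isometric to `G j` for infinitely many `j`. -/
structure IsAdmissible (𝕜 : Type) [RCLike 𝕜] (G : ℕ → Type u) [∀ n, NormedAddCommGroup (G n)]
    [∀ n, NormedSpace 𝕜 (G n)] : Prop where
  finite : ∀ n, FiniteDimensional 𝕜 (G n)
  dense : ∀ (A : Type u) [NormedAddCommGroup A] [NormedSpace 𝕜 A] [FiniteDimensional 𝕜 A]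
    (ε : ℝ), 0 < ε → ∃ n, ∃ T : A ≃L[𝕜] G n,
      ‖(T : A →L[𝕜] G n)‖ * ‖(T.symm : G n →L[𝕜] A)‖ ≤ 1 + ε
  repeated : ∀ i, {j | Nonempty (G i ≃ₗᵢ[𝕜] G j)}.Infinite

/-- **The case `p = 1`.** For every admissible sequence `(G n)`, with `C_1 = (⊕ G n)_{ℓ¹}`, and
every Banach space `E` (over `ℝ` or `ℂ`): `E × C_1` has a Schauder basis if and only if `E` has an
approximative basis. -/
theorem result (𝕜 : Type) [RCLike 𝕜] (G : ℕ → Type u) [∀ n, NormedAddCommGroup (G n)]
    [∀ n, NormedSpace 𝕜 (G n)] (hG : IsAdmissible 𝕜 G)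
    (E : Type u) [NormedAddCommGroup E] [NormedSpace 𝕜 E] [CompleteSpace E] :
    Nonempty (SchauderBasis 𝕜 (E × lp G 1)) ↔ HasApproximativeBasis 𝕜 E := by
  constructor
  · intro h
    exact Pool.Agent.Lib.MP_355270_an.approx_of_basis h
  · rintro ⟨v, hv1, hv2⟩
    exact Pool.Agent.Lib.MP_355270_an.main hG.finite hG.dense hG.repeated v hv1 hv2

end Pool.Agent.Lib.MP_355270_an.EndpointOne
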