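import Mathlib
import Pool.Agent.Lib.MP_355270_an.Final
import Pool.Agent.Lib.MP_355270_an.StepCp
import Pool.Agent.Lib.MP_355270_an.AbsorbP

open Filter Topology
open scoped ENNReal

namespace Pool.Agent.Lib.MP_355270_an

universe u

section Assemble

variable {𝕜 : Type} [RCLike 𝕜]

/-- If `E × (⊕ F n)_p` has a finite-dimensional decomposition, for some sequence of
finite-dimensional spaces `F n`, then `E × C_p` has a basis. -/
theorem assemble {p : ℝ≥0∞} [Fact (1 ≤ p)] (hp : p ≠ ∞)
    {G : ℕ → Type u} [∀ n, NormedAddCommGroup (G n)]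
    [∀ n, NormedSpace 𝕜 (G n)] (h0 : ∀ n, FiniteDimensional 𝕜 (G n))
    (h1 : ∀ (A : Type u) [NormedAddCommGroup A] [NormedSpace 𝕜 A] [FiniteDimensional 𝕜 A] (ε : ℝ),
      0 < ε → ∃ n, ∃ T : A ≃L[𝕜] G n,
        ‖(T : A →L[𝕜] G n)‖ * ‖(T.symm : G n →L[𝕜] A)‖ ≤ 1 + ε)
    (h2 : ∀ i, {j | Nonempty (G i ≃ₗᵢ[𝕜] G j)}.Infinite)
    {F : ℕ → Type u} [∀ n, NormedAddCommGroup (F n)]
    [∀ n, NormedSpace 𝕜 (F n)] [∀ n, FiniteDimensional 𝕜 (F n)]
    {E : Type u} [NormedAddCommGroup E] [NormedSpace 𝕜 E] [CompleteSpace E]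
    (q : ℕ → (E × lp F p) →L[𝕜] (E × lp F p))
    (hq1 : ∀ n m x, q n (q m x) = q (min n m) x)
    (hq2 : ∀ n, FiniteDimensional 𝕜 (q n).toLinearMap.range)
    (hq3 : ∀ x, Tendsto (fun n => q n x) atTop (𝓝 x)) :
    Nonempty (SchauderBasis 𝕜 (E × lp G p)) := by
  classical
  have hGc : ∀ n, CompleteSpace (G n) := fun n => FiniteDimensional.complete 𝕜 (G n)
  have hFc : ∀ n, CompleteSpace (F n) := fun n => FiniteDimensional.complete 𝕜 (F n)
  let P : ℕ → ((E × lp F p) × lp G p →L[𝕜] (E × lp F p) × lp G p) := fun n =>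
    match n with
    | 0 => 0
    | m + 1 => (q m).prodMap (tau 𝕜 (G := G) p m)
  have hPs : ∀ m z, P (m + 1) z = (q m z.1, tau 𝕜 (G := G) p m z.2) := fun m z => rfl
  have hP0 : P 0 = 0 := rfl
  have hcomp : ∀ n m x, P n (P m x) = P (min n m) x := by
    intro n m x
    cases n with
    | zero => rw [hP0, Nat.zero_min, hP0]; rfl
    | succ n =>
      cases m with
      | zero => rw [Nat.min_zero, hP0]; simp
      | succ m =>
        rw [Nat.add_min_add_right, hPs, hPs, hPs]
        refine Prod.ext ?_ ?_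
        · exact hq1 n m x.1
        · exact tau_comp 𝕜 p n m x.2
  have hPfin : ∀ n, FiniteDimensional 𝕜 (P n).toLinearMap.range := by
    intro n
    cases n with
    | zero =>
      rw [hP0]
      have : (0 : (E × lp F p) × lp G p →L[𝕜]
          (E × lp F p) × lp G p).toLinearMap.range = ⊥ := by
        ext x; simp
      rw [this]
      infer_instance
    | succ n =>
      have f1 := hq2 n
      have f2 : FiniteDimensional 𝕜 (tau 𝕜 (G := G) p n).toLinearMap.range :=
        tau_finite (H := G) 𝕜 p n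
      have hle : (P (n + 1)).toLinearMap.range ≤
          (q n).toLinearMap.range.map (LinearMap.inl 𝕜 (E × lp F p) (lp G p)) ⊔
          (tau 𝕜 (G := G) p n).toLinearMap.range.map (LinearMap.inr 𝕜 (E × lp F p) (lp G p)) := by
        rintro _ ⟨z, rfl⟩
        have hz : (P (n + 1)).toLinearMap z =
            LinearMap.inl 𝕜 (E × lp F p) (lp G p) (q n z.1) +
            LinearMap.inr 𝕜 (E × lp F p) (lp G p) (tau 𝕜 (G := G) p n z.2) := by
          refine Prod.ext ?_ ?_
          · show q n z.1 = q n z.1 + 0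
            rw [add_zero]
          · show tau 𝕜 (G := G) p n z.2 = 0 + tau 𝕜 (G := G) p n z.2
            rw [zero_add]
        rw [hz]
        exact Submodule.add_mem_sup (Submodule.mem_map_of_mem ⟨_, rfl⟩)
          (Submodule.mem_map_of_mem ⟨_, rfl⟩)
      exact Submodule.finiteDimensional_of_le hle
  have hPt : ∀ x, Tendsto (fun n => P n x) atTop (𝓝 x) := by
    intro x
    rw [← tendsto_add_atTop_iff_nat 1]
    have a1 := hq3 x.1
    have a2 := tendsto_tau (G := G) 𝕜 hp x.2
    exact a1.prodMk_nhds a2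
  have hcand := fun (A : Type u) [NormedAddCommGroup A] [NormedSpace 𝕜 A] [FiniteDimensional 𝕜 A] =>
    infinite_candidates h1 h2 A
  have hinf : ¬ FiniteDimensional 𝕜 ((E × lp F p) × lp G p) := by
    intro hfd
    have hfdG : FiniteDimensional 𝕜 (lp G p) :=
      FiniteDimensional.of_injective
        (LinearMap.inr 𝕜 (E × lp F p) (lp G p)) LinearMap.inr_injective
    set d := Module.finrank 𝕜 (lp G p) with hd
    obtain ⟨n, T, -⟩ := h1 (ULift.{u} (Fin (d + 1) → 𝕜)) 1 one_pos
    have e1 : Module.finrank 𝕜 (G n) = d + 1 := by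
      rw [← T.toLinearEquiv.finrank_eq, (ULift.moduleEquiv (R := 𝕜)
        (M := Fin (d + 1) → 𝕜)).finrank_eq, Module.finrank_fin_fun]
    have e2 : Module.finrank 𝕜 (G n) ≤ d := by
      refine LinearMap.finrank_le_finrank_of_injective
        (f := (lp.singleContinuousLinearMap 𝕜 G p n).toLinearMap) ?_
      intro x y hxy
      have h3 : lp.singleContinuousLinearMap 𝕜 G p n x = lp.singleContinuousLinearMap 𝕜 G p n y :=
        hxy
      have h4 := congrArg (lp.evalCLM 𝕜 G p n) h3
      rwa [evp_sgp, evp_sgp] at h4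
    omega
  obtain ⟨H, i1, i2, i3, hbasis⟩ := basis_of_fdd_p hp P hP0 hcomp hPfin hPt hinf
  have hHc : ∀ n, CompleteSpace (H n) := fun n => FiniteDimensional.complete 𝕜 (H n)
  -- absorption
  obtain ⟨e1⟩ := absorbP (𝕜 := 𝕜) (F := F) (G := G) hp 2 one_le_two (fun n => hcand (F n))
    (fun n => hcand (G n))
  obtain ⟨e2⟩ := absorbP (𝕜 := 𝕜) (F := H) (G := G) hp 2 one_le_two (fun n => hcand (H n))
    (fun n => hcand (G n))
  let a1 : ((E × lp F p) × lp G p) ≃L[𝕜] E × lp G p :=
    (ContinuousLinearEquiv.prodAssoc 𝕜 E (lp F p) (lp G p)).trans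
      ((ContinuousLinearEquiv.refl 𝕜 E).prodCongr e1)
  let a2 : (((E × lp F p) × lp G p) × lp H p) ≃L[𝕜] E × lp G p :=
    ((a1.prodCongr (ContinuousLinearEquiv.refl 𝕜 (lp H p))).trans
      (ContinuousLinearEquiv.prodAssoc 𝕜 E (lp G p) (lp H p))).trans
      ((ContinuousLinearEquiv.refl 𝕜 E).prodCongr
        ((ContinuousLinearEquiv.prodComm 𝕜 (lp G p) (lp H p)).trans e2))
  exact basis_transport a2 hbasis

end Assemble

section Commuting

variable {𝕜 : Type} [RCLike 𝕜]

/-- Johnson's theorem: a commuting approximative basis of `E` gives a basis of `E × C_p`. -/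
theorem basis_of_commuting {p : ℝ≥0∞} [Fact (1 ≤ p)] (hp : p ≠ ∞)
    {G : ℕ → Type u} [∀ n, NormedAddCommGroup (G n)]
    [∀ n, NormedSpace 𝕜 (G n)] (h0 : ∀ n, FiniteDimensional 𝕜 (G n))
    (h1 : ∀ (A : Type u) [NormedAddCommGroup A] [NormedSpace 𝕜 A] [FiniteDimensional 𝕜 A] (ε : ℝ),
      0 < ε → ∃ n, ∃ T : A ≃L[𝕜] G n,
        ‖(T : A →L[𝕜] G n)‖ * ‖(T.symm : G n →L[𝕜] A)‖ ≤ 1 + ε)
    (h2 : ∀ i, {j | Nonempty (G i ≃ₗᵢ[𝕜] G j)}.Infinite)
    {E : Type u} [NormedAddCommGroup E] [NormedSpace 𝕜 E] [CompleteSpace E]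
    (w : ℕ → E →L[𝕜] E) (hw1 : ∀ n, FiniteDimensional 𝕜 (w n).toLinearMap.range)
    (hw2 : ∀ x, Tendsto (fun n => w n x) atTop (𝓝 x))
    (hw3 : ∀ n m, n ≠ m → (w n).comp (w m) = w (min n m)) :
    Nonempty (SchauderBasis 𝕜 (E × lp G p)) := by
  classical
  obtain ⟨K, hK⟩ : ∃ K : ℝ, ∀ n, ‖w n‖ ≤ K := by
    apply banach_steinhaus
    intro x
    obtain ⟨M, hM⟩ := isBounded_iff_forall_norm_le.mp
      (Metric.isBounded_range_of_tendsto (fun n => w n x) (hw2 x))
    exact ⟨M, Set.forall_mem_range.mp hM⟩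
  have hlt : ∀ m n, m < n → ∀ x, w m (w n x) = w m x := by
    intro m n hmn x
    have := hw3 m n hmn.ne
    rw [min_eq_left hmn.le] at this
    exact congrArg (fun f => f x) this
  have hgt : ∀ m n, m < n → ∀ x, w n (w m x) = w m x := by
    intro m n hmn x
    have := hw3 n m hmn.ne'
    rw [min_eq_right hmn.le] at this
    exact congrArg (fun f => f x) this
  -- the defect operators and their ranges
  set d : ℕ → E →L[𝕜] E := fun n => (w n).comp (1 - w n) with hd
  have hdapp : ∀ n x, d n x = w n (x - w n x) := fun n x => rfl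
  set F : ℕ → Submodule 𝕜 E := fun n => (d n).toLinearMap.range with hF
  have hFfin : ∀ n, FiniteDimensional 𝕜 (F n) := by
    intro n
    have := hw1 n
    have hle : F n ≤ (w n).toLinearMap.range := by
      rintro _ ⟨x, rfl⟩
      exact ⟨x - w n x, rfl⟩
    exact Submodule.finiteDimensional_of_le hle
  have hFc : ∀ n, CompleteSpace (F n) := fun n => FiniteDimensional.complete 𝕜 (F n)
  have hFinv : ∀ n (t : F n), (t : E) - w n t ∈ F n := by
    rintro n ⟨_, x, rfl⟩
    refine ⟨x - w n x, ?_⟩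
    show w n ((x - w n x) - w n (x - w n x)) = w n (x - w n x) - w n (w n (x - w n x))
    rw [map_sub]
  have hF1 : ∀ m n, m < n → ∀ t : F n, w m (t : E) = 0 := by
    rintro m n hmn ⟨_, x, rfl⟩
    show w m (w n (x - w n x)) = 0
    rw [hlt m n hmn, map_sub, hlt m n hmn, sub_self]
  have hF2 : ∀ m n, m < n → ∀ t : F m, w n (t : E) = t := by
    rintro m n hmn ⟨_, x, rfl⟩
    show w n (w m (x - w m x)) = w m (x - w m x)
    rw [hgt m n hmn]
  -- block operators
  let S := lp (fun n => ↥(F n)) p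
  let sg : ∀ n, F n →L[𝕜] lp (fun n => ↥(F n)) p := fun n =>
    lp.singleContinuousLinearMap 𝕜 (fun n => ↥(F n)) p n
  let ev : ∀ n, lp (fun n => ↥(F n)) p →L[𝕜] F n := fun n =>
    lp.evalCLM 𝕜 (fun n => ↥(F n)) p n
  let τ : ℕ → lp (fun n => ↥(F n)) p →L[𝕜] lp (fun n => ↥(F n)) p := fun n =>
    tau 𝕜 (G := fun n => ↥(F n)) p n
  have hτs : ∀ n k (a : F k), τ n (sg k a) = if k < n then sg k a else 0 := fun n k a =>
    tau_sgp 𝕜 (H := fun n => ↥(F n)) p n k a
  have hes : ∀ n (a : F n), ev n (sg n a) = a := fun n a =>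
    evp_sgp 𝕜 (H := fun n => ↥(F n)) p n a
  have hesne : ∀ n k (a : F k), n ≠ k → ev n (sg k a) = 0 := fun n k a hnk => by
    show (lp.single p k a : lp (fun n => ↥(F n)) p) n = 0
    rw [lp.single_apply_ne _ _ _ hnk]
  have heτ : ∀ n k t, ev n (τ k t) = if n < k then ev n t else 0 := fun n k t =>
    tau_coe 𝕜 (G := fun n => ↥(F n)) p k t n
  have hττ : ∀ n k t, τ n (τ k t) = τ (min n k) t := fun n k t =>
    tau_comp 𝕜 (G := fun n => ↥(F n)) p n k t
  have hτt : ∀ t, Tendsto (fun n => τ n t) atTop (𝓝 t) := fun t =>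
    tendsto_tau 𝕜 (G := fun n => ↥(F n)) hp t
  have hsgn : ∀ n a, ‖sg n a‖ ≤ ‖a‖ := fun n a => norm_sgp_le 𝕜 (H := fun n => ↥(F n)) p n a
  have hτfin : ∀ n, FiniteDimensional 𝕜 (τ n).toLinearMap.range := fun n =>
    tau_finite (H := fun n => ↥(F n)) 𝕜 p n
  have htail : ∀ t : lp (fun n => ↥(F n)) p, Tendsto (fun n => ‖ev n t‖) atTop (𝓝 0) := by
    intro t
    have h1 : Tendsto (fun n => ‖t - τ n t‖) atTop (𝓝 0) := by
      have : Tendsto (fun n => t - τ n t) atTop (𝓝 (t - t)) := tendsto_const_nhds.sub (hτt t)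
      rw [sub_self] at this
      simpa using this.norm
    refine squeeze_zero (fun n => norm_nonneg _) (fun n => ?_) h1
    have h2 : ev n t = ev n (t - τ n t) := by
      rw [map_sub, heτ, if_neg (lt_irrefl _), sub_zero]
    rw [h2]
    exact norm_evp_le 𝕜 (H := fun n => ↥(F n)) p n _
  clear_value sg ev τ
  let dr : ∀ n, E →L[𝕜] F n := fun n => (d n).codRestrict (F n) (fun x => ⟨x, rfl⟩)
  let kr : ∀ n, F n →L[𝕜] F n := fun n =>
    (((1 : E →L[𝕜] E) - w n).comp (F n).subtypeL).codRestrict (F n) (fun t => hFinv n t)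
  have hdr : ∀ n x, ((dr n x : F n) : E) = w n (x - w n x) := fun n x => rfl
  have hkr : ∀ n (t : F n), ((kr n t : F n) : E) = (t : E) - w n t := fun n t => rfl
  clear_value dr kr
  let q : ℕ → (E × lp (fun n => ↥(F n)) p) →L[𝕜] (E × lp (fun n => ↥(F n)) p) := fun n =>
    ((w n).comp (ContinuousLinearMap.fst 𝕜 E (lp (fun n => ↥(F n)) p)) +
      ((F n).subtypeL.comp (ev n)).comp (ContinuousLinearMap.snd 𝕜 E (lp (fun n => ↥(F n)) p))).prod
    ((τ n).comp (ContinuousLinearMap.snd 𝕜 E (lp (fun n => ↥(F n)) p)) +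
      (sg n).comp ((dr n).comp (ContinuousLinearMap.fst 𝕜 E (lp (fun n => ↥(F n)) p)) +
        ((kr n).comp (ev n)).comp (ContinuousLinearMap.snd 𝕜 E (lp (fun n => ↥(F n)) p))))
  have hq1 : ∀ n z, (q n z).1 = w n z.1 + (ev n z.2 : F n) := fun n z => rfl
  have hq2 : ∀ n z, (q n z).2 = τ n z.2 + sg n (dr n z.1 + kr n (ev n z.2)) := fun n z => rfl
  have hev : ∀ m n z, m < n → ev m (q n z).2 = ev m z.2 := by
    intro m n z hmn
    rw [hq2, map_add, heτ, if_pos hmn, hesne m n _ hmn.ne, add_zero]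
  have hev2 : ∀ m n z, n < m → ev m (q n z).2 = 0 := by
    intro m n z hmn
    rw [hq2, map_add, heτ, if_neg (by omega), hesne m n _ hmn.ne', add_zero]
  have hev3 : ∀ n z, ev n (q n z).2 = dr n z.1 + kr n (ev n z.2) := by
    intro n z
    rw [hq2, map_add, heτ, if_neg (lt_irrefl _), hes, zero_add]
  clear_value q
  have hτq : ∀ m n z, m ≤ n → τ m (q n z).2 = τ m z.2 := by
    intro m n z hmn
    rw [hq2, map_add, hττ, min_eq_left hmn, hτs, if_neg (by omega), add_zero]
  -- composition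
  have hqq : ∀ n m z, q n (q m z) = q (min n m) z := by
    intro n m z
    rcases lt_trichotomy n m with h | h | h
    · -- n < m
      rw [min_eq_left h.le]
      have hwn : w n (q m z).1 = w n z.1 := by
        rw [hq1 m z, map_add, hlt n m h, hF1 n m h, add_zero]
      refine Prod.ext ?_ ?_
      · rw [hq1 n (q m z), hq1 n z, hev n m z h, hwn]
      · rw [hq2 n (q m z), hq2 n z, hev n m z h, hτq n m z h.le]
        congr 3
        apply Subtype.ext
        rw [hdr, hdr, map_sub, map_sub, hwn]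
    · subst h
      rw [min_self]
      have hfst : (q n (q n z)).1 = (q n z).1 := by
        rw [hq1 n (q n z), hev3]
        rw [Submodule.coe_add, hdr, hkr]
        rw [hq1 n z, map_add, map_sub]
        abel
      refine Prod.ext hfst ?_
      rw [hq2 n (q n z), hτq n n z le_rfl, hev3, hq2 n z]
      congr 2
      apply Subtype.ext
      rw [Submodule.coe_add, Submodule.coe_add, hdr, hdr, hkr, hkr, Submodule.coe_add, hdr, hkr,
        hq1 n z]
      simp only [map_add, map_sub]
      abel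
    · -- m < n
      rw [min_eq_right h.le]
      have hwn : w n (q m z).1 = (q m z).1 := by
        rw [hq1 m z, map_add, hgt m n h, hF2 m n h]
      refine Prod.ext ?_ ?_
      · rw [hq1 n (q m z), hev2 n m z h, hwn]
        simp
      · rw [hq2 n (q m z), hev2 n m z h]
        have h3 : dr n (q m z).1 = 0 := by
          apply Subtype.ext
          rw [hdr, hwn, sub_self, map_zero]
          rfl
        rw [h3, map_zero, add_zero, map_zero, add_zero, hq2 m z, map_add, hττ,
          min_eq_right h.le, hτs, if_pos h]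
  refine assemble hp h0 h1 h2 (F := fun n => ↥(F n)) q hqq (fun n => ?_) (fun z => ?_)
  · -- finite rank
    have f0 := hw1 n
    have f1 := hτfin n
    have hle : (q n).toLinearMap.range ≤
        ((w n).toLinearMap.range ⊔ F n).map (LinearMap.inl 𝕜 E (lp (fun n => ↥(F n)) p)) ⊔
        ((τ n).toLinearMap.range ⊔ (sg n).toLinearMap.range).map
          (LinearMap.inr 𝕜 E (lp (fun n => ↥(F n)) p)) := by
      rintro _ ⟨z, rfl⟩
      have hz : (q n).toLinearMap z =
          LinearMap.inl 𝕜 E (lp (fun n => ↥(F n)) p) (q n z).1 +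
          LinearMap.inr 𝕜 E (lp (fun n => ↥(F n)) p) (q n z).2 := by
        refine Prod.ext ?_ ?_ <;> simp
      rw [hz]
      refine Submodule.add_mem_sup (Submodule.mem_map_of_mem ?_) (Submodule.mem_map_of_mem ?_)
      · rw [hq1]
        exact Submodule.add_mem_sup ⟨_, rfl⟩ (ev n z.2).2
      · rw [hq2]
        exact Submodule.add_mem_sup ⟨_, rfl⟩ ⟨_, rfl⟩
    exact Submodule.finiteDimensional_of_le hle
  · -- convergence
    have hevz : Tendsto (fun n => ((ev n z.2 : F n) : E)) atTop (𝓝 0) :=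
      squeeze_zero_norm (fun n => le_rfl) (htail z.2)
    have hwz := hw2 z.1
    have hfst : Tendsto (fun n => (q n z).1) atTop (𝓝 z.1) := by
      have := hwz.add hevz
      rw [add_zero] at this
      simp_rw [hq1]
      exact this
    have hsmall : Tendsto (fun n => sg n (dr n z.1 + kr n (ev n z.2))) atTop (𝓝 0) := by
      have hb : Tendsto (fun n => K * ‖z.1 - w n z.1‖ + (‖ev n z.2‖ + K * ‖ev n z.2‖)) atTop
          (𝓝 0) := by
        have a1 : Tendsto (fun n => z.1 - w n z.1) atTop (𝓝 (z.1 - z.1)) :=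
          tendsto_const_nhds.sub hwz
        rw [sub_self] at a1
        have a2 := a1.norm.const_mul K
        have a3 := (htail z.2).add ((htail z.2).const_mul K)
        simpa using a2.add a3
      refine squeeze_zero_norm (fun n => ?_) hb
      refine (hsgn n _).trans ((norm_add_le _ _).trans (add_le_add ?_ ?_))
      · show ‖((dr n z.1 : F n) : E)‖ ≤ _
        rw [hdr]
        exact (w n).le_of_opNorm_le (hK n) _
      · show ‖((kr n (ev n z.2) : F n) : E)‖ ≤ _
        rw [hkr]
        refine (norm_sub_le _ _).trans (add_le_add le_rfl ?_)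
        exact (w n).le_of_opNorm_le (hK n) _
    have hsnd : Tendsto (fun n => (q n z).2) atTop (𝓝 z.2) := by
      have := (hτt z.2).add hsmall
      rw [add_zero] at this
      simp_rw [hq2]
      exact this
    exact hfst.prodMk_nhds hsnd

end Commuting

end Pool.Agent.Lib.MP_355270_an
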